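import Pool.Agent.helper72.EMG.Defs

/-!
author: helper41
# EMG-1. Strings and reals
-/

set_option autoImplicit false

namespace Pool.Agent.helper72.EMG

theorem Incomp.symm {σ τ : List Bool} (h : Incomp σ τ) : Incomp τ σ := ⟨h.2, h.1⟩

theorem not_incomp {σ τ : List Bool} : ¬ Incomp σ τ ↔ σ <+: τ ∨ τ <+: σ := by
  unfold Incomp
  tauto

/-- extensions of incompatible strings are incompatible (`List.prefix_of_prefix_length_le`) -/
theorem Incomp.mono {σ τ σ' τ' : List Bool} (h : Incomp σ τ) (hσ : σ <+: σ') (hτ : τ <+: τ') :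
    Incomp σ' τ' := by
  constructor
  · intro h1
    rcases List.prefix_or_prefix_of_prefix (hσ.trans h1) hτ with h2 | h2
    · exact h.1 h2
    · exact h.2 h2
  · intro h1
    rcases List.prefix_or_prefix_of_prefix (hτ.trans h1) hσ with h2 | h2
    · exact h.2 h2
    · exact h.1 h2

theorem pref_range (g : ℕ → Bool) (n : ℕ) : Pref ((List.range n).map g) g := by
  unfold Pref
  rw [List.length_map, List.length_range]

theorem pref_nil (g : ℕ → Bool) : Pref [] g := by
  unfold Pref
  simp

private theorem pref_iff_get' {σ : List Bool} {g : ℕ → Bool} :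
    Pref σ g ↔ ∀ n (h : n < σ.length), σ[n] = g n := by
  unfold Pref
  constructor
  · intro h n hn
    have h1 : ((List.range σ.length).map g)[n]'(by simpa using hn) = g n := by simp
    rw [← h1]
    congr 1
    exact h.symm
  · intro h
    apply List.ext_getElem
    · simp
    · intro n h1 h2
      rw [h n h2]
      simp

theorem pref_of_prefix {σ τ : List Bool} {g : ℕ → Bool} (h : Pref σ g) (hτ : τ <+: σ) :
    Pref τ g := by
  rw [pref_iff_get'] at h ⊢
  intro n hn
  rw [hτ.getElem hn]
  exact h n _

theorem pref_iff_get {σ : List Bool} {g : ℕ → Bool} :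
    Pref σ g ↔ ∀ n (h : n < σ.length), σ[n] = g n := pref_iff_get'

/-- two initial segments of a real are comparable -/
theorem prefix_of_pref {σ τ : List Bool} {g : ℕ → Bool} (hσ : Pref σ g) (hτ : Pref τ g)
    (hl : σ.length ≤ τ.length) : σ <+: τ := by
  have h1 : σ = τ.take σ.length := by
    unfold Pref at hσ hτ
    conv_lhs => rw [← hσ]
    conv_rhs => rw [← hτ]
    rw [← List.map_take, List.take_range, min_eq_left hl]
  rw [h1]
  exact List.take_prefix _ _

theorem not_incomp_of_pref {σ τ : List Bool} {g : ℕ → Bool} (hσ : Pref σ g) (hτ : Pref τ g) :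
    ¬ Incomp σ τ := by
  rw [not_incomp]
  rcases le_total σ.length τ.length with h | h
  · exact Or.inl (prefix_of_pref hσ hτ h)
  · exact Or.inr (prefix_of_pref hτ hσ h)

/-- a string which is compatible with a longer initial segment of `g` is an initial segment -/
theorem pref_of_compat {σ τ : List Bool} {g : ℕ → Bool} (hτ : Pref τ g)
    (hl : σ.length ≤ τ.length) (h : ¬ Incomp σ τ) : Pref σ g := by
  rcases not_incomp.1 h with h1 | h1
  · exact pref_of_prefix hτ h1
  · have h2 : τ = σ := h1.eq_of_length (le_antisymm h1.length_le hl)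
    rw [← h2]
    exact hτ

/-- a string which is not an initial segment of `g` is incompatible with every string that extends
a sufficiently long initial segment of `g` -/
theorem incomp_of_not_pref {σ τ : List Bool} {g : ℕ → Bool} (h : ¬ Pref σ g) {n : ℕ}
    (hn : σ.length ≤ n) (hτ : (List.range n).map g <+: τ) : Incomp σ τ := by
  by_contra hc
  have h1 : ¬ Incomp σ ((List.range n).map g) := fun h2 => hc (h2.mono (List.prefix_refl σ) hτ)
  exact h (pref_of_compat (pref_range g n) (by simpa using hn) h1)

/-- a set of pairwise compatible strings of unbounded length consists of initial segments of a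
real -/
theorem exists_real (L : Set (List Bool)) (hc : ∀ σ ∈ L, ∀ τ ∈ L, ¬ Incomp σ τ)
    (hu : ∀ n, ∃ σ ∈ L, n ≤ σ.length) : ∃ g : ℕ → Bool, ∀ σ ∈ L, Pref σ g := by
  choose f hf hfl using hu
  refine ⟨fun n => (f (n + 1))[n]'(by have := hfl (n + 1); omega), fun σ hσ => ?_⟩
  rw [pref_iff_get]
  intro n hn
  rcases not_incomp.1 (hc σ hσ _ (hf (n + 1))) with h | h
  · rw [h.getElem hn]
  · rw [h.getElem]

/-- a string compatible with all members of a set of initial segments of `g` of unbounded length is
an initial segment of `g` -/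
theorem pref_of_all (L : Set (List Bool)) {g : ℕ → Bool} (hL : ∀ σ ∈ L, Pref σ g)
    (hu : ∀ n, ∃ σ ∈ L, n ≤ σ.length) {τ : List Bool} (hτ : ∀ σ ∈ L, ¬ Incomp σ τ) :
    Pref τ g := by
  obtain ⟨σ, hσ, hl⟩ := hu τ.length
  exact pref_of_compat (hL σ hσ) hl fun h => hτ σ hσ h.symm

/-- `g` meets `S` iff some initial segment is in `S` -/
theorem meets_iff {g : ℕ → Bool} {S : Set (List Bool)} : Meets g S ↔ ∃ σ ∈ S, Pref σ g := by
  constructor
  · rintro ⟨n, hn⟩
    exact ⟨_, hn, pref_range g n⟩
  · rintro ⟨σ, hσ, h⟩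
    refine ⟨σ.length, ?_⟩
    have : (List.range σ.length).map g = σ := h
    rw [this]
    exact hσ

end Pool.Agent.helper72.EMG
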