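import Pool.Agent.helper72.EMG.Iw
import Pool.Agent.helper72.EMG.Wd

/-!
author: helper41
# EMG-10. Labels of different children are incompatible
-/

set_option autoImplicit false

namespace Pool.Agent.helper72.EMG

variable {T : ℕ → ℕ → Bool} {lab : Finset ℕ → List Bool}

/-- the nodes of a child cohort, with all details -/
private theorem node (hT : IsTour T) {z : Finset ℕ} {ρ : Bool} {α : List (Finset ℕ × Bool)}
    {d d' : Dat} (hd : entry T lab α = some d) (h : entry T lab ((z, ρ) :: α) = some d') :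
    ∃ d1, kid1 T lab d z = some d1 ∧ code (supp d.C) d1.u = z ∧
      ∀ E' ∈ d'.C, ∃ E ∈ d.C, ∃ l m, l < m ∧ m < 6 ∧
        ((ρ = false ∧ (l, m) ∈ inner) ∨ (ρ = true ∧ (l, m) ∈ cross)) ∧
        ∃ D ∈ d.B (blk d.C d.B d1.u l), ∃ D' ∈ d.B (blk d.C d.B d1.u m), E' = E ∪ D ∪ D' := by
  obtain ⟨d0, d1, h0, h1, h2⟩ := entry_cons h
  rw [hd] at h0
  obtain rfl := Option.some.inj h0
  have hinv := entry_inv hT hd
  obtain ⟨i1, i2, i3, i4⟩ := kid1_inv hT hinv h1
  refine ⟨d1, h1, i3, fun E' hE' => ?_⟩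
  rcases h2 with ⟨hρ, hd'⟩ | ⟨hρ, hd'⟩
  · subst hd'
    rw [i4, mem_child1] at hE'
    obtain ⟨E, hE, -, l, m, hlm, D, hD, D', hD', -, -, he⟩ := hE'
    have h3 := inner_lt _ hlm
    exact ⟨E, hE, l, m, h3.1, h3.2, Or.inl ⟨hρ, hlm⟩, D, hD, D', hD', he⟩
  · obtain ⟨j1, j2, j3, j4, j5⟩ := kid2_inv hT hinv h1 hd'
    rw [j5, mem_child2] at hE'
    obtain ⟨E, hE, -, l, m, hlm, D, hD, D', hD', -, -, -, -, he⟩ := hE'
    have h3 := cross_lt _ hlm
    exact ⟨E, hE, l, m, h3.1, h3.2, Or.inr ⟨hρ, hlm⟩, D, hD, D', hD', he⟩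

/-- the nodes of a child cohort -/
theorem parent (hT : IsTour T) {z : Finset ℕ} {ρ : Bool} {α : List (Finset ℕ × Bool)}
    {d d' : Dat} (hd : entry T lab α = some d) (h : entry T lab ((z, ρ) :: α) = some d') :
    ∀ E' ∈ d'.C, ∃ E ∈ d.C, ∃ p q, 1 ≤ p ∧ p < q ∧ q ≤ bnd (supp d.C) ∧
      ∃ D ∈ d.B p, ∃ D' ∈ d.B q, E' = E ∪ D ∪ D' := by
  obtain ⟨d1, -, -, h1⟩ := node hT hd h
  intro E' hE'
  obtain ⟨E, hE, l, m, hlm, hm, -, D, hD, D', hD', he⟩ := h1 E' hE'
  exact ⟨E, hE, _, _, (blk_bounds d.C d.B d1.u (hlm.trans hm)).1, blk_lt d.C d.B d1.u hlm hm,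
    (blk_bounds d.C d.B d1.u hm).2, D, hD, D', hD', he⟩

private theorem ee1 {d : Dat} (hd : Inv T lab d) {p : ℕ} (hp : p ≤ bnd (supp d.C))
    {E : Finset ℕ} (hE : E ∈ d.C) {D : Finset ℕ} (hD : D ∈ d.B p) : EndExt E (E ∪ D) :=
  endExt_union fun y hy x hx => (hd.str.sees p hp D hD y hy E hE x hx).1

private theorem ee2 {d : Dat} (hd : Inv T lab d) {p q : ℕ} (hpq : p < q)
    (hq : q ≤ bnd (supp d.C)) {E : Finset ℕ} (hE : E ∈ d.C) {D D' : Finset ℕ} (hD : D ∈ d.B p)
    (hD' : D' ∈ d.B q) : EndExt (E ∪ D) (E ∪ D ∪ D') := by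
  refine endExt_union fun y hy x hx => ?_
  rcases Finset.mem_union.1 hx with h | h
  · exact (hd.str.sees q hq D' hD' y hy E hE x h).1
  · exact hd.str.lt p q hpq hq D hD D' hD' x h y hy

/-- EMG-10a.  Labels above different pairs of blocks are incompatible.
Proof.  `p ≠ p'`, say `p < p'`: `lab1` for `E ∪ D`, `E' ∪ G`, and the labels of `E ∪ D ∪ D'`,
`E' ∪ G ∪ G'` extend these (`LabMono`, `IsStr.lt`, `IsStr.sees`; `endExt_union`).
`p = p'`, `q ≠ q'`: `lab2`. -/
theorem incomp_pairs (hl : LabMono lab) {d : Dat} (hd : Inv T lab d) {p q p' q' : ℕ}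
    (hpq : p < q) (hq : q ≤ bnd (supp d.C)) (hpq' : p' < q') (hq' : q' ≤ bnd (supp d.C))
    (hne : (p, q) ≠ (p', q')) {E E' : Finset ℕ} (hE : E ∈ d.C) (hE' : E' ∈ d.C)
    {D D' G G' : Finset ℕ} (hD : D ∈ d.B p) (hD' : D' ∈ d.B q) (hG : G ∈ d.B p')
    (hG' : G' ∈ d.B q') : Incomp (lab (E ∪ D ∪ D')) (lab (E' ∪ G ∪ G')) := by
  have m1 := hl _ _ (ee2 hd hpq hq hE hD hD')
  have m2 := hl _ _ (ee2 hd hpq' hq' hE' hG hG')
  rcases lt_trichotomy p p' with h | h | h
  · exact (hd.str.lab1 p p' h (hpq'.le.trans hq') E hE E' hE' D hD G hG).mono m1 m2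
  · subst h
    rcases lt_trichotomy q q' with h1 | h1 | h1
    · exact hd.str.lab2 p q q' hpq h1 hq' E hE E' hE' D hD G hG D' hD' G' hG'
    · subst h1
      exact absurd rfl hne
    · exact (hd.str.lab2 p q' q hpq' h1 hq E' hE' E hE G hG D hD G' hG' D' hD').symm
  · exact (hd.str.lab1 p' p h (hpq.le.trans hq) E' hE' E hE G hG D hD).symm.mono m1 m2

private theorem blk_inj (C : Finset (Finset ℕ)) (B : ℕ → Finset (Finset ℕ)) (v : ℕ → Bool)
    {l m : ℕ} (hl : l < 6) (hm : m < 6) (h : blk C B v l = blk C B v m) : l = m := by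
  rcases lt_trichotomy l m with h1 | h1 | h1
  · exact absurd h (blk_lt C B v h1 hm).ne
  · exact h1
  · exact absurd h (blk_lt C B v h1 hl).ne'

private theorem inner_cross (l m : ℕ) (h1 : (l, m) ∈ inner) (h2 : (l, m) ∈ cross) : False := by
  simp only [inner, cross, Finset.mem_insert, Finset.mem_singleton, Prod.mk.injEq] at h1 h2
  omega

/-- EMG-10b.  Labels of nodes of different children are incompatible.
Proof.  By `entry_cons`, `kid1_inv`, `kid2_inv`, `mem_child1`, `mem_child2` the nodes are `E ∪ D ∪ D'` with `D, D'` in the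
blocks number `blk .. l`, `blk .. m`.  If `z ≠ z'` the numbers of the first blocks are different (`pos_inj`;
`blk C B v l = pos (code (supp C) v) (picke .. l)` with `code (supp C) v = z` resp. `z'`, where `v` is the world of
the first child, also for second children).  If `z = z'` and `ρ ≠ ρ'` then both use the same
first child `d1`, hence the same `v = d1.u` and the same
numbers `blk d.C d.B d1.u l`, with a pair `(l,m)` in `inner` for one and in `cross` for the other;
`blk` is injective on `{0,..,5}` (`blk_lt`), so the pairs of numbers are different.  Use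
`incomp_pairs`. -/
theorem sibling (hT : IsTour T) (hl : LabMono lab) {z z' : Finset ℕ} {ρ ρ' : Bool}
    {α : List (Finset ℕ × Bool)} {d d1 d2 : Dat} (hd : entry T lab α = some d)
    (h1 : entry T lab ((z, ρ) :: α) = some d1) (h2 : entry T lab ((z', ρ') :: α) = some d2)
    (hne : (z, ρ) ≠ (z', ρ')) : ∀ E1 ∈ d1.C, ∀ E2 ∈ d2.C, Incomp (lab E1) (lab E2) := by
  intro E1 hE1 E2 hE2
  obtain ⟨da, ka, ca, na⟩ := node hT hd h1
  obtain ⟨db, kb, cb, nb⟩ := node hT hd h2
  obtain ⟨E, hE, l, m, hlm, hm, hP, D, hD, D', hD', he⟩ := na E1 hE1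
  obtain ⟨E', hE', l', m', hlm', hm', hP', G, hG, G', hG', he'⟩ := nb E2 hE2
  rw [he, he']
  refine incomp_pairs hl (entry_inv hT hd) (blk_lt d.C d.B da.u hlm hm)
    (blk_bounds d.C d.B da.u hm).2 (blk_lt d.C d.B db.u hlm' hm')
    (blk_bounds d.C d.B db.u hm').2 ?_ hE hE' hD hD' hG hG'
  intro heq
  obtain ⟨e1, e2⟩ := Prod.mk.inj heq
  have hl6 := hlm.trans hm
  have hl6' := hlm'.trans hm'
  have hz : z = z' := by
    have e3 : pos (code (supp d.C) da.u) (picke (sgn d.C d.B da.u) l) =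
        pos (code (supp d.C) db.u) (picke (sgn d.C d.B db.u) l') := e1
    rw [ca, cb] at e3
    exact (pos_inj (picke_spec _ l hl6).1 (picke_spec _ l' hl6').1 e3).1
  subst hz
  rw [ka] at kb
  obtain rfl := Option.some.inj kb
  have e4 := blk_inj _ _ _ hl6 hl6' e1
  have e5 := blk_inj _ _ _ hm hm' e2
  subst e4
  subst e5
  rcases hP with ⟨r1, p1⟩ | ⟨r1, p1⟩ <;> rcases hP' with ⟨r2, p2⟩ | ⟨r2, p2⟩
  · exact hne (by rw [r1, r2])
  · exact inner_cross _ _ p1 p2
  · exact inner_cross _ _ p2 p1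
  · exact hne (by rw [r1, r2])

/-- EMG-10c.  The enumerated strings are incompatible with the labels of the children's nodes
(`lab1` for the blocks `0 < p`, and `LabMono`). -/
theorem tau_child (hT : IsTour T) (hl : LabMono lab) {z : Finset ℕ} {ρ : Bool}
    {α : List (Finset ℕ × Bool)} {d d1 : Dat} (hd : entry T lab α = some d)
    (h1 : entry T lab ((z, ρ) :: α) = some d1) :
    ∀ E ∈ d.C, ∀ D ∈ d.B 0, ∀ E1 ∈ d1.C, Incomp (lab (E ∪ D)) (lab E1) := by
  intro E hE D hD E1 hE1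
  have hinv := entry_inv hT hd
  obtain ⟨G, hG, p, q, hp, hpq, hq, D1, hD1, D1', hD1', he⟩ := parent hT hd h1 E1 hE1
  rw [he]
  have m2 := hl _ _ (ee2 hinv hpq hq hG hD1 hD1')
  exact (hinv.str.lab1 0 p hp (hpq.le.trans hq) E hE G hG D hD D1 hD1).mono (List.prefix_refl _) m2

/-- EMG-10d.  Let `α k`, `d k`, `E k` be a path through the closed cohorts.  Every string in `WMain` is
incompatible with the label of some `E k`.
Proof.  Claim: if `entry T lab β = some d'` and `E'' ∈ d'.C` then `β = α (β.length)` or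
`Incomp (lab E'') (lab (E β.length))`.  Induction on `β`.  `β = []`: `α 0 = []`.  `β = (z, ρ) :: γ`: by `entry_cons` there is
`entry T lab γ = some dγ`, and `E'' = G ∪ D ∪ D'` with `G ∈ dγ.C` (`parent`).  If `γ ≠ α γ.length`: then
`lab G` is incompatible with `lab (E γ.length)`, and `lab E''` extends `lab G`, `lab (E (γ.length + 1))` extends
`lab (E γ.length)`.  If `γ = α γ.length =: α n`, `dγ = d n`: let `α (n+1) = (z', ρ') :: α n`.  Either
`(z, ρ) = (z', ρ')` and `β = α (n+1)`, or `sibling`.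
Now let `τ = lab (E'' ∪ D₀)` with `entry T lab β = some d'`, `E'' ∈ d'.C`, `D₀ ∈ d'.B 0`, `n = β.length`.  If
`β ≠ α n`: `lab E''` is incompatible with `lab (E n)`, and `τ` extends `lab E''` (`IsStr.sees`).
If `β = α n` then `d' = d n` and `tau_child` with `E (n+1)`. -/
theorem tau_incomp (hT : IsTour T) (hl : LabMono lab) (α : ℕ → List (Finset ℕ × Bool))
    (d : ℕ → Dat) (E : ℕ → Finset ℕ) (h0 : α 0 = []) (hlen : ∀ n, (α n).length = n)
    (hα : ∀ n, ∃ a, α (n + 1) = a :: α n) (hd : ∀ n, entry T lab (α n) = some (d n))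
    (hE : ∀ n, E n ∈ (d n).C) (hEE : ∀ n, EndExt (E n) (E (n + 1))) :
    ∀ τ ∈ WMain T lab, ∃ n, Incomp τ (lab (E n)) := by
  have claim : ∀ β : List (Finset ℕ × Bool), ∀ d' : Dat, ∀ E'' : Finset ℕ,
      entry T lab β = some d' → E'' ∈ d'.C →
      β = α β.length ∨ Incomp (lab E'') (lab (E β.length)) := by
    intro β
    induction β with
    | nil =>
      intro d' E'' _ _
      left
      rw [List.length_nil, h0]
    | cons a γ ih =>
      obtain ⟨z, ρ⟩ := a
      intro d' E'' hd' hE''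
      obtain ⟨dg, -, hg, -, -⟩ := entry_cons hd'
      have hinv := entry_inv hT hg
      obtain ⟨G, hG, p, q, hp, hpq, hq, D, hD, D', hD', he⟩ := parent hT hg hd' E'' hE''
      rw [List.length_cons]
      rcases ih dg G hg hG with h | h
      · obtain ⟨⟨z', ρ'⟩, ha⟩ := hα γ.length
        have hg' := hg
        rw [h, hd γ.length] at hg'
        by_cases hz : (z, ρ) = (z', ρ')
        · left
          rw [ha, hz, ← h]
        · right
          refine sibling hT hl hg hd' ?_ hz E'' hE'' _ (hE (γ.length + 1))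
          rw [← hd (γ.length + 1), ha, ← h]
      · right
        refine h.mono ?_ (hl _ _ (hEE γ.length))
        rw [he]
        exact (hl _ _ (ee1 hinv (hpq.le.trans hq) hG hD)).trans (hl _ _ (ee2 hinv hpq hq hG hD hD'))
  rintro τ ⟨β, d', hβ, E'', hE'', D₀, hD₀, rfl⟩
  rcases claim β d' E'' hβ hE'' with h | h
  · refine ⟨β.length + 1, ?_⟩
    obtain ⟨⟨z', ρ'⟩, ha⟩ := hα β.length
    refine tau_child hT hl hβ (z := z') (ρ := ρ') (d1 := d (β.length + 1)) ?_ E'' hE'' D₀ hD₀ _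
      (hE (β.length + 1))
    rw [← hd (β.length + 1), ha, ← h]
  · refine ⟨β.length, h.mono ?_ (List.prefix_refl _)⟩
    exact hl _ _ (ee1 (entry_inv hT hβ) (Nat.zero_le _) hE'' hD₀)

end Pool.Agent.helper72.EMG
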