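import Pool.Agent.helper72.EMG.St
import Pool.Agent.helper72.EMG.Sb

/-!
# EMG-12. The core theorem

author of the proofs: helper56
-/

set_option autoImplicit false

namespace Pool.Agent.helper72.EMG

variable {T : ℕ → ℕ → Bool} {lab : Finset ℕ → List Bool}

/-- EMG-12a.  The true path: sequences of addresses, closed cohorts and nodes (dependent choice from
`exists_root`, `root_inv` (the root cohort is `{∅}`) and `step`). -/
theorem exists_path (κ : UCtx T lab) (hT : IsTour T) (hl : LabMono lab) :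
    ∃ (α : ℕ → List (Finset ℕ × Bool)) (d : ℕ → Dat) (E : ℕ → Finset ℕ),
      α 0 = [] ∧ (∀ n, (α n).length = n) ∧ (∀ n, ∃ a, α (n + 1) = a :: α n) ∧
      (∀ n, entry T lab (α n) = some (d n)) ∧ (∀ n, E n ∈ (d n).C) ∧
      (∀ n, EndExt (E n) (E (n + 1))) ∧ (∀ n, E n ≠ E (n + 1)) ∧ E 0 = ∅ := by
  obtain ⟨d0, hd0⟩ := exists_root κ hT hl
  have hroot : d0.C = {∅} := (root_inv (T := T) (lab := lab) hd0).2
  let St := {q : List (Finset ℕ × Bool) × Dat × Finset ℕ // entry T lab q.1 = some q.2.1 ∧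
    q.2.2 ∈ q.2.1.C ∧ ∀ x ∈ q.2.2, κ.w x = q.2.1.u x}
  have hst : ∀ q : St, ∃ q' : St, (∃ a, q'.1.1 = a :: q.1.1) ∧ EndExt q.1.2.2 q'.1.2.2 ∧
      q.1.2.2 ≠ q'.1.2.2 := by
    rintro ⟨⟨α, d, E⟩, h1, h2, h3⟩
    obtain ⟨a, d', E', h4, h5, h6, h7, h8⟩ := step κ hT hl h1 h2 h3
    exact ⟨⟨⟨a :: α, d', E'⟩, h4, h5, h6⟩, ⟨a, rfl⟩, h7, h8⟩
  choose f hf1 hf2 hf3 using hst
  let q0 : St := ⟨([], d0, ∅), hd0, by
    change (∅ : Finset ℕ) ∈ d0.C
    rw [hroot]
    exact Finset.mem_singleton_self _, fun x hx => absurd hx (Finset.notMem_empty x)⟩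
  let s : ℕ → St := fun n => Nat.rec q0 (fun _ q => f q) n
  have hs : ∀ n, s (n + 1) = f (s n) := fun n => rfl
  refine ⟨fun n => (s n).1.1, fun n => (s n).1.2.1, fun n => (s n).1.2.2, rfl, ?_, ?_,
    fun n => (s n).2.1, fun n => (s n).2.2.1, ?_, ?_, rfl⟩
  · intro n
    induction n with
    | zero => rfl
    | succ n ih =>
      obtain ⟨a, ha⟩ := hf1 (s n)
      change ((s (n + 1)).1.1).length = n + 1
      rw [hs, ha, List.length_cons]
      exact congrArg (· + 1) ih
  · intro n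
    obtain ⟨a, ha⟩ := hf1 (s n)
    refine ⟨a, ?_⟩
    change (s (n + 1)).1.1 = _
    rw [hs, ha]
  · intro n
    exact hf2 (s n)
  · intro n
    exact hf3 (s n)

private theorem Co_endExt_le {E : ℕ → Finset ℕ} (hEE : ∀ n, EndExt (E n) (E (n + 1))) {n m : ℕ}
    (h : n ≤ m) : EndExt (E n) (E m) := by
  induction m, h using Nat.le_induction with
  | base => exact ⟨Finset.Subset.refl _, fun x hx hx' => absurd hx hx'⟩
  | succ m _ ih => exact ih.trans (hEE m)

/-- EMG-12b.  For an increasing sequence of end-extensions with union `H`, each `E n` is of the form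
`cut H m` (`m = (E n).sup Nat.succ`), each `cut H m` has an end-extension `E n`, and `H` is infinite. -/
theorem union_path (E : ℕ → Finset ℕ) (hEE : ∀ n, EndExt (E n) (E (n + 1)))
    (hne : ∀ n, E n ≠ E (n + 1)) :
    ({x | ∃ n, x ∈ E n} : Set ℕ).Infinite ∧ (∀ n, ∃ m, cut {x | ∃ n, x ∈ E n} m = E n) ∧
      ∀ m, ∃ n, EndExt (cut {x | ∃ n, x ∈ E n} m) (E n) := by
  have hle := fun {n m : ℕ} (h : n ≤ m) => Co_endExt_le hEE h
  have hcard : ∀ n, n ≤ (E n).card := by
    intro n
    induction n with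
    | zero => exact Nat.zero_le _
    | succ n ih =>
      have h1 : E n ⊂ E (n + 1) := lt_of_le_of_ne (hEE n).1 (hne n)
      have h2 := Finset.card_lt_card h1
      omega
  refine ⟨?_, ?_, ?_⟩
  · intro hfin
    have h1 : E (hfin.toFinset.card + 1) ⊆ hfin.toFinset := by
      intro x hx
      rw [Set.Finite.mem_toFinset]
      exact ⟨_, hx⟩
    have h2 := Finset.card_le_card h1
    have h3 := hcard (hfin.toFinset.card + 1)
    omega
  · intro n
    refine ⟨(E n).sup Nat.succ, ?_⟩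
    ext x
    rw [mem_cut]
    constructor
    · rintro ⟨h1, k, hk⟩
      by_contra hx
      rcases le_total k n with h | h
      · exact hx ((hle h).1 hk)
      · have h2 := (hle h).2 x hk hx
        have h3 : (E n).sup Nat.succ ≤ x := Finset.sup_le fun y hy => h2 y hy
        omega
    · intro hx
      exact ⟨Finset.le_sup (f := Nat.succ) hx, n, hx⟩
  · intro m
    have h1 : ∀ x, ∃ k, x ∈ cut {x | ∃ n, x ∈ E n} m → x ∈ E k := by
      intro x
      by_cases hx : x ∈ cut {x | ∃ n, x ∈ E n} m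
      · obtain ⟨k, hk⟩ := (mem_cut.1 hx).2
        exact ⟨k, fun _ => hk⟩
      · exact ⟨0, fun h => absurd h hx⟩
    choose k hk using h1
    refine ⟨(cut {x | ∃ n, x ∈ E n} m).sup k, ?_, ?_⟩
    · intro x hx
      exact (hle (Finset.le_sup (f := k) hx)).1 (hk x hx)
    · intro x hx hx' y hy
      have h2 : m ≤ x := by
        by_contra hcon
        exact hx' (mem_cut.2 ⟨by omega, _, hx⟩)
      exact lt_of_lt_of_le (mem_cut.1 hy).1 h2

/-- EMG-12.  THE CORE THEOREM.
Proof.  `exists_uctx`, `exists_path`; `H = ⋃ E n` is infinite (`union_path`) and transitive (three elements lie in one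
`E n`, which is alive by `entry_inv`).  Let `g` be the real of `HypA`.  `lab (E n)` is an initial segment of `g`
(`union_path`).  If `g` meets `WMain` (`Idx.main`): some `τ ∈ WMain` is an initial segment of `g` (`meets_iff`), but it is
incompatible with some `lab (E n)` (`tau_incomp`), contradiction to `not_incomp_of_pref`.
If `g` avoids `WMain`: there is `k` such that no extension of `g↾k` is in `WMain`.  There is `m` with
`k ≤ (lab (cut H m)).length`, and `n` with `EndExt (cut H m) (E n)`; so `g↾k <+: lab (E n)`.  Take `D ∈ (d n).B 0`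
(`Big.nonempty`, `IsStr.big`); `lab (E n ∪ D)` is in `WMain` and extends `lab (E n)` (`IsStr.sees`, `endExt_union`).
Contradiction. -/
theorem core (hT : IsTour T) (hl : LabMono lab) : ¬ HypA T lab := by
  intro hA
  obtain ⟨κ⟩ := exists_uctx hT hl hA
  obtain ⟨α, d, E, h0, hlen, hα, hd, hE, hEE, hne, hE0⟩ := exists_path κ hT hl
  obtain ⟨hinf, hcut, hcut'⟩ := union_path E hEE hne
  have hle := fun {n m : ℕ} (h : n ≤ m) => Co_endExt_le hEE h
  have htrn : Trn T {x | ∃ n, x ∈ E n} := by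
    rintro x ⟨i, hi⟩ y ⟨j, hj⟩ z ⟨k, hk⟩ h1 h2
    have hI := entry_inv hT (hd (max i (max j k)))
    exact (hI.alive _ (hE (max i (max j k)))).1 x
      ((hle (le_max_left i (max j k))).1 hi) y
      ((hle ((le_max_left j k).trans (le_max_right i (max j k)))).1 hj) z
      ((hle ((le_max_right j k).trans (le_max_right i (max j k)))).1 hk) h1 h2
  obtain ⟨g, hg1, hg2, hg3⟩ := hA _ hinf htrn
  have hgE : ∀ n, Pref (lab (E n)) g := by
    intro n
    obtain ⟨m, hm⟩ := hcut n
    rw [← hm]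
    exact hg1 m
  rcases hg3 Idx.main with hmeet | hav
  · obtain ⟨σ, hσ, hp⟩ := meets_iff.1 hmeet
    obtain ⟨n, hn⟩ := tau_incomp hT hl α d E h0 hlen hα hd hE hEE σ hσ
    exact not_incomp_of_pref hp (hgE n) hn
  · obtain ⟨k, hk⟩ := hav
    obtain ⟨m, hm⟩ := hg2 k
    obtain ⟨n, hn⟩ := hcut' m
    have hI := entry_inv hT (hd n)
    obtain ⟨D, hD⟩ := Big.nonempty (by norm_num) (hI.str.big 0 (Nat.zero_le _))
    have h1 : (List.range k).map g <+: lab (cut {x | ∃ n, x ∈ E n} m) :=
      prefix_of_pref (pref_range g k) (hg1 m) (by simpa using hm)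
    have h2 : lab (E n) <+: lab (E n ∪ D) := hl _ _ (endExt_union fun y hy x hx =>
      (hI.str.sees 0 (Nat.zero_le _) D hD y hy (E n) (hE n) x hx).1)
    exact hk _ ((h1.trans (hl _ _ hn)).trans h2) ⟨α n, d n, hd n, E n, hE n, D, hD, rfl⟩

end Pool.Agent.helper72.EMG
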