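import Pool.Agent.helper72.EMG.Iv

/-!
# EMG-13. The operators are open: membership only depends on a truncation
-/

set_option autoImplicit false

namespace Pool.Agent.helper72.EMG

variable {T T' : ℕ → ℕ → Bool} {lab lab' : Finset ℕ → List Bool}

private theorem tr_mono {s s' : ℕ} (hs : s ≤ s') (h : tr s' T = tr s' T') : tr s T = tr s T' := by
  rw [← tr_tr T hs, ← tr_tr T' hs, h]

private theorem trl_mono {s s' : ℕ} (hs : s ≤ s') (h : trl s' lab = trl s' lab') :
    trl s lab = trl s lab' := by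
  rw [← trl_trl lab hs, ← trl_trl lab' hs, h]

private theorem T_eq {s x y : ℕ} (h : tr s T = tr s T') (hx : x ≤ s) (hy : y ≤ s) :
    T' x y = T x y := by
  have h1 := congrFun (congrFun h x) y
  simpa [tr, hx, hy] using h1.symm

private theorem lab_eq {s : ℕ} {E : Finset ℕ} (h : trl s lab = trl s lab') (hE : ∀ x ∈ E, x ≤ s) :
    lab' E = lab E := by
  have h1 := congrFun h E
  have h2 : E ⊆ Finset.range (s + 1) := fun x hx => Finset.mem_range.2 (Nat.lt_succ_of_le (hE x hx))
  simpa [trl, h2] using h1.symm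

open Classical in
private theorem dat_eq {Q : (ℕ → ℕ → Bool) → ℕ → Option (Finset (Finset ℕ))} {s0 : ℕ}
    {T₁ T₂ : ℕ → ℕ → Bool} {l₁ l₂ : Finset ℕ → List Bool} {s₁ s₂ : ℕ} (hs : s₁ = s₂)
    (hT : T₁ = T₂) (hl : l₁ = l₂) (h₁ : Tst Q s0 T₁ l₁ s₁) (h₂ : Tst Q s0 T₂ l₂ s₂) :
    ({ s := s₁, C := h₁.2.choose, u := wld T₁ s₁, B := h₁.2.choose_spec.2.choose } : Dat) =
      { s := s₂, C := h₂.2.choose, u := wld T₂ s₂, B := h₂.2.choose_spec.2.choose } := by
  subst hs hT hl
  rfl

/-- EMG-13a.  Proof.  `Tst Q s0 (tr s T) (trl s lab) s` is the same proposition for `T', lab'` for all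
`s ≤ d.s` (`tr_tr`, `trl_trl`), hence the first stage is the same; at this stage `s = d.s` the chosen `C, B` are the
same because they are chosen from the same predicates of `tr s T = tr s T'`, `trl s lab = trl s lab'`
(rewrite; a lemma of the form `∀ T₁ T₂ l₁ l₂ (hT : T₁ = T₂) (hl : l₁ = l₂) (h₁ : Tst Q s0 T₁ l₁ s) (h₂ : Tst Q s0 T₂ l₂ s),
h₁.2.choose = h₂.2.choose ∧ ..` by `subst`). -/
theorem search_local {Q : (ℕ → ℕ → Bool) → ℕ → Option (Finset (Finset ℕ))} {s0 : ℕ} {d : Dat}
    (h : search Q s0 T lab = some d) (hT : tr d.s T = tr d.s T')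
    (hl : trl d.s lab = trl d.s lab') : search Q s0 T' lab' = some d := by
  classical
  unfold search at h
  split_ifs at h with h1
  have hd := Option.some.inj h
  have hds : d.s = Nat.find h1 := by rw [← hd]
  rw [hds] at hT hl
  have h2 : ∃ s, Tst Q s0 (tr s T') (trl s lab') s := by
    refine ⟨Nat.find h1, ?_⟩
    rw [← hT, ← hl]
    exact Nat.find_spec h1
  have h3 : Nat.find h2 = Nat.find h1 := by
    rw [Nat.find_eq_iff]
    refine ⟨?_, fun n hn hh => ?_⟩
    · rw [← hT, ← hl]
      exact Nat.find_spec h1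
    · rw [← tr_mono hn.le hT, ← trl_mono hn.le hl] at hh
      exact Nat.find_min h1 hn hh
  unfold search
  rw [dif_pos h2, ← hd]
  congr 1
  exact dat_eq h3 (by rw [h3, hT]) (by rw [h3, hl]) (Nat.find_spec h2) (Nat.find_spec h1)

/-- EMG-13b.  Induction on `α`, with `entry_lt`/`kid1_lt`/`kid2_lt` for the inequalities between the stages and
`tr_tr`, `trl_trl` to restrict the hypotheses to earlier stages. -/
theorem entry_local {α : List (Finset ℕ × Bool)} {d : Dat} (h : entry T lab α = some d)
    (hT : tr d.s T = tr d.s T') (hl : trl d.s lab = trl d.s lab') :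
    entry T' lab' α = some d := by
  induction α generalizing d with
  | nil => exact search_local h hT hl
  | cons a α ih =>
    obtain ⟨z, b⟩ := a
    cases b with
    | false =>
      simp only [entry, Option.bind_eq_some_iff] at h ⊢
      obtain ⟨d0, h0, h1⟩ := h
      have hlt := kid1_lt (entry_lt h0) h1
      exact ⟨d0, ih h0 (tr_mono hlt.2.le hT) (trl_mono hlt.2.le hl), search_local h1 hT hl⟩
    | true =>
      simp only [entry, Option.bind_eq_some_iff] at h ⊢
      obtain ⟨d0, h0, d1, h1, h2⟩ := h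
      have hlt := kid1_lt (entry_lt h0) h1
      have hlt2 := kid2_lt (entry_lt h0) hlt.2 h2
      have hT1 := tr_mono hlt2.2.le hT
      have hl1 := trl_mono hlt2.2.le hl
      exact ⟨d0, ih h0 (tr_mono hlt.2.le hT1) (trl_mono hlt.2.le hl1), d1, search_local h1 hT1 hl1,
        search_local h2 hT hl⟩

/-- EMG-13c.  (`entry_lt`: `E ∪ D ⊆ range (d.s + 1)`, so `lab' (E ∪ D) = lab (E ∪ D)`.) -/
theorem wmain_local {σ : List Bool} (h : σ ∈ WMain T lab) :
    ∃ s, ∀ T' lab', tr s T = tr s T' → trl s lab = trl s lab' → σ ∈ WMain T' lab' := by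
  obtain ⟨α, d, h1, E, hE, D, hD, rfl⟩ := h
  refine ⟨d.s, fun T' lab' hT hl => ⟨α, d, entry_local h1 hT hl, E, hE, D, hD, ?_⟩⟩
  have hlt := entry_lt h1
  refine (lab_eq hl fun x hx => ?_).symm
  rcases Finset.mem_union.1 hx with hx | hx
  · exact (hlt.1 E hE x hx).le
  · exact (hlt.2 0 D hD x hx).le

private theorem hom_local {K s N : ℕ} {c c' : ℕ → Fin K} {a : Fin K} {D : Finset ℕ}
    (hD : ∀ x ∈ D, x ≤ s) (hT : tr s T = tr s T') (hc : ∀ y ≤ s, c' y = c y)
    (h : Hom T N c a D) : Hom T' N c' a D := by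
  refine ⟨fun x hx y hy z hz => ?_, fun y hy => ?_⟩
  · rw [T_eq hT (hD x hx) (hD y hy), T_eq hT (hD y hy) (hD z hz), T_eq hT (hD x hx) (hD z hz)]
    exact h.1 x hx y hy z hz
  · rw [hc y (hD y hy)]
    exact h.2 y hy

private theorem isOpen_agree {K : ℕ} (c : ℕ → Fin K) (s : ℕ) :
    IsOpen {c' : ℕ → Fin K | ∀ y ≤ s, c' y = c y} := by
  have h : {c' : ℕ → Fin K | ∀ y ≤ s, c' y = c y} =
      ⋂ y ∈ Finset.range (s + 1), {c' : ℕ → Fin K | c' y = c y} := by
    ext c'
    simp
  rw [h]
  refine isOpen_biInter_finset fun y _ => ?_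
  have h1 : Continuous fun c' : ℕ → Fin K => c' y := continuous_apply y
  exact h1.isOpen_preimage ({c y} : Set (Fin K)) (isOpen_discrete _)

/-- EMG-13d.  Compactness.  Let `σ ∈ WCls T lab q`.  For every `c : ℕ → Fin K` there are `s` and an open
neighbourhood `O` of `c` such that for all `c' ∈ O` and all `T', lab'` with the same truncations to `[0,s]`:
`c' ∉ Cls T' lab' q` or there is `D` as in the definition of `WCls`.  (If `c ∉ Cls T lab q` then one of the clauses
fails, and this failure is witnessed by finitely many numbers / finite sets `D, D'`: take `s` larger than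
all of them (and than the elements of the `q.E a`) and `O` = all `c'` with `c' y = c y` for `y ≤ s`.  If
`c ∈ Cls T lab q` there is `D`; take `s` larger than the elements of `D` and of `q.E q.a`, and the same `O`.)  Take a
finite subcover of the compact space `ℕ → Fin K` and the maximum of the numbers `s`. -/
theorem wcls_local {q : Par} {σ : List Bool} (h : σ ∈ WCls T lab q) :
    ∃ s, ∀ T' lab', tr s T = tr s T' → trl s lab = trl s lab' → σ ∈ WCls T' lab' q := by
  have key : ∀ c : ℕ → Fin q.K, ∃ s : ℕ, ∀ c' : ℕ → Fin q.K, (∀ y ≤ s, c' y = c y) →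
      ∀ T' lab', tr s T = tr s T' → trl s lab = trl s lab' → c' ∈ Cls T' lab' q →
        ∃ D, Hom T' q.N c' q.a D ∧ Incomp (lab' (q.E q.a ∪ D)) σ := by
    intro c
    have hbd : ∀ F : Finset ℕ, ∀ x ∈ F, x ≤ F.sup id := fun F x hx =>
      Finset.le_sup (f := id) hx
    by_cases hc : c ∈ Cls T lab q
    · obtain ⟨D, hD1, hD2⟩ := h c hc
      refine ⟨(q.E q.a ∪ D).sup id, fun c' hc' T' lab' hT hl _ => ⟨D, ?_, ?_⟩⟩
      · exact hom_local (fun x hx => hbd _ x (Finset.mem_union_right _ hx)) hT hc' hD1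
      · rw [lab_eq hl (hbd _)]
        exact hD2
    · by_cases h1 : ∀ y, q.N ≤ y → ∀ x ∈ q.E (c y), x < y ∧ T x y = decide (x ∈ q.u (c y))
      · by_cases h2 : ∀ a D D', Hom T q.N c a D → Hom T q.N c a D' →
            ¬ Incomp (lab (q.E a ∪ D)) (lab (q.E a ∪ D'))
        · have h3 : ¬ ∀ a ∈ q.S, ∀ D, Hom T q.N c a D → (lab (q.E a ∪ D)).length ≤ q.b a :=
            fun h3 => hc ⟨h1, h2, h3⟩
          push Not at h3
          obtain ⟨a, ha, D, hD, hlt⟩ := h3
          refine ⟨(q.E a ∪ D).sup id, fun c' hc' T' lab' hT hl hcl => ?_⟩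
          exfalso
          have h4 := hcl.2.2 a ha D
            (hom_local (fun x hx => hbd _ x (Finset.mem_union_right _ hx)) hT hc' hD)
          rw [lab_eq hl (hbd _)] at h4
          omega
        · push Not at h2
          obtain ⟨a, D, D', hD, hD', hI⟩ := h2
          refine ⟨(q.E a ∪ D ∪ D').sup id, fun c' hc' T' lab' hT hl hcl => ?_⟩
          exfalso
          refine hcl.2.1 a D D' (hom_local (fun x hx => ?_) hT hc' hD)
            (hom_local (fun x hx => ?_) hT hc' hD') ?_
          · exact hbd _ x (by simp [hx])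
          · exact hbd _ x (by simp [hx])
          · rw [lab_eq hl (fun x hx => hbd _ x (by
              rcases Finset.mem_union.1 hx with hx | hx <;> simp [hx])),
              lab_eq hl (fun x hx => hbd _ x (by
              rcases Finset.mem_union.1 hx with hx | hx <;> simp [hx]))]
            exact hI
      · push Not at h1
        obtain ⟨y, hy, x, hx, hne⟩ := h1
        refine ⟨max x y, fun c' hc' T' lab' hT hl hcl => ?_⟩
        exfalso
        have hcy := hc' y (le_max_right _ _)
        have h4 := hcl.1 y hy x (by rw [hcy]; exact hx)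
        rw [hcy, T_eq hT (le_max_left _ _) (le_max_right _ _)] at h4
        exact hne h4.1 h4.2
  choose s hs using key
  obtain ⟨t, ht⟩ := (isCompact_univ (X := ℕ → Fin q.K)).elim_finite_subcover
    (fun c : ℕ → Fin q.K => {c' : ℕ → Fin q.K | ∀ y ≤ s c, c' y = c y})
    (fun c => isOpen_agree c (s c)) (fun c _ => Set.mem_iUnion.2 ⟨c, fun y _ => rfl⟩)
  refine ⟨t.sup s, fun T' lab' hT hl c' hc' => ?_⟩
  obtain ⟨c, hct, hcc⟩ := Set.mem_iUnion₂.1 (ht (Set.mem_univ c'))
  have hle : s c ≤ t.sup s := Finset.le_sup hct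
  exact hs c c' hcc T' lab' (tr_mono hle hT) (trl_mono hle hl) hc'

theorem wop_local {i : Idx} {σ : List Bool} (h : σ ∈ Wop T lab i) :
    ∃ s, ∀ T' lab', tr s T = tr s T' → trl s lab = trl s lab' → σ ∈ Wop T' lab' i := by
  cases i with
  | main => exact wmain_local h
  | zero m => exact ⟨0, fun _ _ _ _ => h⟩
  | cls q => exact wcls_local h

/-- EMG-13e.  There are countably many indices (`Par` is a sigma type over `K, N : ℕ` of finite
products of countable types; e.g. an injection into a countable sigma type). -/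
theorem exists_enum : ∃ f : ℕ → Idx, Function.Surjective f := by
  have : Nonempty Idx := ⟨Idx.main⟩
  have hP : Countable Par := by
    let g : Par → Σ K : ℕ, ℕ × (Fin K → Finset ℕ) × (Fin K → Finset ℕ) × Finset (Fin K) ×
        (Fin K → ℕ) × Fin K := fun q => ⟨q.K, q.N, q.E, q.u, q.S, q.b, q.a⟩
    have hg : Function.Injective g := by
      rintro ⟨K, N, E, u, S, b, a⟩ ⟨K', N', E', u', S', b', a'⟩ h
      simp only [g, Sigma.mk.injEq] at h
      obtain ⟨rfl, h2⟩ := h
      simp only [heq_eq_eq, Prod.mk.injEq] at h2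
      obtain ⟨rfl, rfl, rfl, rfl, rfl, rfl⟩ := h2
      rfl
    exact hg.countable
  have hI : Countable Idx := by
    let g : Idx → Unit ⊕ ℕ ⊕ Par := fun i => match i with
      | .main => Sum.inl ()
      | .zero m => Sum.inr (Sum.inl m)
      | .cls q => Sum.inr (Sum.inr q)
    have hg : Function.Injective g := by
      intro i j h
      cases i <;> cases j <;> simp_all [g]
    exact hg.countable
  exact exists_surjective_nat Idx

end Pool.Agent.helper72.EMG
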