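import Pool.Agent.helper72.EMG.Rc
import Pool.Agent.helper72.EMG.Lc
import Pool.Agent.helper72.EMG.Co

/-!
# EMG-15. No single computable functional works (the version for a fixed tournament)
-/

set_option autoImplicit false

namespace Pool.Agent.helper72.EMG

/-- the real `P` is computable in `X` -/
def TuringLE (P X : ℕ → Bool) : Prop :=
  Nat.RecursiveIn (orc X) (fun n => Part.some (cond (P n) 1 0))

/-- infinite `T`-transitive sets -/
def Solution (T : ℕ → ℕ → Bool) (H : ℕ → Bool) : Prop :=
  {n | H n = true}.Infinite ∧ Trn T {n | H n = true}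

/-- the value of the functional given by the monotone function `γ` on strings at the real `H` is (total
and equal to) `G` -/
def Value (γ : List Bool → List Bool) (H G : ℕ → Bool) : Prop :=
  (∀ n, Pref (γ ((List.range n).map H)) G) ∧ ∀ k, ∃ n, k ≤ (γ ((List.range n).map H)).length

/-- the characteristic string of `E`, of length `max E + 1` -/
def chi (E : Finset ℕ) : List Bool := (List.range (E.sup Nat.succ)).map fun x => decide (x ∈ E)

private theorem Fa_lt_sup {E : Finset ℕ} {x : ℕ} (hx : x < E.sup Nat.succ) :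
    ∃ y ∈ E, x ≤ y := by
  obtain ⟨y, hy, hxy⟩ := (Finset.lt_sup_iff).1 hx
  exact ⟨y, hy, Nat.lt_succ_iff.1 hxy⟩

private theorem Fa_prefix {m n : ℕ} (hmn : m ≤ n) {f g : ℕ → Bool} (h : ∀ x < m, f x = g x) :
    (List.range m).map f <+: (List.range n).map g := by
  rw [List.prefix_iff_eq_take, List.length_map, List.length_range, ← List.map_take,
    List.take_range, min_eq_left hmn]
  apply List.map_congr_left
  intro x hx
  exact h x (List.mem_range.1 hx)

/-- EMG-15a. -/
theorem chi_mono {E E' : Finset ℕ} (h : EndExt E E') : chi E <+: chi E' := by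
  unfold chi
  refine Fa_prefix (Finset.sup_mono h.1) ?_
  intro x hx
  have h1 : x ∈ E ↔ x ∈ E' := by
    refine ⟨fun hE => h.1 hE, fun hE' => ?_⟩
    by_contra hE
    obtain ⟨y, hy, hxy⟩ := Fa_lt_sup hx
    exact absurd (h.2 x hE' hE y hy) (not_lt.2 hxy)
  simp only [h1]

/-- EMG-15b.  Labels from a functional. -/
theorem labMono_chi {γ : List Bool → List Bool} (hγ : ∀ σ τ, σ <+: τ → γ σ <+: γ τ) :
    LabMono (fun E => γ (chi E)) :=
  fun _ _ h => hγ _ _ (chi_mono h)

private theorem Fa_chi_cut (H : ℕ → Bool) (n : ℕ) :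
    chi (cut {x | H x = true} n) =
      (List.range ((cut {x | H x = true} n).sup Nat.succ)).map H := by
  unfold chi
  apply List.map_congr_left
  intro x hx
  obtain ⟨y, hy, hxy⟩ := Fa_lt_sup (List.mem_range.1 hx)
  have h1 : x ∈ cut {x | H x = true} n ↔ H x = true := by
    rw [mem_cut] at hy ⊢
    exact ⟨fun h => h.2, fun h => ⟨lt_of_le_of_lt hxy hy.1, h⟩⟩
  simp only [h1]
  cases H x <;> rfl

/-- EMG-15c.  `chi (cut H n)` is an initial segment of `H` of length `≤ n`, and it is long if `n` is large. -/
theorem chi_cut (H : ℕ → Bool) (n : ℕ) :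
    ∃ m ≤ n, chi (cut {x | H x = true} n) = (List.range m).map H := by
  refine ⟨_, ?_, Fa_chi_cut H n⟩
  rw [Finset.sup_le_iff]
  intro x hx
  rw [mem_cut] at hx
  exact hx.1

theorem chi_cut_long (H : ℕ → Bool) (hH : {x | H x = true}.Infinite) (k : ℕ) :
    ∃ n m, k ≤ m ∧ chi (cut {x | H x = true} n) = (List.range m).map H := by
  obtain ⟨x, hx, hkx⟩ := hH.exists_gt k
  refine ⟨x + 1, _, ?_, Fa_chi_cut H (x + 1)⟩
  have h1 : x ∈ cut {x | H x = true} (x + 1) := by
    rw [mem_cut]
    exact ⟨Nat.lt_succ_self x, hx⟩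
  have h2 : Nat.succ x ≤ (cut {x | H x = true} (x + 1)).sup Nat.succ := Finset.le_sup h1
  omega

/-! ### total functions recursive in an oracle -/

private theorem Fa_comp {O : Set (ℕ →. ℕ)} {f g : ℕ → ℕ}
    (hf : Nat.RecursiveIn O (fun n => Part.some (f n)))
    (hg : Nat.RecursiveIn O (fun n => Part.some (g n))) :
    Nat.RecursiveIn O (fun n => Part.some (f (g n))) :=
  (Nat.RecursiveIn.comp hf hg).of_eq fun n => by simp

private theorem Fa_pair {O : Set (ℕ →. ℕ)} {f g : ℕ → ℕ}
    (hf : Nat.RecursiveIn O (fun n => Part.some (f n)))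
    (hg : Nat.RecursiveIn O (fun n => Part.some (g n))) :
    Nat.RecursiveIn O (fun n => Part.some (Nat.pair (f n) (g n))) :=
  (Nat.RecursiveIn.pair hf hg).of_eq fun n => by simp [Seq.seq]

private theorem Fa_prim {O : Set (ℕ →. ℕ)} {f : ℕ → ℕ} (hf : Primrec f) :
    Nat.RecursiveIn O (fun n => Part.some (f n)) :=
  (Nat.Primrec.recursiveIn (Primrec.nat_iff.1 hf)).of_eq fun n => rfl

/-- EMG-15d.  A total function coding a tournament and a function on strings:
`t (2 * Nat.pair x y) = T x y` (0 or 1), `t (2 * n + 1) = encode (γ ((decode n).getD []))`. -/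
def tcode (T : ℕ → ℕ → Bool) (γ : List Bool → List Bool) : ℕ → ℕ := fun n =>
  if n % 2 = 0 then cond (T (Nat.unpair (n / 2)).1 (Nat.unpair (n / 2)).2) 1 0
  else Encodable.encode (γ ((Encodable.decode (n / 2)).getD []))

/-- EMG-15e. -/
theorem tcode_recursiveIn {X : ℕ → Bool} {T : ℕ → ℕ → Bool} {γ : List Bool → List Bool}
    (hT : ComputableIn₂ (orc X) T) (hγ : ComputableIn (orc X) γ) :
    Nat.RecursiveIn (orc X) (fun n => Part.some (tcode T γ n)) := by
  have h1 : Nat.RecursiveIn (orc X) (fun n =>
      Part.some (cond (T (Nat.unpair n).1 (Nat.unpair n).2) 1 0)) := by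
    refine Nat.RecursiveIn.of_eq hT fun n => ?_
    simp only [Encodable.decode_prod_val, Encodable.decode_nat, Option.map_some, Option.bind_some,
      Part.coe_some, Part.bind_some, Part.map_some]
    cases T (Nat.unpair n).1 (Nat.unpair n).2 <;> rfl
  have h2 : Nat.RecursiveIn (orc X) (fun n =>
      Part.some (Encodable.encode (γ ((Encodable.decode n).getD [])))) := by
    have hr : Primrec (fun n : ℕ =>
        Encodable.encode ((Encodable.decode (α := List Bool) n).getD [])) :=
      Primrec.encode.comp (Primrec.option_getD.comp Primrec.decode (Primrec.const []))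
    refine (Nat.RecursiveIn.comp hγ (Fa_prim hr)).of_eq fun n => ?_
    simp
  have hhalf : Primrec (fun n : ℕ => n / 2) :=
    Primrec.nat_div.comp Primrec.id (Primrec.const 2)
  have h3 := Fa_pair (Fa_prim (O := orc X) (f := fun n => n) Primrec.id)
    (Fa_pair (Fa_comp h1 (Fa_prim hhalf)) (Fa_comp h2 (Fa_prim hhalf)))
  have hg : Primrec (fun p : ℕ => if (Nat.unpair p).1 % 2 = 0 then
      (Nat.unpair (Nat.unpair p).2).1 else (Nat.unpair (Nat.unpair p).2).2) := by
    have hu1 : Primrec (fun p : ℕ => (Nat.unpair p).1) := Primrec.fst.comp Primrec.unpair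
    have hu2 : Primrec (fun p : ℕ => (Nat.unpair p).2) := Primrec.snd.comp Primrec.unpair
    refine Primrec.ite ?_ (hu1.comp hu2) (hu2.comp hu2)
    exact Primrec.eq.comp (Primrec.nat_mod.comp hu1 (Primrec.const 2)) (Primrec.const 0)
  refine (Fa_comp (Fa_prim hg) h3).of_eq fun n => ?_
  simp only [Nat.unpair_pair]
  rfl

/-- EMG-15f.  If two pairs have the same codes up to a sufficiently large number then the truncations are
the same.  (For given `s` take `m` larger than `2 * Nat.pair x y` for `x, y ≤ s` and larger than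
`2 * encode (chi E) + 1` for `E ⊆ range (s + 1)`; `decode (encode σ) = some σ`, `encode` is injective.) -/
theorem trunc_of_tcode (s : ℕ) : ∃ m, ∀ (T T' : ℕ → ℕ → Bool) (γ γ' : List Bool → List Bool),
    (∀ n < m, tcode T γ n = tcode T' γ' n) →
      tr s T = tr s T' ∧ trl s (fun E => γ (chi E)) = trl s (fun E => γ' (chi E)) := by
  classical
  refine ⟨max ((Finset.range (s + 1) ×ˢ Finset.range (s + 1)).sup
      fun p => 2 * Nat.pair p.1 p.2 + 1)
    ((Finset.range (s + 1)).powerset.sup fun E => 2 * Encodable.encode (chi E) + 2), ?_⟩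
  intro T T' γ γ' h
  constructor
  · funext x y
    unfold tr
    by_cases hx : x ≤ s
    · by_cases hy : y ≤ s
      · have h1 : (x, y) ∈ Finset.range (s + 1) ×ˢ Finset.range (s + 1) := by
          rw [Finset.mem_product, Finset.mem_range, Finset.mem_range]
          exact ⟨Nat.lt_succ_of_le hx, Nat.lt_succ_of_le hy⟩
        have h2 : 2 * Nat.pair x y + 1 ≤ (Finset.range (s + 1) ×ˢ Finset.range (s + 1)).sup
            fun p => 2 * Nat.pair p.1 p.2 + 1 :=
          Finset.le_sup (f := fun p : ℕ × ℕ => 2 * Nat.pair p.1 p.2 + 1) h1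
        have h3 := h (2 * Nat.pair x y) (lt_of_lt_of_le (Nat.lt_succ_self _)
          (h2.trans (le_max_left _ _)))
        have h4 : (2 * Nat.pair x y) / 2 = Nat.pair x y := by omega
        have h5 : (2 * Nat.pair x y) % 2 = 0 := by omega
        unfold tcode at h3
        rw [if_pos h5, if_pos h5, h4, Nat.unpair_pair] at h3
        have h6 : T x y = T' x y := by
          revert h3
          show cond (T x y) 1 0 = cond (T' x y) 1 0 → _
          cases T x y <;> cases T' x y <;> simp
        rw [h6]
      · simp [hy]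
    · simp [hx]
  · funext E
    unfold trl
    by_cases hE : E ⊆ Finset.range (s + 1)
    · rw [if_pos hE, if_pos hE]
      have h1 : E ∈ (Finset.range (s + 1)).powerset := Finset.mem_powerset.2 hE
      have h2 : 2 * Encodable.encode (chi E) + 2 ≤ (Finset.range (s + 1)).powerset.sup
          fun E => 2 * Encodable.encode (chi E) + 2 :=
        Finset.le_sup (f := fun E : Finset ℕ => 2 * Encodable.encode (chi E) + 2) h1
      have h3 := h (2 * Encodable.encode (chi E) + 1) (lt_of_lt_of_le (Nat.lt_succ_self _)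
        (h2.trans (le_max_right _ _)))
      have h4 : (2 * Encodable.encode (chi E) + 1) / 2 = Encodable.encode (chi E) := by omega
      have h5 : ¬ (2 * Encodable.encode (chi E) + 1) % 2 = 0 := by omega
      unfold tcode at h3
      rw [if_neg h5, if_neg h5, h4, Encodable.encodek] at h3
      exact Encodable.encode_injective h3
    · rw [if_neg hE, if_neg hE]

/-- EMG-15.  There is a real `P` such that for every `X` which computes `P`, every tournament `T` computable in
`X` and every monotone `γ` computable in `X` there is an infinite `T`-transitive `H` at which the functional `γ` is not total or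
has a value that is not 1-generic relative to `X`.
Proof.  `f : ℕ → Idx` surjective (`exists_enum`).  Let `P` be a real with: for all `k`, lists `ξ` and strings `σ`,
`P (Nat.pair k (Nat.pair (encode ξ) (encode σ))) = true` iff for all `T', γ'` such that
`ξ = (List.range ξ.length).map (tcode T' γ')`: `σ ∈ Wop T' (fun E => γ' (chi E)) (f k)`.  (Define
`P n := decide (∀ T' γ', (List.range ξ.length).map (tcode T' γ') = ξ → σ ∈ ..)` with `ξ, σ` decoded from `n`.)
Then for all `T, γ`, `k`: `Wop T (fun E => γ (chi E)) (f k) = {σ | ∃ s, P (k, [t 0, .., t (s-1)], σ) = true}` with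
`t = tcode T γ`: `⊇` clear (`T' = T`), `⊆` by `wop_local` and `trunc_of_tcode`.
Suppose the theorem fails for `X, T, γ`: all infinite transitive `H` have a value `G` which is 1-generic relative
to `X`.  Then `HypA T (fun E => γ (chi E))` holds (`chi_cut`, `chi_cut_long`; `sigma01_of_search`), in contradiction to
`core` (`labMono_chi`). -/
theorem fixed_instance : ∃ P : ℕ → Bool, ∀ X : ℕ → Bool, TuringLE P X →
    ∀ T : ℕ → ℕ → Bool, IsTour T → ComputableIn₂ (orc X) T →
    ∀ γ : List Bool → List Bool, (∀ σ τ, σ <+: τ → γ σ <+: γ τ) → ComputableIn (orc X) γ →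
    ∃ H, Solution T H ∧ ¬ ∃ G, Value γ H G ∧ OneGeneric X G := by
  classical
  obtain ⟨f, hf⟩ := exists_enum
  obtain ⟨P, hP⟩ : ∃ P : ℕ → Bool, ∀ (k : ℕ) (ξ : List ℕ) (σ : List Bool),
      P (Nat.pair k (Nat.pair (Encodable.encode ξ) (Encodable.encode σ))) = true ↔
        ∀ (T' : ℕ → ℕ → Bool) (γ' : List Bool → List Bool),
          (List.range ξ.length).map (tcode T' γ') = ξ →
            σ ∈ Wop T' (fun E => γ' (chi E)) (f k) := by
    let Φ : ℕ → List ℕ → List Bool → Prop := fun k ξ σ =>
      ∀ (T' : ℕ → ℕ → Bool) (γ' : List Bool → List Bool),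
        (List.range ξ.length).map (tcode T' γ') = ξ → σ ∈ Wop T' (fun E => γ' (chi E)) (f k)
    refine ⟨fun n => decide (Φ (Nat.unpair n).1
      ((Encodable.decode (Nat.unpair (Nat.unpair n).2).1).getD [])
      ((Encodable.decode (Nat.unpair (Nat.unpair n).2).2).getD [])), ?_⟩
    intro k ξ σ
    simp only [Nat.unpair_pair, Encodable.encodek, Option.getD_some, decide_eq_true_eq]
    exact Iff.rfl
  refine ⟨P, fun X hX T hT hTX γ hγ hγX => ?_⟩
  by_contra hcon
  push Not at hcon
  have hset : ∀ k, {σ | ∃ s, P (Nat.pair k (Nat.pair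
      (Encodable.encode ((List.range s).map (tcode T γ))) (Encodable.encode σ))) = true} =
        Wop T (fun E => γ (chi E)) (f k) := by
    intro k
    ext σ
    constructor
    · rintro ⟨s, hs⟩
      rw [hP] at hs
      exact hs T γ (by rw [List.length_map, List.length_range])
    · intro hσ
      obtain ⟨s0, hs0⟩ := wop_local hσ
      obtain ⟨m, hm⟩ := trunc_of_tcode s0
      refine ⟨m, ?_⟩
      rw [hP]
      intro T' γ' h1
      rw [List.length_map, List.length_range] at h1
      have h2 : ∀ n < m, tcode T γ n = tcode T' γ' n := by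
        intro n hn
        exact (List.map_inj_left.1 h1 n (List.mem_range.2 hn)).symm
      obtain ⟨h3, h4⟩ := hm T T' γ γ' h2
      exact hs0 T' (fun E => γ' (chi E)) h3 h4
  refine core hT (labMono_chi hγ) ?_
  intro H hH hTr
  have hHeq : {n | (fun n => decide (n ∈ H)) n = true} = H := by
    ext n
    simp
  obtain ⟨G, hG1, hG2⟩ := hcon (fun n => decide (n ∈ H)) (by
    unfold Solution
    rw [hHeq]
    exact ⟨hH, hTr⟩)
  refine ⟨G, ?_, ?_, ?_⟩
  · intro n
    obtain ⟨m, -, hm⟩ := chi_cut (fun n => decide (n ∈ H)) n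
    rw [hHeq] at hm
    show Pref (γ (chi (cut H n))) G
    rw [hm]
    exact hG1.1 m
  · intro k
    obtain ⟨n0, hn0⟩ := hG1.2 k
    obtain ⟨n, m, hnm, hm⟩ := chi_cut_long (fun n => decide (n ∈ H)) (by rw [hHeq]; exact hH) n0
    rw [hHeq] at hm
    refine ⟨n, hn0.trans ?_⟩
    show _ ≤ (γ (chi (cut H n))).length
    rw [hm]
    exact (hγ _ _ (Fa_prefix hnm fun x _ => rfl)).length_le
  · intro i
    obtain ⟨j, rfl⟩ := hf i
    refine hG2 _ ?_
    rw [← hset j]
    exact sigma01_of_search (tcode_recursiveIn hTX hγX) hX j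

end Pool.Agent.helper72.EMG
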