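import Pool.Agent.helper72.EMG.Defs

/-!
# EMG-3. Big families

author of the proofs: helper56
-/

set_option autoImplicit false

namespace Pool.Agent.helper72.EMG

theorem mem_sub {J : Finset (Finset ℕ)} {v : ℕ → Bool} {b : Bool} {D : Finset ℕ} :
    D ∈ sub J v b ↔ D ∈ J ∧ ∀ x ∈ D, v x = b := by
  simp [sub]

theorem Big.nonempty {K : ℕ} (hK : 0 < K) {J : Finset (Finset ℕ)} (h : Big K J) :
    J.Nonempty := by
  obtain ⟨D, hD, _⟩ := h (fun _ => ⟨0, hK⟩)
  exact ⟨D, hD⟩

/-- if `J` is `2K`-big then one of the halves is `K`-big.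
Proof.  If `sub J v true` fails for the colouring `c₁` and `sub J v false` for `c₀`, colour `x` by
`c₁ x` if `v x = true` and by `K + c₀ x` otherwise; a monochromatic member `D` of `J` (for an empty `D` the
claim is trivial) is contained in a half and monochromatic for the corresponding `c_b`. -/
theorem Big.split {K : ℕ} {J : Finset (Finset ℕ)} (h : Big (2 * K) J) (v : ℕ → Bool) :
    Big K (sub J v true) ∨ Big K (sub J v false) := by
  by_contra hcon
  rw [not_or] at hcon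
  obtain ⟨h1, h0⟩ := hcon
  unfold Big at h1 h0
  push Not at h1 h0
  obtain ⟨c₁, hc₁⟩ := h1
  obtain ⟨c₀, hc₀⟩ := h0
  obtain ⟨D, hD, hm⟩ := h (fun x => if v x = true then ⟨(c₁ x : ℕ), by have := (c₁ x).2; omega⟩
    else ⟨K + (c₀ x : ℕ), by have := (c₀ x).2; omega⟩)
  have key : ∀ x ∈ D, ∀ y ∈ D, v x = v y ∧ (v x = true → c₁ x = c₁ y) ∧
      (v x = false → c₀ x = c₀ y) := by
    intro x hx y hy
    have h2 := hm x hx y hy
    cases hvx : v x <;> cases hvy : v y
    · simp only [hvx, hvy] at h2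
      refine ⟨rfl, fun h3 => absurd h3 (by simp), fun _ => ?_⟩
      simp only [Bool.false_eq_true, if_false, Fin.mk.injEq] at h2
      exact Fin.ext (by omega)
    · exfalso
      simp only [hvx, hvy, Bool.false_eq_true, if_false, if_true, Fin.mk.injEq] at h2
      have := (c₁ y).2
      omega
    · exfalso
      simp only [hvx, hvy, Bool.false_eq_true, if_false, if_true, Fin.mk.injEq] at h2
      have := (c₁ x).2
      omega
    · simp only [hvx, hvy, if_true, Fin.mk.injEq] at h2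
      exact ⟨rfl, fun _ => Fin.ext h2, fun h3 => absurd h3 (by simp)⟩
  rcases D.eq_empty_or_nonempty with hE | ⟨x₀, hx₀⟩
  · have h3 : D ∈ sub J v true := mem_sub.2 ⟨hD, by simp [hE]⟩
    obtain ⟨x, hx, _⟩ := hc₁ D h3
    simp [hE] at hx
  · cases hv : v x₀
    · have h3 : D ∈ sub J v false := mem_sub.2 ⟨hD, fun x hx => by
        rw [(key x hx x₀ hx₀).1, hv]⟩
      obtain ⟨x, hx, y, hy, hne⟩ := hc₀ D h3
      exact hne ((key x hx y hy).2.2 (by rw [(key x hx x₀ hx₀).1, hv]))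
    · have h3 : D ∈ sub J v true := mem_sub.2 ⟨hD, fun x hx => by
        rw [(key x hx x₀ hx₀).1, hv]⟩
      obtain ⟨x, hx, y, hy, hne⟩ := hc₁ D h3
      exact hne ((key x hx y hy).2.1 (by rw [(key x hx x₀ hx₀).1, hv]))

/-- a 2-big family has a member on which `v` is constant -/
theorem Big.two {J : Finset (Finset ℕ)} (h : Big 2 J) (v : ℕ → Bool) :
    ∃ D ∈ J, ∃ b, ∀ x ∈ D, v x = b := by
  obtain ⟨D, hD, hm⟩ := h (fun x => if v x = true then 1 else 0)
  refine ⟨D, hD, ?_⟩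
  rcases D.eq_empty_or_nonempty with hE | ⟨x₀, hx₀⟩
  · exact ⟨true, by simp [hE]⟩
  · refine ⟨v x₀, fun x hx => ?_⟩
    have h2 := hm x hx x₀ hx₀
    cases hvx : v x <;> cases hv0 : v x₀ <;> simp_all

/-- compactness.  Proof.  The sets `{c | c is constant on D}`, `D ∈ V`, are open (even clopen) in the
compact space `ℕ → Fin K` (discrete topology on `Fin K`, product topology) and cover it;
take a finite subcover (`isCompact_univ.elim_finite_subcover`). -/
theorem exists_big (K : ℕ) (V : Set (Finset ℕ))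
    (h : ∀ c : ℕ → Fin K, ∃ D ∈ V, ∀ x ∈ D, ∀ y ∈ D, c x = c y) :
    ∃ J : Finset (Finset ℕ), (∀ D ∈ J, D ∈ V) ∧ Big K J := by
  classical
  have hopen : ∀ D : V, IsOpen {c : ℕ → Fin K | ∀ x ∈ D.1, ∀ y ∈ D.1, c x = c y} := by
    intro D
    have h1 : {c : ℕ → Fin K | ∀ x ∈ D.1, ∀ y ∈ D.1, c x = c y} =
        ⋂ x ∈ D.1, ⋂ y ∈ D.1, {c : ℕ → Fin K | c x = c y} := by
      ext c
      simp
    rw [h1]
    refine isOpen_biInter_finset fun x _ => isOpen_biInter_finset fun y _ => ?_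
    have h2 : {c : ℕ → Fin K | c x = c y} =
        (fun c : ℕ → Fin K => ((c x, c y) : Fin K × Fin K)) ⁻¹' {p | p.1 = p.2} := rfl
    rw [h2]
    exact (isOpen_discrete _).preimage ((continuous_apply x).prodMk (continuous_apply y))
  have hcov : (Set.univ : Set (ℕ → Fin K)) ⊆
      ⋃ D : V, {c : ℕ → Fin K | ∀ x ∈ D.1, ∀ y ∈ D.1, c x = c y} := by
    intro c _
    obtain ⟨D, hD, hm⟩ := h c
    exact Set.mem_iUnion.2 ⟨⟨D, hD⟩, hm⟩
  obtain ⟨t, ht⟩ := isCompact_univ.elim_finite_subcover _ hopen hcov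
  refine ⟨t.image Subtype.val, ?_, ?_⟩
  · intro D hD
    obtain ⟨D', _, rfl⟩ := Finset.mem_image.1 hD
    exact D'.2
  · intro c
    have h1 := ht (Set.mem_univ c)
    simp only [Set.mem_iUnion] at h1
    obtain ⟨D, hDt, hm⟩ := h1
    exact ⟨D.1, Finset.mem_image.2 ⟨D, hDt, rfl⟩, hm⟩

end Pool.Agent.helper72.EMG
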