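import Mathlib

/-!
# EMG-0. Definitions (MP_7873ca_lc: the Erdős–Moser principle and 1-genericity)

GOAL.  `GEN_1` (for every `X` there is a real 1-generic relative to `X`) is not Weihrauch reducible
to `EM` (every tournament on `ℕ` has an infinite transitive set), not even by continuous
functionals; and for all `X` above a fixed real no single `X`-computable functional maps all
solutions of one `X`-computable tournament to reals that are 1-generic relative to `X`.

CORE.  `T` a tournament, `lab : Finset ℕ → List Bool` a labelling of finite sets, monotone for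
end-extensions (the output of the functional on a finite initial segment of the solution).
Hypothesis (A) (`HypA`): on every infinite `T`-transitive set `H` the labels of the initial
segments converge to a real which meets or avoids each member of a fixed countable family
`𝒲 k T lab` of open operators.  We show that this is impossible.

All strings are `List Bool`, reals are functions `ℕ → Bool`.
-/

set_option autoImplicit false

namespace Pool.Agent.helper72.EMG

/-! ## strings -/

/-- incompatible strings -/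
def Incomp (σ τ : List Bool) : Prop := ¬ σ <+: τ ∧ ¬ τ <+: σ

/-- `σ` is an initial segment of the real `g` -/
def Pref (σ : List Bool) (g : ℕ → Bool) : Prop := (List.range σ.length).map g = σ

/-- the real `g` meets the set `S` of strings -/
def Meets (g : ℕ → Bool) (S : Set (List Bool)) : Prop := ∃ n, (List.range n).map g ∈ S

/-- the real `g` avoids the set `S` of strings -/
def Avoids (g : ℕ → Bool) (S : Set (List Bool)) : Prop :=
  ∃ n, ∀ τ, (List.range n).map g <+: τ → τ ∉ S

/-! ## tournaments, transitive sets, worlds -/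

/-- `T` is (the characteristic function of) a tournament on `ℕ` -/
def IsTour (T : ℕ → ℕ → Bool) : Prop :=
  (∀ x, T x x = false) ∧ ∀ x y, x ≠ y → T x y = !(T y x)

/-- `S` is a `T`-transitive set -/
def Trn (T : ℕ → ℕ → Bool) (S : Set ℕ) : Prop :=
  ∀ x ∈ S, ∀ y ∈ S, ∀ z ∈ S, T x y = true → T y z = true → T x z = true

/-- the world `v` is monotone on `S`: elements with `v = true` come before those with `v = false` -/
def MonoOn (T : ℕ → ℕ → Bool) (v : ℕ → Bool) (S : Set ℕ) : Prop :=
  ∀ x ∈ S, ∀ y ∈ S, v x = true → v y = false → T x y = true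

/-- a finite set is alive in the world `v` -/
def Alive (T : ℕ → ℕ → Bool) (v : ℕ → Bool) (E : Finset ℕ) : Prop :=
  Trn T (E : Set ℕ) ∧ MonoOn T v (E : Set ℕ)

/-- `E'` is an end-extension of `E` -/
def EndExt (E E' : Finset ℕ) : Prop := E ⊆ E' ∧ ∀ x ∈ E', x ∉ E → ∀ y ∈ E, y < x

/-- `lab` is monotone for end-extensions -/
def LabMono (lab : Finset ℕ → List Bool) : Prop := ∀ E E', EndExt E E' → lab E <+: lab E'

/-- `H ∩ [0,n)` as a finite set -/
noncomputable def cut (H : Set ℕ) (n : ℕ) : Finset ℕ :=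
  haveI := Classical.decPred (· ∈ H)
  (Finset.range n).filter (· ∈ H)

/-! ## big families, structures above a cohort -/

/-- every colouring with `K` colours has a monochromatic member of `J` -/
def Big (K : ℕ) (J : Finset (Finset ℕ)) : Prop :=
  ∀ c : ℕ → Fin K, ∃ D ∈ J, ∀ x ∈ D, ∀ y ∈ D, c x = c y

/-- the members of `J` on which the world `v` is constantly `b` -/
def sub (J : Finset (Finset ℕ)) (v : ℕ → Bool) (b : Bool) : Finset (Finset ℕ) :=
  J.filter fun D => ∀ x ∈ D, v x = b

/-- the union of a cohort -/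
def supp (C : Finset (Finset ℕ)) : Finset ℕ := C.sup id

/-- the world `v` on the finite set `F`, coded by a finite set -/
def code (F : Finset ℕ) (v : ℕ → Bool) : Finset ℕ := F.filter fun x => v x = true

/-- the number of the `i`-th block (`i < 11`) reserved for the world `z` -/
def pos (z : Finset ℕ) (i : ℕ) : ℕ := 11 * Encodable.encode z + i + 1

/-- all blocks reserved for worlds on `F` have numbers `≤ bnd F` -/
def bnd (F : Finset ℕ) : ℕ := F.powerset.sup fun z => pos z 10

/-- `B 0, B 1, .., B M` are the blocks of a structure above the cohort `C`, created in the world `u` -/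
structure IsStr (T : ℕ → ℕ → Bool) (lab : Finset ℕ → List Bool) (C : Finset (Finset ℕ))
    (u : ℕ → Bool) (M : ℕ) (B : ℕ → Finset (Finset ℕ)) : Prop where
  trn : ∀ p ≤ M, ∀ D ∈ B p, Trn T (D : Set ℕ)
  ne : ∀ p ≤ M, ∀ D ∈ B p, D.Nonempty
  sees : ∀ p ≤ M, ∀ D ∈ B p, ∀ y ∈ D, ∀ E ∈ C, ∀ x ∈ E, x < y ∧ T x y = u x
  lt : ∀ p q, p < q → q ≤ M → ∀ D ∈ B p, ∀ D' ∈ B q, ∀ x ∈ D, ∀ y ∈ D', x < y
  pair : ∀ p q, p < q → q ≤ M → ∀ D ∈ B p, ∀ D' ∈ B q, Trn T ((D ∪ D' : Finset ℕ) : Set ℕ)
  big : ∀ p ≤ M, Big 8 (B p)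
  lab1 : ∀ p q, p < q → q ≤ M → ∀ E ∈ C, ∀ E' ∈ C, ∀ D ∈ B p, ∀ D' ∈ B q,
    Incomp (lab (E ∪ D)) (lab (E' ∪ D'))
  lab2 : ∀ p q q', p < q → q < q' → q' ≤ M → ∀ E ∈ C, ∀ E' ∈ C, ∀ D ∈ B p, ∀ D' ∈ B p,
    ∀ G ∈ B q, ∀ G' ∈ B q', Incomp (lab (E ∪ D ∪ G)) (lab (E' ∪ D' ∪ G'))

/-! ## the two rounds -/

/-- 6 of the 11 signs agree -/
theorem exists_pick (σ : ℕ → Bool) : ∃ (b : Bool) (e : ℕ → ℕ),
    (∀ i j, i < j → j < 6 → e i < e j) ∧ ∀ i < 6, e i < 11 ∧ σ (e i) = b := by
  have h : ∃ b : Bool, 6 ≤ ((Finset.range 11).filter fun i => σ i = b).card := by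
    by_contra hc
    push Not at hc
    have h1 := hc true
    have h2 := hc false
    have h3 : (Finset.range 11).card = ((Finset.range 11).filter fun i => σ i = true).card +
        ((Finset.range 11).filter fun i => σ i = false).card := by
      rw [← Finset.card_filter_add_card_filter_not (s := Finset.range 11) (fun i => σ i = true)]
      congr 2
      ext i
      simp
    simp only [Finset.card_range] at h3
    omega
  obtain ⟨b, hb⟩ := h
  obtain ⟨S, hS, hc⟩ := Finset.exists_subset_card_eq hb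
  refine ⟨b, fun i => if h : i < 6 then S.orderEmbOfFin hc ⟨i, h⟩ else 0, ?_, ?_⟩
  · intro i j hij hj
    simp only [hj, lt_trans hij hj, dif_pos]
    exact (S.orderEmbOfFin hc).strictMono (by simpa using hij)
  · intro i hi
    simp only [hi, dif_pos]
    have := hS (Finset.orderEmbOfFin_mem S hc ⟨i, hi⟩)
    simpa using this

/-- the majority sign -/
noncomputable def pickb (σ : ℕ → Bool) : Bool := (exists_pick σ).choose

/-- six blocks with the majority sign, in increasing order -/
noncomputable def picke (σ : ℕ → Bool) : ℕ → ℕ := (exists_pick σ).choose_spec.choose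

theorem picke_lt (σ : ℕ → Bool) : ∀ i j, i < j → j < 6 → picke σ i < picke σ j :=
  (exists_pick σ).choose_spec.choose_spec.1

theorem picke_spec (σ : ℕ → Bool) : ∀ i < 6, picke σ i < 11 ∧ σ (picke σ i) = pickb σ :=
  (exists_pick σ).choose_spec.choose_spec.2

/-- the signs of the eleven blocks reserved for the world `v` on `supp C` in the world `v` -/
noncomputable def sgn (C : Finset (Finset ℕ)) (B : ℕ → Finset (Finset ℕ)) (v : ℕ → Bool) :
    ℕ → Bool := fun i =>
  haveI := Classical.propDecidable (Big 4 (sub (B (pos (code (supp C) v) i)) v true))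
  decide (Big 4 (sub (B (pos (code (supp C) v) i)) v true))

/-- the number of the `l`-th chosen block (`l < 6`) -/
noncomputable def blk (C : Finset (Finset ℕ)) (B : ℕ → Finset (Finset ℕ)) (v : ℕ → Bool)
    (l : ℕ) : ℕ := pos (code (supp C) v) (picke (sgn C B v) l)

/-- the common sign of the chosen blocks -/
noncomputable def bit (C : Finset (Finset ℕ)) (B : ℕ → Finset (Finset ℕ)) (v : ℕ → Bool) : Bool :=
  pickb (sgn C B v)

/-- the representatives of the `l`-th chosen block used in round 1 -/
noncomputable def K1 (C : Finset (Finset ℕ)) (B : ℕ → Finset (Finset ℕ)) (v : ℕ → Bool)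
    (l : ℕ) : Finset (Finset ℕ) := sub (B (blk C B v l)) v (bit C B v)

/-- the representatives used in round 2 -/
noncomputable def K2 (C : Finset (Finset ℕ)) (B : ℕ → Finset (Finset ℕ)) (v v' : ℕ → Bool)
    (l : ℕ) : Finset (Finset ℕ) := sub (K1 C B v l) v' (!(bit C B v))

/-- pairs inside the two groups `{0,1,2}`, `{3,4,5}` -/
def inner : Finset (ℕ × ℕ) := {(0, 1), (0, 2), (1, 2), (3, 4), (3, 5), (4, 5)}

/-- pairs between the two groups -/
def cross : Finset (ℕ × ℕ) :=
  {(0, 3), (0, 4), (0, 5), (1, 3), (1, 4), (1, 5), (2, 3), (2, 4), (2, 5)}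

/-- all nodes `E ∪ D ∪ D'`, `E ∈ C`, `D ∈ K l`, `D' ∈ K m`, `(l,m) ∈ P` -/
def mk (C : Finset (Finset ℕ)) (P : Finset (ℕ × ℕ)) (K : ℕ → Finset (Finset ℕ)) :
    Finset (Finset ℕ) :=
  (C ×ˢ P).biUnion fun a => (K a.2.1 ×ˢ K a.2.2).image fun d => a.1 ∪ d.1 ∪ d.2

theorem mem_mk {C : Finset (Finset ℕ)} {P : Finset (ℕ × ℕ)} {K : ℕ → Finset (Finset ℕ)}
    {E' : Finset ℕ} : E' ∈ mk C P K ↔
      ∃ E ∈ C, ∃ l m, (l, m) ∈ P ∧ ∃ D ∈ K l, ∃ D' ∈ K m, E' = E ∪ D ∪ D' := by
  simp only [mk, Finset.mem_biUnion, Finset.mem_product, Finset.mem_image, Prod.exists]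
  constructor
  · rintro ⟨E, l, m, ⟨hE, hP⟩, D, D', ⟨hD, hD'⟩, rfl⟩
    exact ⟨E, hE, l, m, hP, D, hD, D', hD', rfl⟩
  · rintro ⟨E, hE, l, m, hP, D, hD, D', hD', rfl⟩
    exact ⟨E, l, m, ⟨hE, hP⟩, D, D', ⟨hD, hD'⟩, rfl⟩

/-- the members of the cohort `C` that are on pattern `u` in the world `v` -/
def onp (C : Finset (Finset ℕ)) (u v : ℕ → Bool) : Finset (Finset ℕ) :=
  C.filter fun E => ∀ x ∈ E, v x = u x

/-- round 1, played in the world `v` -/
noncomputable def child1 (C : Finset (Finset ℕ)) (u : ℕ → Bool) (B : ℕ → Finset (Finset ℕ))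
    (v : ℕ → Bool) : Finset (Finset ℕ) := mk (onp C u v) inner (K1 C B v)

/-- round 2, played in the world `v'`, round 1 having been played in the world `v` -/
noncomputable def child2 (C : Finset (Finset ℕ)) (u : ℕ → Bool) (B : ℕ → Finset (Finset ℕ))
    (v v' : ℕ → Bool) : Finset (Finset ℕ) := mk (onp C u v) cross (K2 C B v v')

/-! ## the strategy -/

/-- truncation of a tournament to `[0,s]` -/
def tr (s : ℕ) (T : ℕ → ℕ → Bool) : ℕ → ℕ → Bool := fun x y =>
  decide (x ≤ s) && decide (y ≤ s) && T x y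

/-- truncation of a labelling to subsets of `[0,s]` -/
def trl (s : ℕ) (lab : Finset ℕ → List Bool) : Finset ℕ → List Bool := fun E =>
  if E ⊆ Finset.range (s + 1) then lab E else []

/-- the world seen by the number `s` -/
def wld (T : ℕ → ℕ → Bool) (s : ℕ) : ℕ → Bool := fun x => tr s T x s

/-- a closed cohort: `s` = the stage of closing, `C` = the cohort, `u` = the world of closing,
`B` = the structure above it -/
structure Dat where
  s : ℕ
  C : Finset (Finset ℕ)
  u : ℕ → Bool
  B : ℕ → Finset (Finset ℕ)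

/-- `B` is a structure above `C`, found below `s` -/
def Fnd (T : ℕ → ℕ → Bool) (lab : Finset ℕ → List Bool) (s : ℕ) (C : Finset (Finset ℕ))
    (u : ℕ → Bool) (B : ℕ → Finset (Finset ℕ)) : Prop :=
  IsStr T lab C u (bnd (supp C)) B ∧ (∀ p, bnd (supp C) < p → B p = ∅) ∧
    ∀ p, ∀ D ∈ B p, ∀ x ∈ D, x < s

/-- the condition tested at stage `s`; `Q` = which cohort is to be closed at stage `s` -/
def Tst (Q : (ℕ → ℕ → Bool) → ℕ → Option (Finset (Finset ℕ))) (s0 : ℕ)
    (T : ℕ → ℕ → Bool) (lab : Finset ℕ → List Bool) (s : ℕ) : Prop :=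
  s0 < s ∧ ∃ C, Q T s = some C ∧ ∃ B, Fnd T lab s C (wld T s) B

open Classical in
/-- the first stage `s > s0` at which the cohort `Q _ s` can be closed -/
noncomputable def search (Q : (ℕ → ℕ → Bool) → ℕ → Option (Finset (Finset ℕ))) (s0 : ℕ)
    (T : ℕ → ℕ → Bool) (lab : Finset ℕ → List Bool) : Option Dat :=
  if h : ∃ s, Tst Q s0 (tr s T) (trl s lab) s then
    some
      { s := Nat.find h
        C := (Nat.find_spec h).2.choose
        u := wld (tr (Nat.find h) T) (Nat.find h)
        B := (Nat.find_spec h).2.choose_spec.2.choose }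
  else none

/-- the root cohort `{∅}` -/
noncomputable def root (T : ℕ → ℕ → Bool) (lab : Finset ℕ → List Bool) : Option Dat :=
  search (fun _ _ => some {∅}) 0 T lab

open Classical in
/-- the first child for the world coded by `z` -/
noncomputable def kid1 (T : ℕ → ℕ → Bool) (lab : Finset ℕ → List Bool) (d : Dat)
    (z : Finset ℕ) : Option Dat :=
  search (fun T' s => if code (supp d.C) (wld T' s) = z then some (child1 d.C d.u d.B (wld T' s))
    else none) d.s T lab

open Classical in
/-- the second child for the world coded by `z`; `d1` = the first child -/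
noncomputable def kid2 (T : ℕ → ℕ → Bool) (lab : Finset ℕ → List Bool) (d d1 : Dat)
    (z : Finset ℕ) : Option Dat :=
  search (fun T' s => if code (supp d.C) (wld T' s) = z ∧
    ¬ (∃ E ∈ d1.C, ∀ x ∈ E, wld T' s x = d1.u x) then
      some (child2 d.C d.u d.B d1.u (wld T' s)) else none) d1.s T lab

/-- the closed cohort with address `α` (the last step of the address is the head of the list) -/
noncomputable def entry (T : ℕ → ℕ → Bool) (lab : Finset ℕ → List Bool) :
    List (Finset ℕ × Bool) → Option Dat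
  | [] => root T lab
  | (z, false) :: α => (entry T lab α).bind fun d => kid1 T lab d z
  | (z, true) :: α => (entry T lab α).bind fun d => (kid1 T lab d z).bind fun d1 =>
      kid2 T lab d d1 z

/-- the strings enumerated by the strategy -/
def WMain (T : ℕ → ℕ → Bool) (lab : Finset ℕ → List Bool) : Set (List Bool) :=
  {τ | ∃ α d, entry T lab α = some d ∧ ∃ E ∈ d.C, ∃ D ∈ d.B 0, τ = lab (E ∪ D)}

/-! ## the auxiliary operators -/

/-- strings with a `true` at some place `≥ m` -/
def WZero (m : ℕ) : Set (List Bool) := {τ | ∃ n, m ≤ n ∧ τ[n]? = some true}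

/-- parameters of a failing colouring: `K` colours, nodes `E a` with worlds `u a`, a bound `N`, a set
`S` of colours with bounds `b a` on the length of the labels, a colour `a` -/
structure Par where
  K : ℕ
  N : ℕ
  E : Fin K → Finset ℕ
  u : Fin K → Finset ℕ
  S : Finset (Fin K)
  b : Fin K → ℕ
  a : Fin K

/-- `D` is a finite transitive set, with elements `≥ N`, of colour `a` -/
def Hom (T : ℕ → ℕ → Bool) {K : ℕ} (N : ℕ) (c : ℕ → Fin K) (a : Fin K) (D : Finset ℕ) : Prop :=
  Trn T (D : Set ℕ) ∧ ∀ y ∈ D, N ≤ y ∧ c y = a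

/-- the closed class of colourings `c` such that, for every colour `a`, the elements `y ≥ N` of
colour `a` see the world `u a` on `E a`, the labels above `E a` in colour `a` do not split, and they
have length `≤ b a` if `a ∈ S` -/
def Cls (T : ℕ → ℕ → Bool) (lab : Finset ℕ → List Bool) (q : Par) : Set (ℕ → Fin q.K) :=
  {c | (∀ y, q.N ≤ y → ∀ x ∈ q.E (c y), x < y ∧ T x y = decide (x ∈ q.u (c y))) ∧
    (∀ a D D', Hom T q.N c a D → Hom T q.N c a D' →
      ¬ Incomp (lab (q.E a ∪ D)) (lab (q.E a ∪ D'))) ∧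
    ∀ a ∈ q.S, ∀ D, Hom T q.N c a D → (lab (q.E a ∪ D)).length ≤ q.b a}

/-- the strings incompatible with all label reals of colour `q.a` -/
def WCls (T : ℕ → ℕ → Bool) (lab : Finset ℕ → List Bool) (q : Par) : Set (List Bool) :=
  {σ | ∀ c ∈ Cls T lab q, ∃ D, Hom T q.N c q.a D ∧ Incomp (lab (q.E q.a ∪ D)) σ}

/-- the indices of the countable family of operators -/
inductive Idx where
  | main : Idx
  | zero (m : ℕ) : Idx
  | cls (q : Par) : Idx

/-- the countable family of open operators -/
def Wop (T : ℕ → ℕ → Bool) (lab : Finset ℕ → List Bool) : Idx → Set (List Bool)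
  | .main => WMain T lab
  | .zero m => WZero m
  | .cls q => WCls T lab q

/-- hypothesis (A) -/
def HypA (T : ℕ → ℕ → Bool) (lab : Finset ℕ → List Bool) : Prop :=
  ∀ H : Set ℕ, H.Infinite → Trn T H → ∃ g : ℕ → Bool, (∀ n, Pref (lab (cut H n)) g) ∧
    (∀ k, ∃ n, k ≤ (lab (cut H n)).length) ∧
    ∀ i : Idx, Meets g (Wop T lab i) ∨ Avoids g (Wop T lab i)

end Pool.Agent.helper72.EMG
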