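import Pool.Agent.helper72.EMG.Fa

/-!
# EMG-16. No continuous Weihrauch reduction
-/

set_option autoImplicit false

namespace Pool.Agent.helper72.EMG

variable (Φ : (ℕ → Bool) → ℕ → ℕ → Bool) (Ψ : (ℕ → Bool) → (ℕ → Bool) → ℕ → Bool)

/-- pairs (instance, solution) -/
def Sol : Set ((ℕ → Bool) × (ℕ → Bool)) := {p | Solution (Φ p.1) p.2}

/-- the pairs in `Sol` which agree with `(X, E)` below `m` -/
def Cell (X : ℕ → Bool) (E : Finset ℕ) (m : ℕ) : Set ((ℕ → Bool) × (ℕ → Bool)) :=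
  {p | p ∈ Sol Φ ∧ ∀ x < m, p.1 x = X x ∧ p.2 x = decide (x ∈ E)}

/-- `ρ` is a valid output on the finite set `E` -/
def Valid (X : ℕ → Bool) (E : Finset ℕ) (ρ : List Bool) : Prop :=
  ρ.length ≤ E.sup Nat.succ ∧ ∃ m ≤ E.sup Nat.succ, (Cell Φ X E m).Nonempty ∧
    ∀ p ∈ Cell Φ X E m, Pref ρ (Ψ p.1 p.2)

private theorem cell_anti {X : ℕ → Bool} {E : Finset ℕ} {m m' : ℕ} (h : m ≤ m') :
    Cell Φ X E m' ⊆ Cell Φ X E m :=
  fun _ hp => ⟨hp.1, fun x hx => hp.2 x (lt_of_lt_of_le hx h)⟩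

/-- EMG-16a.  Valid outputs are pairwise comparable: if `ρ, ρ'` are valid with `m ≤ m'` then
`Cell m' ⊆ Cell m` is nonempty, and both are initial segments of `Ψ p.1 p.2`, `p ∈ Cell m'`. -/
theorem valid_comparable {X : ℕ → Bool} {E : Finset ℕ} {ρ ρ' : List Bool}
    (h : Valid Φ Ψ X E ρ) (h' : Valid Φ Ψ X E ρ') : ρ <+: ρ' ∨ ρ' <+: ρ := by
  obtain ⟨h1, m, hm, hn, hp⟩ := h
  obtain ⟨h1', m', hm', hn', hp'⟩ := h'
  obtain ⟨p, q1, q2⟩ : ∃ p, p ∈ Cell Φ X E m ∧ p ∈ Cell Φ X E m' := by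
    rcases le_total m m' with hmm | hmm
    · obtain ⟨p, hp⟩ := hn'
      exact ⟨p, cell_anti Φ hmm hp, hp⟩
    · obtain ⟨p, hp⟩ := hn
      exact ⟨p, hp, cell_anti Φ hmm hp⟩
  rcases le_total ρ.length ρ'.length with hl | hl
  · exact Or.inl (prefix_of_pref (hp p q1) (hp' p q2) hl)
  · exact Or.inr (prefix_of_pref (hp' p q2) (hp p q1) hl)

/-- EMG-16b.  There is a longest valid output, if `Sol` is nonempty (`ρ = []`, `m = 0` is valid; the length is
bounded by `E.sup Nat.succ`). -/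
theorem exists_longest (hne : (Sol Φ).Nonempty) (X : ℕ → Bool) (E : Finset ℕ) :
    ∃ ρ, Valid Φ Ψ X E ρ ∧ ∀ ρ', Valid Φ Ψ X E ρ' → ρ' <+: ρ := by
  classical
  have h0 : Valid Φ Ψ X E [] := by
    obtain ⟨p, hp⟩ := hne
    exact ⟨Nat.zero_le _, 0, Nat.zero_le _, ⟨p, hp, fun x hx => absurd hx (Nat.not_lt_zero x)⟩,
      fun p _ => pref_nil _⟩
  set P : ℕ → Prop := fun n => ∃ ρ, Valid Φ Ψ X E ρ ∧ ρ.length = n with hP
  have hP0 : P 0 := ⟨[], h0, rfl⟩
  obtain ⟨ρ, hρ, hlen⟩ : P (Nat.findGreatest P (E.sup Nat.succ)) :=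
    Nat.findGreatest_spec (Nat.zero_le _) hP0
  refine ⟨ρ, hρ, fun ρ' hρ' => ?_⟩
  have hle : ρ'.length ≤ ρ.length := by
    rw [hlen]
    exact Nat.le_findGreatest hρ'.1 ⟨ρ', hρ', rfl⟩
  rcases valid_comparable Φ Ψ hρ hρ' with h | h
  · rw [h.eq_of_length_le hle]
  · exact h

open Classical in
/-- the labels: the longest valid output -/
noncomputable def labX (X : ℕ → Bool) : Finset ℕ → List Bool := fun E =>
  if h : ∃ ρ, Valid Φ Ψ X E ρ ∧ ∀ ρ', Valid Φ Ψ X E ρ' → ρ' <+: ρ then h.choose else []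

private theorem labX_spec (hne : (Sol Φ).Nonempty) (X : ℕ → Bool) (E : Finset ℕ) :
    Valid Φ Ψ X E (labX Φ Ψ X E) ∧ ∀ ρ', Valid Φ Ψ X E ρ' → ρ' <+: labX Φ Ψ X E := by
  have h := exists_longest Φ Ψ hne X E
  unfold labX
  rw [dif_pos h]
  exact h.choose_spec

private theorem sup_cut_le (H : Set ℕ) (n : ℕ) : (cut H n).sup Nat.succ ≤ n := by
  apply Finset.sup_le
  intro x hx
  exact (mem_cut.mp hx).1

private theorem mem_cell_of_agree {X H : ℕ → Bool} (h : Solution (Φ X) H) {n m : ℕ}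
    (hm : m ≤ (cut {x | H x = true} n).sup Nat.succ) :
    (X, H) ∈ Cell Φ X (cut {x | H x = true} n) m := by
  refine ⟨h, fun x hx => ⟨rfl, ?_⟩⟩
  have hxn : x < n := lt_of_lt_of_le hx (hm.trans (sup_cut_le _ _))
  show H x = decide (x ∈ cut {x | H x = true} n)
  cases hH : H x with
  | true =>
    symm
    rw [decide_eq_true_iff]
    exact mem_cut.mpr ⟨hxn, hH⟩
  | false =>
    symm
    rw [decide_eq_false_iff_not]
    intro hx'
    have h2 : H x = true := (mem_cut.mp hx').2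
    rw [hH] at h2
    exact Bool.false_ne_true h2

private theorem nhds_real {X : ℕ → Bool} {S : Set (ℕ → Bool)} (hS : S ∈ nhds X) :
    ∃ m, ∀ X' : ℕ → Bool, (∀ x < m, X' x = X x) → X' ∈ S := by
  have hb := PiNat.isTopologicalBasis_cylinders (fun _ : ℕ => Bool)
  obtain ⟨t, ⟨x, n, rfl⟩, hX, ht⟩ := hb.mem_nhds_iff.mp hS
  refine ⟨n, fun X' h' => ht ?_⟩
  rw [PiNat.mem_cylinder_iff] at hX ⊢
  intro i hi
  rw [h' i hi, hX i hi]

private theorem nhds_pair {X H : ℕ → Bool} {S : Set ((ℕ → Bool) × (ℕ → Bool))}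
    (hS : S ∈ nhds (X, H)) :
    ∃ m, ∀ p : (ℕ → Bool) × (ℕ → Bool), (∀ x < m, p.1 x = X x ∧ p.2 x = H x) → p ∈ S := by
  rw [nhds_prod_eq, Filter.mem_prod_iff] at hS
  obtain ⟨t1, h1, t2, h2, h12⟩ := hS
  obtain ⟨m1, hm1⟩ := nhds_real h1
  obtain ⟨m2, hm2⟩ := nhds_real h2
  refine ⟨max m1 m2, fun p hp => h12 ⟨hm1 _ fun x hx => (hp x (lt_of_lt_of_le hx
    (le_max_left _ _))).1, hm2 _ fun x hx => (hp x (lt_of_lt_of_le hx (le_max_right _ _))).2⟩⟩

/-- EMG-16c.  (A valid output for `E` is valid for every end-extension `E'`: `Cell X E m = Cell X E' m` for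
`m ≤ E.sup Nat.succ`.) -/
theorem labMono_labX (hne : (Sol Φ).Nonempty) (X : ℕ → Bool) : LabMono (labX Φ Ψ X) := by
  intro E E' hE
  have hsup : E.sup Nat.succ ≤ E'.sup Nat.succ := Finset.sup_mono hE.1
  obtain ⟨⟨h1, m, hm, hn, hp⟩, -⟩ := labX_spec Φ Ψ hne X E
  have hcell : Cell Φ X E m = Cell Φ X E' m := by
    have key : ∀ x < m, decide (x ∈ E) = decide (x ∈ E') := by
      intro x hx
      rw [decide_eq_decide]
      refine ⟨fun h => hE.1 h, fun h => ?_⟩
      by_contra hxE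
      have h3 : E.sup Nat.succ ≤ x := Finset.sup_le fun y hy => hE.2 x h hxE y hy
      omega
    ext p
    constructor
    · rintro ⟨q1, q2⟩
      exact ⟨q1, fun x hx => ⟨(q2 x hx).1, by rw [← key x hx]; exact (q2 x hx).2⟩⟩
    · rintro ⟨q1, q2⟩
      exact ⟨q1, fun x hx => ⟨(q2 x hx).1, by rw [key x hx]; exact (q2 x hx).2⟩⟩
  refine (labX_spec Φ Ψ hne X E').2 _ ⟨h1.trans hsup, m, hm.trans hsup, ?_, ?_⟩
  · rw [← hcell]
    exact hn
  · rw [← hcell]
    exact hp

/-- EMG-16d.  Along a solution the labels are initial segments of the value (`(X, H)` is in every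
`Cell X (cut H n) m`, `m ≤ (cut H n).sup Nat.succ ≤ n`). -/
theorem pref_labX (hne : (Sol Φ).Nonempty) {X H : ℕ → Bool} (h : Solution (Φ X) H) (n : ℕ) :
    Pref (labX Φ Ψ X (cut {x | H x = true} n)) (Ψ X H) := by
  obtain ⟨⟨h1, m, hm, hn, hp⟩, -⟩ := labX_spec Φ Ψ hne X (cut {x | H x = true} n)
  exact hp (X, H) (mem_cell_of_agree Φ h hm)

/-- EMG-16e.  ... of unbounded length, by continuity of `Ψ` on `Sol`: for given `k` there is `m` such that all `p ∈ Sol`
which agree with `(X, H)` below `m` have `Ψ p.1 p.2` equal to `Ψ X H` below `k`; take `n` with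
`(cut H n).sup Nat.succ ≥ max m k`. -/
theorem long_labX (hne : (Sol Φ).Nonempty)
    (hΨ : ContinuousOn (fun p : (ℕ → Bool) × (ℕ → Bool) => Ψ p.1 p.2) (Sol Φ))
    {X H : ℕ → Bool} (h : Solution (Φ X) H) (k : ℕ) :
    ∃ n, k ≤ (labX Φ Ψ X (cut {x | H x = true} n)).length := by
  obtain ⟨m, hm⟩ : ∃ m, ∀ p : (ℕ → Bool) × (ℕ → Bool), p ∈ Sol Φ →
      (∀ x < m, p.1 x = X x ∧ p.2 x = H x) → ∀ i < k, Ψ p.1 p.2 i = Ψ X H i := by
    have hc : Filter.Tendsto (fun p : (ℕ → Bool) × (ℕ → Bool) => Ψ p.1 p.2)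
        (nhdsWithin (X, H) (Sol Φ)) (nhds (Ψ X H)) := hΨ (X, H) h
    have hev : ∀ᶠ p in nhdsWithin (X, H) (Sol Φ), ∀ i ∈ Finset.range k,
        Ψ p.1 p.2 i = Ψ X H i := by
      rw [Filter.eventually_all_finset]
      intro i _
      have h1 := ((continuous_apply i).tendsto (Ψ X H)).comp hc
      rw [nhds_discrete Bool, Filter.tendsto_pure] at h1
      exact h1
    rw [eventually_nhdsWithin_iff] at hev
    obtain ⟨m, hm⟩ := nhds_pair hev
    exact ⟨m, fun p hp hag i hi => hm p hag hp i (Finset.mem_range.mpr hi)⟩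
  obtain ⟨x, hx, hxm⟩ := h.1.exists_gt (m + k)
  have hxc : x ∈ cut {x | H x = true} (x + 1) := mem_cut.mpr ⟨Nat.lt_succ_self x, hx⟩
  have hsup : x + 1 ≤ (cut {x | H x = true} (x + 1)).sup Nat.succ :=
    Finset.le_sup (f := Nat.succ) hxc
  refine ⟨x + 1, ?_⟩
  have hval : Valid Φ Ψ X (cut {x | H x = true} (x + 1)) ((List.range k).map (Ψ X H)) := by
    refine ⟨by rw [List.length_map, List.length_range]; omega, m, by omega,
      ⟨_, mem_cell_of_agree Φ h (by omega)⟩, fun p hp => ?_⟩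
    have hmm := mem_cell_of_agree Φ h (n := x + 1) (m := m) (by omega)
    have hag : ∀ y < m, p.1 y = X y ∧ p.2 y = H y := fun y hy =>
      ⟨(hp.2 y hy).1, (hp.2 y hy).2.trans (hmm.2 y hy).2.symm⟩
    have heq := hm p hp.1 hag
    unfold Pref
    rw [List.length_map, List.length_range]
    exact List.map_congr_left fun i hi => heq i (List.mem_range.mp hi)
  have hpre := ((labX_spec Φ Ψ hne X _).2 _ hval).length_le
  rwa [List.length_map, List.length_range] at hpre

private theorem valid_of_agree {X X' : ℕ → Bool} {E : Finset ℕ}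
    (h : ∀ x < E.sup Nat.succ, X' x = X x) {ρ : List Bool} (hv : Valid Φ Ψ X E ρ) :
    Valid Φ Ψ X' E ρ := by
  obtain ⟨h1, m, hm, hn, hp⟩ := hv
  have hcell : Cell Φ X' E m = Cell Φ X E m := by
    ext p
    constructor
    · rintro ⟨q1, q2⟩
      exact ⟨q1, fun x hx => ⟨by rw [← h x (lt_of_lt_of_le hx hm)]; exact (q2 x hx).1,
        (q2 x hx).2⟩⟩
    · rintro ⟨q1, q2⟩
      exact ⟨q1, fun x hx => ⟨by rw [h x (lt_of_lt_of_le hx hm)]; exact (q2 x hx).1,
        (q2 x hx).2⟩⟩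
  exact ⟨h1, m, hm, hcell ▸ hn, fun p hp' => hp p (hcell ▸ hp')⟩

open Classical in
private noncomputable def lng (V : List Bool → Prop) : List Bool :=
  if h : ∃ ρ, V ρ ∧ ∀ ρ', V ρ' → ρ' <+: ρ then h.choose else []

/-- EMG-16f.  The truncations of the labels and of the tournament only depend on an initial segment of `X`
(for the tournament: continuity of `Φ`; for the labels `Valid Φ Ψ X E ρ` only depends on `X` below
`E.sup Nat.succ ≤ s + 1`). -/
theorem trunc_labX (hΦ : Continuous Φ) (X : ℕ → Bool) (s : ℕ) : ∃ m, ∀ X' : ℕ → Bool,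
    (∀ x < m, X' x = X x) → tr s (Φ X) = tr s (Φ X') ∧
      trl s (labX Φ Ψ X) = trl s (labX Φ Ψ X') := by
  obtain ⟨m1, hm1⟩ : ∃ m, ∀ X' : ℕ → Bool, (∀ x < m, X' x = X x) →
      ∀ x ∈ Finset.range (s + 1), ∀ y ∈ Finset.range (s + 1), Φ X' x y = Φ X x y := by
    have hev : ∀ᶠ X' in nhds X, ∀ x ∈ Finset.range (s + 1), ∀ y ∈ Finset.range (s + 1),
        Φ X' x y = Φ X x y := by
      rw [Filter.eventually_all_finset]
      intro x _
      rw [Filter.eventually_all_finset]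
      intro y _
      have h1 : Filter.Tendsto (fun X' => Φ X' x y) (nhds X) (nhds (Φ X x y)) :=
        ((continuous_apply y).comp ((continuous_apply x).comp hΦ)).tendsto X
      rw [nhds_discrete Bool, Filter.tendsto_pure] at h1
      exact h1
    exact nhds_real hev
  refine ⟨max m1 (s + 1), fun X' hX' => ⟨?_, ?_⟩⟩
  · funext x y
    unfold tr
    by_cases hx : x ≤ s
    · by_cases hy : y ≤ s
      · rw [hm1 X' (fun z hz => hX' z (lt_of_lt_of_le hz (le_max_left _ _))) x
          (Finset.mem_range.mpr (Nat.lt_succ_of_le hx)) y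
          (Finset.mem_range.mpr (Nat.lt_succ_of_le hy))]
      · simp [hy]
    · simp [hx]
  · funext E
    unfold trl
    by_cases hE : E ⊆ Finset.range (s + 1)
    · rw [if_pos hE, if_pos hE]
      have hsup : E.sup Nat.succ ≤ s + 1 :=
        Finset.sup_le fun x hx => Finset.mem_range.mp (hE hx)
      have hag : ∀ x < E.sup Nat.succ, X' x = X x := fun x hx =>
        hX' x (lt_of_lt_of_le (lt_of_lt_of_le hx hsup) (le_max_right _ _))
      have hV : Valid Φ Ψ X E = Valid Φ Ψ X' E := by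
        funext ρ
        apply propext
        exact ⟨valid_of_agree Φ Ψ hag, valid_of_agree Φ Ψ fun x hx => (hag x hx).symm⟩
      show lng (Valid Φ Ψ X E) = lng (Valid Φ Ψ X' E)
      rw [hV]
    · rw [if_neg hE, if_neg hE]

/-- EMG-16.  `GEN_1` is not Weihrauch reducible to `EM` by continuous functionals.
Proof.  `f : ℕ → Idx` surjective.  Let `X` be the real with: for all `k`, lists `ξ` of natural numbers and strings `σ`,
`X (Nat.pair k (Nat.pair (encode ξ) (encode σ))) = true` iff for all `X'` with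
`ξ = (List.range ξ.length).map (fun n => cond (X' n) 1 0)` : `σ ∈ Wop (Φ X') (labX Φ Ψ X') (f k)` (this defines
`X`, no circularity).  Then `Wop (Φ X) (labX Φ Ψ X) (f k) = {σ | ∃ s, X (k, [X 0, .., X (s-1)], σ) = true}` (`⊇`: `X' = X`;
`⊆`: `wop_local`, `trunc_labX`), which is `Σ⁰₁` relative to `X` by `sigma01_of_search` (`t n = cond (X n) 1 0`,
`P = X`; both are the oracle).  If all `Ψ X H`, `H` a solution, are 1-generic relative to `X` then
`HypA (Φ X) (labX Φ Ψ X)` holds (`pref_labX`, `long_labX`), in contradiction to `core`.  (`Sol Φ` is nonempty by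
`exists_infinite_trn`.) -/
theorem no_continuous_reduction (hT : ∀ X, IsTour (Φ X)) (hΦ : Continuous Φ)
    (hΨ : ContinuousOn (fun p : (ℕ → Bool) × (ℕ → Bool) => Ψ p.1 p.2) (Sol Φ)) :
    ∃ X H, Solution (Φ X) H ∧ ¬ OneGeneric X (Ψ X H) := by
  classical
  by_contra hcon
  push Not at hcon
  obtain ⟨f, hf⟩ := exists_enum
  set t : (ℕ → Bool) → ℕ → ℕ := fun X' n => cond (X' n) 1 0 with ht
  set X : ℕ → Bool := fun n => decide (∀ (ξ : List ℕ) (σ : List Bool),
    Encodable.encode ξ = (Nat.unpair (Nat.unpair n).2).1 →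
    Encodable.encode σ = (Nat.unpair (Nat.unpair n).2).2 → ∀ X' : ℕ → Bool,
    (List.range ξ.length).map (t X') = ξ →
      σ ∈ Wop (Φ X') (labX Φ Ψ X') (f (Nat.unpair n).1)) with hX
  have hXspec : ∀ (k : ℕ) (ξ : List ℕ) (σ : List Bool),
      X (Nat.pair k (Nat.pair (Encodable.encode ξ) (Encodable.encode σ))) = true ↔
        ∀ X' : ℕ → Bool, (List.range ξ.length).map (t X') = ξ →
          σ ∈ Wop (Φ X') (labX Φ Ψ X') (f k) := by
    intro k ξ σ
    simp only [hX, decide_eq_true_iff, Nat.unpair_pair]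
    constructor
    · intro h X' hX'
      exact h ξ σ rfl rfl X' hX'
    · intro h ξ' σ' h1 h2 X' hX'
      have e1 := Encodable.encode_injective h1
      have e2 := Encodable.encode_injective h2
      subst e1
      subst e2
      exact h X' hX'
  have hne : (Sol Φ).Nonempty := by
    obtain ⟨H, -, hH, hHt⟩ := exists_infinite_trn (hT X) Set.infinite_univ
    have he : {n | (fun x => decide (x ∈ H)) n = true} = H := by
      ext n
      simp
    refine ⟨(X, fun x => decide (x ∈ H)), ?_⟩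
    show Solution (Φ X) (fun x => decide (x ∈ H))
    unfold Solution
    rw [he]
    exact ⟨hH, hHt⟩
  have hw : ∀ k, Sigma01 X (Wop (Φ X) (labX Φ Ψ X) (f k)) := by
    intro k
    have ho : Nat.RecursiveIn (orc X) (fun n => Part.some (t X n)) :=
      Nat.RecursiveIn.oracle _ (Set.mem_singleton _)
    have hs := sigma01_of_search (X := X) (t := t X) (P := X) ho ho k
    have he : {σ : List Bool | ∃ s, X (Nat.pair k (Nat.pair (Encodable.encode
        ((List.range s).map (t X))) (Encodable.encode σ))) = true} =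
        Wop (Φ X) (labX Φ Ψ X) (f k) := by
      ext σ
      simp only [Set.mem_ofPred_eq, hXspec]
      constructor
      · rintro ⟨s, h⟩
        apply h X
        simp
      · intro h
        obtain ⟨s, hs⟩ := wop_local h
        obtain ⟨m, hm⟩ := trunc_labX Φ Ψ hΦ X s
        refine ⟨m, fun X' hX' => ?_⟩
        rw [List.length_map, List.length_range] at hX'
        have hag : ∀ x < m, X' x = X x := by
          intro x hx
          have h1 : t X' x = t X x := by
            have h2 := List.map_inj_left.mp hX'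
            exact h2 x (List.mem_range.mpr hx)
          simp only [ht] at h1
          revert h1
          cases X' x <;> cases X x <;> simp
        obtain ⟨a, b⟩ := hm X' hag
        exact hs _ _ a b
    rw [← he]
    exact hs
  refine core (hT X) (labMono_labX Φ Ψ hne X) ?_
  intro H hH hHt
  have he : {n | (fun x => decide (x ∈ H)) n = true} = H := by
    ext n
    simp
  have hsol : Solution (Φ X) (fun x => decide (x ∈ H)) := by
    unfold Solution
    rw [he]
    exact ⟨hH, hHt⟩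
  refine ⟨Ψ X (fun x => decide (x ∈ H)), fun n => ?_, fun k => ?_, fun i => ?_⟩
  · have := pref_labX Φ Ψ hne hsol n
    rwa [he] at this
  · have := long_labX Φ Ψ hne hΨ hsol k
    rwa [he] at this
  · obtain ⟨k, rfl⟩ := hf i
    exact hcon X _ hsol _ (hw k)

end Pool.Agent.helper72.EMG
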