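import Pool.Agent.helper72.EMG.Tn
import Pool.Agent.helper72.EMG.Bg

/-!
# EMG-9. Truncation, search, children, bounds
-/

set_option autoImplicit false

namespace Pool.Agent.helper72.EMG

open Classical

/-! ## truncation -/

theorem tr_tr (T : ℕ → ℕ → Bool) {s s' : ℕ} (h : s ≤ s') : tr s (tr s' T) = tr s T := by
  funext x y
  unfold tr
  by_cases hx : x ≤ s
  · by_cases hy : y ≤ s
    · simp [hx, hy, hx.trans h, hy.trans h]
    · simp [hy]
  · simp [hx]

theorem trl_trl (lab : Finset ℕ → List Bool) {s s' : ℕ} (h : s ≤ s') :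
    trl s (trl s' lab) = trl s lab := by
  funext E
  unfold trl
  by_cases hE : E ⊆ Finset.range (s + 1)
  · have h2 : E ⊆ Finset.range (s' + 1) :=
      hE.trans (Finset.range_subset_range.2 (by omega))
    rw [if_pos hE, if_pos hE, if_pos h2]
  · rw [if_neg hE, if_neg hE]

theorem wld_tr (T : ℕ → ℕ → Bool) (s : ℕ) : wld (tr s T) s = wld T s := by
  funext x
  unfold wld
  rw [tr_tr T le_rfl]

theorem wld_eq (T : ℕ → ℕ → Bool) {s x : ℕ} (h : x ≤ s) : wld T s x = T x s := by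
  simp [wld, tr, h]

/-- EMG-9a.  A structure on numbers `≤ s` only depends on the truncations to `[0,s]`. -/
theorem isStr_tr {T : ℕ → ℕ → Bool} {lab : Finset ℕ → List Bool} {s M : ℕ}
    {C : Finset (Finset ℕ)} {u : ℕ → Bool} {B : ℕ → Finset (Finset ℕ)}
    (hC : ∀ E ∈ C, ∀ x ∈ E, x ≤ s) (hB : ∀ p ≤ M, ∀ D ∈ B p, ∀ x ∈ D, x ≤ s) :
    IsStr (tr s T) (trl s lab) C u M B ↔ IsStr T lab C u M B := by
  have hT : ∀ x y, x ≤ s → y ≤ s → tr s T x y = T x y := by
    intro x y hx hy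
    simp [tr, hx, hy]
  have hL : ∀ E : Finset ℕ, (∀ x ∈ E, x ≤ s) → trl s lab E = lab E := by
    intro E hE
    unfold trl
    rw [if_pos]
    intro x hx
    exact Finset.mem_range.2 (Nat.lt_succ_of_le (hE x hx))
  have hTrn : ∀ D : Finset ℕ, (∀ x ∈ D, x ≤ s) →
      (Trn (tr s T) (D : Set ℕ) ↔ Trn T (D : Set ℕ)) := by
    intro D hD
    unfold Trn
    constructor
    · intro h x hx y hy z hz h1 h2
      have := h x hx y hy z hz
      rw [hT x y (hD x hx) (hD y hy), hT y z (hD y hy) (hD z hz), hT x z (hD x hx) (hD z hz)] at this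
      exact this h1 h2
    · intro h x hx y hy z hz
      rw [hT x y (hD x hx) (hD y hy), hT y z (hD y hy) (hD z hz), hT x z (hD x hx) (hD z hz)]
      exact h x hx y hy z hz
  have hU : ∀ {D D' : Finset ℕ}, (∀ x ∈ D, x ≤ s) → (∀ x ∈ D', x ≤ s) →
      ∀ x ∈ D ∪ D', x ≤ s := by
    intro D D' h1 h2 x hx
    rcases Finset.mem_union.1 hx with h | h
    · exact h1 x h
    · exact h2 x h
  constructor
  · intro h
    refine ⟨?_, h.ne, ?_, h.lt, ?_, h.big, ?_, ?_⟩
    · intro p hp D hD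
      exact (hTrn D (hB p hp D hD)).1 (h.trn p hp D hD)
    · intro p hp D hD y hy E hE x hx
      have h1 := h.sees p hp D hD y hy E hE x hx
      rw [hT x y (hC E hE x hx) (hB p hp D hD y hy)] at h1
      exact h1
    · intro p q hpq hq D hD D' hD'
      exact (hTrn _ (hU (hB p (by omega) D hD) (hB q hq D' hD'))).1 (h.pair p q hpq hq D hD D' hD')
    · intro p q hpq hq E hE E' hE' D hD D' hD'
      have h1 := h.lab1 p q hpq hq E hE E' hE' D hD D' hD'
      rw [hL _ (hU (hC E hE) (hB p (by omega) D hD)), hL _ (hU (hC E' hE') (hB q hq D' hD'))] at h1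
      exact h1
    · intro p q q' hpq hqq hq E hE E' hE' D hD D' hD' F hF F' hF'
      have h1 := h.lab2 p q q' hpq hqq hq E hE E' hE' D hD D' hD' F hF F' hF'
      rw [hL _ (hU (hU (hC E hE) (hB p (by omega) D hD)) (hB q (by omega) F hF)),
        hL _ (hU (hU (hC E' hE') (hB p (by omega) D' hD')) (hB q' hq F' hF'))] at h1
      exact h1
  · intro h
    refine ⟨?_, h.ne, ?_, h.lt, ?_, h.big, ?_, ?_⟩
    · intro p hp D hD
      exact (hTrn D (hB p hp D hD)).2 (h.trn p hp D hD)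
    · intro p hp D hD y hy E hE x hx
      rw [hT x y (hC E hE x hx) (hB p hp D hD y hy)]
      exact h.sees p hp D hD y hy E hE x hx
    · intro p q hpq hq D hD D' hD'
      exact (hTrn _ (hU (hB p (by omega) D hD) (hB q hq D' hD'))).2 (h.pair p q hpq hq D hD D' hD')
    · intro p q hpq hq E hE E' hE' D hD D' hD'
      rw [hL _ (hU (hC E hE) (hB p (by omega) D hD)), hL _ (hU (hC E' hE') (hB q hq D' hD'))]
      exact h.lab1 p q hpq hq E hE E' hE' D hD D' hD'
    · intro p q q' hpq hqq hq E hE E' hE' D hD D' hD' F hF F' hF'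
      rw [hL _ (hU (hU (hC E hE) (hB p (by omega) D hD)) (hB q (by omega) F hF)),
        hL _ (hU (hU (hC E' hE') (hB p (by omega) D' hD')) (hB q' hq F' hF'))]
      exact h.lab2 p q q' hpq hqq hq E hE E' hE' D hD D' hD' F hF F' hF'

theorem mem_supp {C : Finset (Finset ℕ)} {x : ℕ} : x ∈ supp C ↔ ∃ E ∈ C, x ∈ E := by
  unfold supp
  rw [Finset.mem_sup]
  simp only [id]

/-- a structure only depends on the world on the union of the cohort -/
theorem isStr_congr {T : ℕ → ℕ → Bool} {lab : Finset ℕ → List Bool} {M : ℕ}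
    {C : Finset (Finset ℕ)} {u u' : ℕ → Bool} {B : ℕ → Finset (Finset ℕ)}
    (h : ∀ x ∈ supp C, u x = u' x) (hs : IsStr T lab C u M B) : IsStr T lab C u' M B := by
  refine ⟨hs.trn, hs.ne, ?_, hs.lt, hs.pair, hs.big, hs.lab1, hs.lab2⟩
  intro p hp D hD y hy E hE x hx
  rw [← h x (mem_supp.2 ⟨E, hE, hx⟩)]
  exact hs.sees p hp D hD y hy E hE x hx

/-! ## search -/

theorem search_spec {Q : (ℕ → ℕ → Bool) → ℕ → Option (Finset (Finset ℕ))} {s0 : ℕ}
    {T : ℕ → ℕ → Bool} {lab : Finset ℕ → List Bool} {d : Dat}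
    (h : search Q s0 T lab = some d) :
    s0 < d.s ∧ Q (tr d.s T) d.s = some d.C ∧ d.u = wld T d.s ∧
      Fnd (tr d.s T) (trl d.s lab) d.s d.C d.u d.B := by
  unfold search at h
  split_ifs at h with h1
  have h2 := Nat.find_spec h1
  have h3 := Option.some.inj h
  subst h3
  refine ⟨h2.1, h2.2.choose_spec.1, wld_tr T _, ?_⟩
  exact h2.2.choose_spec.2.choose_spec

theorem search_exists {Q : (ℕ → ℕ → Bool) → ℕ → Option (Finset (Finset ℕ))} {s0 s : ℕ}
    {T : ℕ → ℕ → Bool} {lab : Finset ℕ → List Bool} {C : Finset (Finset ℕ)}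
    {B : ℕ → Finset (Finset ℕ)} (hs : s0 < s) (hQ : Q (tr s T) s = some C)
    (hF : Fnd (tr s T) (trl s lab) s C (wld T s) B) :
    ∃ d, search Q s0 T lab = some d := by
  have h1 : ∃ s, Tst Q s0 (tr s T) (trl s lab) s :=
    ⟨s, hs, C, hQ, B, by rw [wld_tr]; exact hF⟩
  unfold search
  rw [dif_pos h1]
  exact ⟨_, rfl⟩

/-! ## numbers of blocks, children -/

theorem pos_inj {z z' : Finset ℕ} {i i' : ℕ} (hi : i < 11) (hi' : i' < 11)
    (h : pos z i = pos z' i') : z = z' ∧ i = i' := by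
  unfold pos at h
  have h1 : Encodable.encode z = Encodable.encode z' := by omega
  exact ⟨Encodable.encode_injective h1, by omega⟩

theorem blk_bounds (C : Finset (Finset ℕ)) (B : ℕ → Finset (Finset ℕ)) (v : ℕ → Bool) {l : ℕ}
    (hl : l < 6) : 1 ≤ blk C B v l ∧ blk C B v l ≤ bnd (supp C) := by
  have h1 := (picke_spec (sgn C B v) l hl).1
  unfold blk bnd
  refine ⟨by unfold pos; omega, ?_⟩
  have h2 : code (supp C) v ∈ (supp C).powerset := by
    rw [Finset.mem_powerset]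
    exact Finset.filter_subset _ _
  refine le_trans ?_ (Finset.le_sup (f := fun z => pos z 10) h2)
  show pos _ _ ≤ pos _ _
  unfold pos
  omega

theorem blk_lt (C : Finset (Finset ℕ)) (B : ℕ → Finset (Finset ℕ)) (v : ℕ → Bool) {l m : ℕ}
    (hlm : l < m) (hm : m < 6) : blk C B v l < blk C B v m := by
  have h1 := picke_lt (sgn C B v) l m hlm hm
  unfold blk pos
  omega

theorem inner_lt : ∀ a ∈ inner, a.1 < a.2 ∧ a.2 < 6 := by
  decide

theorem cross_lt : ∀ a ∈ cross, a.1 < a.2 ∧ a.2 < 6 := by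
  decide

theorem mem_child1 {C : Finset (Finset ℕ)} {u v : ℕ → Bool} {B : ℕ → Finset (Finset ℕ)}
    {E' : Finset ℕ} : E' ∈ child1 C u B v ↔ ∃ E ∈ C, (∀ x ∈ E, v x = u x) ∧
      ∃ l m, (l, m) ∈ inner ∧ ∃ D ∈ B (blk C B v l), ∃ D' ∈ B (blk C B v m),
        (∀ x ∈ D, v x = bit C B v) ∧ (∀ x ∈ D', v x = bit C B v) ∧ E' = E ∪ D ∪ D' := by
  unfold child1
  rw [mem_mk]
  constructor
  · rintro ⟨E, hE, l, m, hlm, D, hD, D', hD', rfl⟩
    have hE' := Finset.mem_filter.1 hE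
    have h1 := Finset.mem_filter.1 hD
    have h2 := Finset.mem_filter.1 hD'
    exact ⟨E, hE'.1, hE'.2, l, m, hlm, D, h1.1, D', h2.1, h1.2, h2.2, rfl⟩
  · rintro ⟨E, hE, hEv, l, m, hlm, D, hD, D', hD', h1, h2, rfl⟩
    exact ⟨E, Finset.mem_filter.2 ⟨hE, hEv⟩, l, m, hlm, D, Finset.mem_filter.2 ⟨hD, h1⟩, D',
      Finset.mem_filter.2 ⟨hD', h2⟩, rfl⟩

theorem mem_child2 {C : Finset (Finset ℕ)} {u v v' : ℕ → Bool} {B : ℕ → Finset (Finset ℕ)}
    {E' : Finset ℕ} : E' ∈ child2 C u B v v' ↔ ∃ E ∈ C, (∀ x ∈ E, v x = u x) ∧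
      ∃ l m, (l, m) ∈ cross ∧ ∃ D ∈ B (blk C B v l), ∃ D' ∈ B (blk C B v m),
        (∀ x ∈ D, v x = bit C B v) ∧ (∀ x ∈ D', v x = bit C B v) ∧
        (∀ x ∈ D, v' x = !(bit C B v)) ∧ (∀ x ∈ D', v' x = !(bit C B v)) ∧
        E' = E ∪ D ∪ D' := by
  unfold child2
  rw [mem_mk]
  constructor
  · rintro ⟨E, hE, l, m, hlm, D, hD, D', hD', rfl⟩
    have hE' := Finset.mem_filter.1 hE
    have h1 := Finset.mem_filter.1 hD
    have h2 := Finset.mem_filter.1 hD'
    have h3 := Finset.mem_filter.1 h1.1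
    have h4 := Finset.mem_filter.1 h2.1
    exact ⟨E, hE'.1, hE'.2, l, m, hlm, D, h3.1, D', h4.1, h3.2, h4.2, h1.2, h2.2, rfl⟩
  · rintro ⟨E, hE, hEv, l, m, hlm, D, hD, D', hD', h1, h2, h3, h4, rfl⟩
    exact ⟨E, Finset.mem_filter.2 ⟨hE, hEv⟩, l, m, hlm, D,
      Finset.mem_filter.2 ⟨Finset.mem_filter.2 ⟨hD, h1⟩, h3⟩, D',
      Finset.mem_filter.2 ⟨Finset.mem_filter.2 ⟨hD', h2⟩, h4⟩, rfl⟩

/-- worlds with the same code agree on the set -/
theorem code_eq {F : Finset ℕ} {v v' : ℕ → Bool} : code F v = code F v' ↔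
    ∀ x ∈ F, v x = v' x := by
  unfold code
  constructor
  · intro h x hx
    have h1 : x ∈ F.filter (fun x => v x = true) ↔ x ∈ F.filter (fun x => v' x = true) := by rw [h]
    simp only [Finset.mem_filter, hx, true_and] at h1
    cases hv : v x <;> cases hv' : v' x <;> simp [hv, hv'] at h1 <;> rfl
  · intro h
    refine Finset.filter_congr fun x hx => ?_
    rw [h x hx]

/-! ## bounds (no hypothesis on `T`) -/

/-- all numbers occurring in a closed cohort and in its structure are below the stage -/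
def Lt (d : Dat) : Prop := (∀ E ∈ d.C, ∀ x ∈ E, x < d.s) ∧ ∀ p, ∀ D ∈ d.B p, ∀ x ∈ D, x < d.s

theorem root_lt {T : ℕ → ℕ → Bool} {lab : Finset ℕ → List Bool} {d : Dat}
    (h : root T lab = some d) : Lt d := by
  obtain ⟨_, h2, _, h4⟩ := search_spec h
  refine ⟨?_, h4.2.2⟩
  intro E hE x hx
  have h3 : d.C = {∅} := (Option.some.inj h2).symm
  rw [h3, Finset.mem_singleton] at hE
  subst hE
  exact absurd hx (Finset.notMem_empty x)

theorem kid1_lt {T : ℕ → ℕ → Bool} {lab : Finset ℕ → List Bool} {d d1 : Dat} {z : Finset ℕ}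
    (hd : Lt d) (h : kid1 T lab d z = some d1) : Lt d1 ∧ d.s < d1.s := by
  obtain ⟨h1, h2, _, h4⟩ := search_spec h
  refine ⟨⟨?_, h4.2.2⟩, h1⟩
  split_ifs at h2 with h5
  intro E' hE' x hx
  rw [← Option.some.inj h2] at hE'
  obtain ⟨E, hE, _, l, m, _, D, hD, D', hD', _, _, rfl⟩ := mem_child1.1 hE'
  refine lt_trans ?_ h1
  rcases Finset.mem_union.1 hx with h | h
  · rcases Finset.mem_union.1 h with h | h
    · exact hd.1 E hE x h
    · exact hd.2 _ D hD x h
  · exact hd.2 _ D' hD' x h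

theorem kid2_lt {T : ℕ → ℕ → Bool} {lab : Finset ℕ → List Bool} {d d1 d2 : Dat} {z : Finset ℕ}
    (hd : Lt d) (h1 : d.s < d1.s) (h : kid2 T lab d d1 z = some d2) : Lt d2 ∧ d1.s < d2.s := by
  obtain ⟨h1', h2, _, h4⟩ := search_spec h
  refine ⟨⟨?_, h4.2.2⟩, h1'⟩
  split_ifs at h2 with h5
  intro E' hE' x hx
  rw [← Option.some.inj h2] at hE'
  obtain ⟨E, hE, _, l, m, _, D, hD, D', hD', _, _, _, _, rfl⟩ := mem_child2.1 hE'
  refine lt_trans ?_ (h1.trans h1')
  rcases Finset.mem_union.1 hx with h | h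
  · rcases Finset.mem_union.1 h with h | h
    · exact hd.1 E hE x h
    · exact hd.2 _ D hD x h
  · exact hd.2 _ D' hD' x h

theorem entry_lt {T : ℕ → ℕ → Bool} {lab : Finset ℕ → List Bool}
    {α : List (Finset ℕ × Bool)} {d : Dat} (h : entry T lab α = some d) : Lt d := by
  induction α generalizing d with
  | nil => exact root_lt h
  | cons a α ih =>
    obtain ⟨z, b⟩ := a
    cases b with
    | false =>
      obtain ⟨d0, h0, h1⟩ := Option.bind_eq_some_iff.1 h
      exact (kid1_lt (ih h0) h1).1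
    | true =>
      obtain ⟨d0, h0, h1⟩ := Option.bind_eq_some_iff.1 h
      obtain ⟨d1, h2, h3⟩ := Option.bind_eq_some_iff.1 h1
      have h4 := kid1_lt (ih h0) h2
      exact (kid2_lt (ih h0) h4.2 h3).1

end Pool.Agent.helper72.EMG
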