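import Pool.Agent.helper72.EMG.Iv

/-!
# EMG-9b. Invariants of the closed cohorts
-/

set_option autoImplicit false

namespace Pool.Agent.helper72.EMG

open Classical

/-! ## the invariant -/

/-- the properties of a closed cohort -/
structure Inv (T : ℕ → ℕ → Bool) (lab : Finset ℕ → List Bool) (d : Dat) : Prop where
  lt : Lt d
  hu : d.u = wld T d.s
  alive : ∀ E ∈ d.C, Alive T d.u E
  str : IsStr T lab d.C d.u (bnd (supp d.C)) d.B

/-- EMG-9b.  Nodes `E ∪ D ∪ D'` are alive in every world which agrees with `d.u` on `E` and is constant on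
`D ∪ D'` (`alive_union` with `Z = D ∪ D'`, `IsStr.pair`, `IsStr.sees`). -/
theorem alive_node {T : ℕ → ℕ → Bool} {lab : Finset ℕ → List Bool} (hT : IsTour T) {d : Dat}
    (hd : Inv T lab d) {E : Finset ℕ} (hE : E ∈ d.C) {p q : ℕ} (hpq : p < q)
    (hq : q ≤ bnd (supp d.C)) {D D' : Finset ℕ} (hD : D ∈ d.B p) (hD' : D' ∈ d.B q)
    {v : ℕ → Bool} (hv : ∀ x ∈ E, v x = d.u x) {b : Bool} (hb : ∀ x ∈ D, v x = b)
    (hb' : ∀ x ∈ D', v x = b) : Alive T v (E ∪ D ∪ D') := by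
  rw [Finset.union_assoc]
  refine alive_union hT (hd.alive E hE) (hd.str.pair p q hpq hq D hD D' hD') ?_ hv (b := b) ?_
  · intro y hy x hx
    rcases Finset.mem_union.1 hy with hy | hy
    · exact hd.str.sees p (hpq.le.trans hq) D hD y hy E hE x hx
    · exact hd.str.sees q hq D' hD' y hy E hE x hx
  · intro y hy
    rcases Finset.mem_union.1 hy with hy | hy
    · exact hb y hy
    · exact hb' y hy

private theorem str_of {T : ℕ → ℕ → Bool} {lab : Finset ℕ → List Bool} {d : Dat} (hl : Lt d)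
    (h : Fnd (tr d.s T) (trl d.s lab) d.s d.C d.u d.B) :
    IsStr T lab d.C d.u (bnd (supp d.C)) d.B :=
  (isStr_tr (fun E hE x hx => (hl.1 E hE x hx).le) (fun p _ D hD x hx => (hl.2 p D hD x hx).le)).1
    h.1

theorem root_inv {T : ℕ → ℕ → Bool} {lab : Finset ℕ → List Bool} {d : Dat}
    (h : root T lab = some d) : Inv T lab d ∧ d.C = {∅} := by
  have hl := root_lt h
  obtain ⟨_, h2, h3, h4⟩ := search_spec h
  have hC : d.C = {∅} := (Option.some.inj h2).symm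
  refine ⟨⟨hl, h3, fun E hE => ?_, str_of hl h4⟩, hC⟩
  rw [hC, Finset.mem_singleton] at hE
  subst hE
  exact alive_empty _

/-- EMG-9c. -/
theorem kid1_inv {T : ℕ → ℕ → Bool} {lab : Finset ℕ → List Bool} (hT : IsTour T) {d d1 : Dat}
    {z : Finset ℕ} (hd : Inv T lab d) (h : kid1 T lab d z = some d1) :
    Inv T lab d1 ∧ d.s < d1.s ∧ code (supp d.C) d1.u = z ∧
      d1.C = child1 d.C d.u d.B d1.u := by
  have hl := kid1_lt hd.lt h
  obtain ⟨h1, h2, h3, h4⟩ := search_spec h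
  rw [wld_tr, ← h3] at h2
  split_ifs at h2 with h5
  have hC := (Option.some.inj h2).symm
  refine ⟨⟨hl.1, h3, fun E' hE' => ?_, str_of hl.1 h4⟩, h1, h5, hC⟩
  rw [hC] at hE'
  obtain ⟨E, hE, hv, l, m, hlm, D, hD, D', hD', hb, hb', rfl⟩ := mem_child1.1 hE'
  have hlt := inner_lt _ hlm
  exact alive_node hT hd hE (blk_lt _ _ _ hlt.1 hlt.2) (blk_bounds _ _ _ hlt.2).2 hD hD' hv hb hb'

/-- EMG-9d. -/
theorem kid2_inv {T : ℕ → ℕ → Bool} {lab : Finset ℕ → List Bool} (hT : IsTour T)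
    {d d1 d2 : Dat} {z : Finset ℕ} (hd : Inv T lab d) (h1 : kid1 T lab d z = some d1)
    (h : kid2 T lab d d1 z = some d2) :
    Inv T lab d2 ∧ d1.s < d2.s ∧ code (supp d.C) d2.u = z ∧
      (¬ ∃ E ∈ d1.C, ∀ x ∈ E, d2.u x = d1.u x) ∧ d2.C = child2 d.C d.u d.B d1.u d2.u := by
  obtain ⟨hi1, hs1, hz1, hC1⟩ := kid1_inv hT hd h1
  have hl := kid2_lt hd.lt hs1 h
  obtain ⟨hs2, h2, h3, h4⟩ := search_spec h
  rw [wld_tr, ← h3] at h2
  split_ifs at h2 with h5
  have hC := (Option.some.inj h2).symm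
  refine ⟨⟨hl.1, h3, fun E' hE' => ?_, str_of hl.1 h4⟩, hs2, h5.1, h5.2, hC⟩
  rw [hC] at hE'
  obtain ⟨E, hE, hv, l, m, hlm, D, hD, D', hD', _, _, hb, hb', rfl⟩ := mem_child2.1 hE'
  have hlt := cross_lt _ hlm
  have hz : ∀ x ∈ supp d.C, d2.u x = d1.u x := code_eq.1 (h5.1.trans hz1.symm)
  exact alive_node hT hd hE (blk_lt _ _ _ hlt.1 hlt.2) (blk_bounds _ _ _ hlt.2).2 hD hD'
    (fun x hx => (hz x (mem_supp.2 ⟨E, hE, hx⟩)).trans (hv x hx)) hb hb'

theorem entry_cons {T : ℕ → ℕ → Bool} {lab : Finset ℕ → List Bool} {z : Finset ℕ} {ρ : Bool}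
    {α : List (Finset ℕ × Bool)} {d' : Dat} (h : entry T lab ((z, ρ) :: α) = some d') :
    ∃ d d1, entry T lab α = some d ∧ kid1 T lab d z = some d1 ∧
      (ρ = false ∧ d' = d1 ∨ ρ = true ∧ kid2 T lab d d1 z = some d') := by
  cases ρ with
  | false =>
    obtain ⟨d, h0, h1⟩ := Option.bind_eq_some_iff.1 h
    exact ⟨d, d', h0, h1, Or.inl ⟨rfl, rfl⟩⟩
  | true =>
    obtain ⟨d, h0, h1⟩ := Option.bind_eq_some_iff.1 h
    obtain ⟨d1, h2, h3⟩ := Option.bind_eq_some_iff.1 h1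
    exact ⟨d, d1, h0, h2, Or.inr ⟨rfl, h3⟩⟩

theorem entry_inv {T : ℕ → ℕ → Bool} {lab : Finset ℕ → List Bool} (hT : IsTour T)
    {α : List (Finset ℕ × Bool)} {d : Dat} (h : entry T lab α = some d) : Inv T lab d := by
  induction α generalizing d with
  | nil => exact (root_inv h).1
  | cons a α ih =>
    obtain ⟨z, ρ⟩ := a
    obtain ⟨d0, d1, h0, h1, ⟨_, rfl⟩ | ⟨_, h2⟩⟩ := entry_cons h
    · exact (kid1_inv hT (ih h0) h1).1
    · exact (kid2_inv hT (ih h0) h1 h2).1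

end Pool.Agent.helper72.EMG
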