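import Pool.Agent.helper72.EMG.Defs

/-!
# EMG-2. Tournaments
-/

set_option autoImplicit false

namespace Pool.Agent.helper72.EMG

variable {T : ℕ → ℕ → Bool}

theorem Trn.subset {S S' : Set ℕ} (h : Trn T S) (hs : S' ⊆ S) : Trn T S' :=
  fun x hx y hy z hz => h x (hs hx) y (hs hy) z (hs hz)

private theorem Tn_ne (hT : IsTour T) {x y : ℕ} (h : T x y = true) : x ≠ y := by
  rintro rfl
  rw [hT.1] at h
  exact Bool.false_ne_true h

private theorem Tn_swap (hT : IsTour T) {x y : ℕ} (h : x ≠ y) (b : Bool) :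
    T x y = b ↔ T y x = !b := by
  rw [hT.2 x y h]
  cases T y x <;> cases b <;> simp

/-- `T x y = true` excludes `T y x = true` -/
private theorem Tn_asymm (hT : IsTour T) {x y : ℕ} (h : T x y = true) (h' : T y x = true) :
    False := by
  have h1 := (Tn_swap hT (Tn_ne hT h) true).1 h
  rw [h'] at h1
  exact absurd h1 (by simp)

/-- a set on which `T x y = a` for all `x < y` is transitive.
Proof.  `T x y = true`, `T y z = true`: if `a = true` then `x < y < z` (in a tournament
`T x y = true` excludes `x = y`, and `y < x` would give `T y x = a = true`, hence `T x y = false`);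
if `a = false` then `x > y > z` in the same way, and `T z x = false` gives `T x z = true`. -/
theorem trn_of_const (hT : IsTour T) {S : Set ℕ} (a : Bool)
    (h : ∀ x ∈ S, ∀ y ∈ S, x < y → T x y = a) : Trn T S := by
  intro x hx y hy z hz hxy hyz
  cases a with
  | true =>
    have key : ∀ x ∈ S, ∀ y ∈ S, T x y = true → x < y := by
      intro x hx y hy hxy
      by_contra hlt
      have h1 : y < x := lt_of_le_of_ne (not_lt.1 hlt) (Tn_ne hT hxy).symm
      exact Tn_asymm hT hxy (h y hy x hx h1)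
    exact h x hx z hz ((key x hx y hy hxy).trans (key y hy z hz hyz))
  | false =>
    have key : ∀ x ∈ S, ∀ y ∈ S, T x y = true → y < x := by
      intro x hx y hy hxy
      by_contra hlt
      have h1 : x < y := lt_of_le_of_ne (not_lt.1 hlt) (Tn_ne hT hxy)
      rw [h x hx y hy h1] at hxy
      exact Bool.false_ne_true hxy
    have h1 : z < x := (key y hy z hz hyz).trans (key x hx y hy hxy)
    have h2 := h z hz x hx h1
    exact (Tn_swap hT h1.ne' true).2 h2

/-- every infinite set contains an infinite transitive set.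
Proof.  Let `𝒰` be an ultrafilter on `ℕ` containing `S` and all the sets `{y | n < y}`
(`Filter.atTop ⊓ 𝓟 S` is `NeBot`, `Ultrafilter.of`).  For `x` let `w x` be the truth value of
`{y | T x y = true} ∈ 𝒰`, and `a` with `{y | w y = a} ∈ 𝒰`.  For every finite `F ⊆ {y ∈ S | w y = a}` there is
`y ∈ S` with `w y = a`, `x < y` and `T x y = a` for all `x ∈ F`.  Use
`exists_seq_of_forall_finset_exists` (or a recursion) to get a sequence, and `trn_of_const`. -/
theorem exists_infinite_trn (hT : IsTour T) {S : Set ℕ} (hS : S.Infinite) :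
    ∃ H : Set ℕ, H ⊆ S ∧ H.Infinite ∧ Trn T H := by
  classical
  have hne : (Filter.atTop ⊓ Filter.principal S : Filter ℕ).NeBot := by
    rw [Filter.inf_principal_neBot_iff]
    intro U hU
    obtain ⟨n, hn⟩ := Filter.mem_atTop_sets.1 hU
    obtain ⟨m, hm, hnm⟩ := hS.exists_gt n
    exact ⟨m, hn m hnm.le, hm⟩
  obtain ⟨U, hU⟩ : ∃ U : Ultrafilter ℕ, (U : Filter ℕ) ≤ Filter.atTop ⊓ Filter.principal S :=
    ⟨Ultrafilter.of _, Ultrafilter.of_le _⟩
  have hU1 : ∀ᶠ y in (U : Filter ℕ), y ∈ S :=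
    hU (Filter.mem_inf_of_right (Filter.mem_principal_self S))
  have hU2 : ∀ n, ∀ᶠ y in (U : Filter ℕ), n < y := fun n =>
    hU (Filter.mem_inf_of_left (Filter.eventually_gt_atTop n))
  have hbool : ∀ g : ℕ → Bool, ∃ a, ∀ᶠ y in (U : Filter ℕ), g y = a := by
    intro g
    by_cases h1 : ∀ᶠ y in (U : Filter ℕ), g y = true
    · exact ⟨true, h1⟩
    · refine ⟨false, ?_⟩
      rw [← Ultrafilter.eventually_not] at h1
      exact h1.mono fun y hy => by simpa using hy
  choose w hw using fun x => hbool (fun y => T x y)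
  obtain ⟨a, ha⟩ := hbool w
  obtain ⟨f, hf1, hf2⟩ := exists_seq_of_forall_finset_exists
    (fun y => y ∈ S ∧ w y = a) (fun x y => x < y ∧ T x y = a) (by
      intro F hF
      have h1 : ∀ᶠ y in (U : Filter ℕ), ∀ x ∈ F, x < y ∧ T x y = a := by
        rw [Filter.eventually_all_finset]
        intro x hx
        filter_upwards [hU2 x, hw x] with y hy1 hy2
        exact ⟨hy1, by rw [hy2, (hF x hx).2]⟩
      obtain ⟨y, hy⟩ := (hU1.and (ha.and h1)).exists
      exact ⟨y, ⟨hy.1, hy.2.1⟩, hy.2.2⟩)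
  have hmono : StrictMono f := fun i j hij => (hf2 i j hij).1
  refine ⟨Set.range f, ?_, Set.infinite_range_of_injective hmono.injective, ?_⟩
  · rintro _ ⟨i, rfl⟩
    exact (hf1 i).1
  · refine trn_of_const hT a ?_
    rintro _ ⟨i, rfl⟩ _ ⟨j, rfl⟩ hij
    exact (hf2 i j (hmono.lt_iff_lt.1 hij)).2

/-- the union of an alive set `C` and a transitive set `Z` all of whose elements see the world `u` on
`C` is transitive.  Proof.  Let `x → y → z` (`x → y` means `T x y = true`; this implies `x ≠ y`).  If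
all three are in `C` or all in `Z`: clear.  In general note: for `x ∈ C`, `y ∈ Z`: `x → y` iff
`u x = true`, `y → x` iff `u x = false`.  Cases:  `x ∈ C`, `y ∈ C`, `z ∈ Z`: `u y = true`; if
`u x = false` then `T y x = true` by monotonicity, contradiction with `x → y`; so `u x = true` and `x → z`.
`x ∈ C, y ∈ Z, z ∈ C`: `u x = true`, `u z = false`, so `x → z` by monotonicity.
`x ∈ Z, y ∈ C, z ∈ C`: `u y = false`; if `u z = true` then `z → y`, contradiction; so `u z = false`, `x → z`.
`x ∈ C, y ∈ Z, z ∈ Z`: `u x = true`, `x → z`.  `x ∈ Z, y ∈ Z, z ∈ C`: `u z = false`, `x → z`.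
`x ∈ Z, y ∈ C, z ∈ Z`: `u y = false` and `u y = true`, impossible. -/
theorem trn_union (hT : IsTour T) {C Z : Set ℕ} {u : ℕ → Bool} (hC : Trn T C)
    (hm : MonoOn T u C) (hZ : Trn T Z) (hs : ∀ y ∈ Z, ∀ x ∈ C, x < y ∧ T x y = u x) :
    Trn T (C ∪ Z) := by
  have hs' : ∀ y ∈ Z, ∀ x ∈ C, T y x = true → u x = false := by
    intro y hy x hx h
    obtain ⟨h1, h2⟩ := hs y hy x hx
    have h3 := (Tn_swap hT h1.ne' true).1 h
    rw [h2] at h3
    simpa using h3
  have hs'' : ∀ y ∈ Z, ∀ x ∈ C, u x = false → T y x = true := by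
    intro y hy x hx h
    obtain ⟨h1, h2⟩ := hs y hy x hx
    refine (Tn_swap hT h1.ne' true).2 ?_
    rw [h2, h]
    rfl
  intro x hx y hy z hz hxy hyz
  rcases hx with hx | hx <;> rcases hy with hy | hy <;> rcases hz with hz | hz
  · exact hC x hx y hy z hz hxy hyz
  · have h1 : u y = true := (hs z hz y hy).2.symm.trans hyz
    rw [(hs z hz x hx).2]
    by_contra h2
    have h3 : u x = false := by simpa using h2
    exact Tn_asymm hT hxy (hm y hy x hx h1 h3)
  · have h1 : u x = true := (hs y hy x hx).2.symm.trans hxy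
    exact hm x hx z hz h1 (hs' y hy z hz hyz)
  · have h1 : u x = true := (hs y hy x hx).2.symm.trans hxy
    rw [(hs z hz x hx).2, h1]
  · have h1 : u y = false := hs' x hx y hy hxy
    apply hs'' x hx z hz
    by_contra h2
    have h3 : u z = true := by simpa using h2
    exact Tn_asymm hT hyz (hm z hz y hy h3 h1)
  · have h1 : u y = false := hs' x hx y hy hxy
    have h2 : u y = true := (hs z hz y hy).2.symm.trans hyz
    rw [h1] at h2
    exact absurd h2 Bool.false_ne_true
  · exact hs'' x hx z hz (hs' y hy z hz hyz)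
  · exact hZ x hx y hy z hz hxy hyz

/-- if moreover `v` agrees with `u` on `C` and is constant on `Z` then `v` is monotone on the union -/
theorem mono_union (hT : IsTour T) {C Z : Set ℕ} {u v : ℕ → Bool}
    (hm : MonoOn T u C) (hs : ∀ y ∈ Z, ∀ x ∈ C, x < y ∧ T x y = u x)
    (hv : ∀ x ∈ C, v x = u x) {b : Bool} (hb : ∀ y ∈ Z, v y = b) :
    MonoOn T v (C ∪ Z) := by
  intro x hx y hy hvx hvy
  rcases hx with hx | hx <;> rcases hy with hy | hy
  · exact hm x hx y hy (by rw [← hv x hx]; exact hvx) (by rw [← hv y hy]; exact hvy)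
  · rw [(hs y hy x hx).2, ← hv x hx, hvx]
  · obtain ⟨h1, h2⟩ := hs x hx y hy
    refine (Tn_swap hT h1.ne' true).2 ?_
    rw [h2, ← hv y hy, hvy]
    rfl
  · rw [hb x hx] at hvx
    rw [hb y hy, hvx] at hvy
    exact absurd hvy (by simp)

theorem alive_union (hT : IsTour T) {C Z : Finset ℕ} {u v : ℕ → Bool} (hC : Alive T u C)
    (hZ : Trn T (Z : Set ℕ)) (hs : ∀ y ∈ Z, ∀ x ∈ C, x < y ∧ T x y = u x)
    (hv : ∀ x ∈ C, v x = u x) {b : Bool} (hb : ∀ y ∈ Z, v y = b) :
    Alive T v (C ∪ Z) := by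
  have hs' : ∀ y ∈ (Z : Set ℕ), ∀ x ∈ (C : Set ℕ), x < y ∧ T x y = u x :=
    fun y hy x hx => hs y hy x hx
  unfold Alive
  rw [Finset.coe_union]
  exact ⟨trn_union hT hC.1 hC.2 hZ hs', mono_union hT hC.2 hs' (fun x hx => hv x hx)
    (fun y hy => hb y hy)⟩

/-- monotonicity only depends on the world on the set -/
theorem Alive.congr {u v : ℕ → Bool} {E : Finset ℕ} (h : Alive T u E) (hv : ∀ x ∈ E, v x = u x) :
    Alive T v E :=
  ⟨h.1, fun x hx y hy h1 h2 => h.2 x hx y hy (by rw [← hv x hx]; exact h1)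
    (by rw [← hv y hy]; exact h2)⟩

theorem alive_empty (v : ℕ → Bool) : Alive T v ∅ :=
  ⟨fun x hx => by simp at hx, fun x hx => by simp at hx⟩

/-- `E ∪ D` is an end-extension of `E` if all elements of `D` are above all elements of `E` -/
theorem endExt_union {E D : Finset ℕ} (h : ∀ y ∈ D, ∀ x ∈ E, x < y) : EndExt E (E ∪ D) :=
  ⟨Finset.subset_union_left, fun x hx hxE y hy =>
    h x ((Finset.mem_union.1 hx).resolve_left hxE) y hy⟩

theorem EndExt.trans {E E' E'' : Finset ℕ} (h : EndExt E E') (h' : EndExt E' E'') :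
    EndExt E E'' := by
  refine ⟨h.1.trans h'.1, fun x hx hxE y hy => ?_⟩
  by_cases hx' : x ∈ E'
  · exact h.2 x hx' hxE y hy
  · exact h'.2 x hx hx' y (h.1 hy)

theorem mem_cut {H : Set ℕ} {n x : ℕ} : x ∈ cut H n ↔ x < n ∧ x ∈ H := by
  unfold cut
  simp only [Finset.mem_filter, Finset.mem_range]

theorem endExt_cut (H : Set ℕ) {m n : ℕ} (h : m ≤ n) : EndExt (cut H m) (cut H n) := by
  refine ⟨fun x hx => ?_, fun x hx hxm y hy => ?_⟩
  · rw [mem_cut] at hx ⊢
    exact ⟨hx.1.trans_le h, hx.2⟩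
  · rw [mem_cut] at hx hy hxm
    have h1 : m ≤ x := by
      by_contra h2
      exact hxm ⟨not_le.1 h2, hx.2⟩
    exact hy.1.trans_le h1

end Pool.Agent.helper72.EMG
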