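import Pool.Agent.helper72.EMG.Wd
import Pool.Agent.helper72.EMG.Tn

/-!
# EMG-4. Failing sets; label reals of a colouring
-/

set_option autoImplicit false

namespace Pool.Agent.helper72.EMG

variable {T : ℕ → ℕ → Bool} {lab : Finset ℕ → List Bool}

/-- `U` is a failing set with node `E` and world `u` (a finite set, the elements with sign `true`):
`E` is alive in the world `u`, all elements of `U` see this world, and the labels of `E ∪ D`, `D ⊆ U`
finite and transitive, are pairwise compatible -/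
def Failing (T : ℕ → ℕ → Bool) (lab : Finset ℕ → List Bool) (E u : Finset ℕ) (U : Set ℕ) : Prop :=
  Alive T (fun x => decide (x ∈ u)) E ∧ (∀ y ∈ U, ∀ x ∈ E, x < y ∧ T x y = decide (x ∈ u)) ∧
    ∀ D D' : Finset ℕ, (D : Set ℕ) ⊆ U → (D' : Set ℕ) ⊆ U → Trn T (D : Set ℕ) →
      Trn T (D' : Set ℕ) → ¬ Incomp (lab (E ∪ D)) (lab (E ∪ D'))

/-- the nodes of a parameter are alive in their worlds and below `N` -/
def Par.Ok (T : ℕ → ℕ → Bool) (q : Par) : Prop :=
  ∀ a, Alive T (fun x => decide (x ∈ q.u a)) (q.E a) ∧ ∀ x ∈ q.E a, x < q.N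

/-- EMG-4a.  The label real of a colour class which is infinite.
Proof.  `{y | N ≤ y ∧ c y = a}` contains an infinite transitive set `H'` (`exists_infinite_trn`);
`H = E a ∪ H'` is infinite and transitive (`trn_union`; the elements of `H'` see the world `u a` on
`E a` since `c ∈ Cls`).  `HypA` gives a real `g` for `H`.  For `n ≥ N`: `cut H n = E a ∪ cut H' n`, and
`Hom T N c a (cut H' n)`.  As `lab (cut H n)` has unbounded length (and is monotone in `n` by
`LabMono` and `endExt_cut`), the labels of `E a ∪ cut H' n` (`n ≥ N`) are initial segments of `g` of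
unbounded length.  For `D` with `Hom T N c a D` the label of `E a ∪ D` is compatible with all of them
(second clause of `Cls`), hence an initial segment of `g` (`pref_of_compat`). -/
theorem exists_label_real (hT : IsTour T) (hl : LabMono lab) (hA : HypA T lab) {q : Par}
    (hq : q.Ok T) {c : ℕ → Fin q.K} (hc : c ∈ Cls T lab q) {a : Fin q.K}
    (hinf : {y | q.N ≤ y ∧ c y = a}.Infinite) :
    ∃ g : ℕ → Bool, (∀ D, Hom T q.N c a D → Pref (lab (q.E a ∪ D)) g) ∧
      (∀ k, ∃ D, Hom T q.N c a D ∧ k ≤ (lab (q.E a ∪ D)).length) ∧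
      ∀ i : Idx, Meets g (Wop T lab i) ∨ Avoids g (Wop T lab i) := by
  obtain ⟨H', hH'sub, hH'inf, hH't⟩ := exists_infinite_trn hT hinf
  have hs : ∀ y ∈ H', ∀ x ∈ (q.E a : Set ℕ), x < y ∧ T x y = decide (x ∈ q.u a) := by
    intro y hy x hx
    obtain ⟨h1, h2⟩ := hH'sub hy
    have h3 := hc.1 y h1 x (by rw [h2]; exact hx)
    rwa [h2] at h3
  have hH : Trn T ((q.E a : Set ℕ) ∪ H') := trn_union hT (hq a).1.1 (hq a).1.2 hH't hs
  obtain ⟨g, hg1, hg2, hg3⟩ := hA _ (hH'inf.mono Set.subset_union_right) hH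
  have hcut : ∀ n, q.N ≤ n → cut ((q.E a : Set ℕ) ∪ H') n = q.E a ∪ cut H' n := by
    intro n hn
    ext x
    rw [mem_cut, Finset.mem_union, mem_cut]
    constructor
    · rintro ⟨h1, h2 | h2⟩
      · exact Or.inl h2
      · exact Or.inr ⟨h1, h2⟩
    · rintro (h2 | ⟨h1, h2⟩)
      · exact ⟨((hq a).2 x h2).trans_le hn, Or.inl h2⟩
      · exact ⟨h1, Or.inr h2⟩
  have hhom : ∀ n, Hom T q.N c a (cut H' n) := by
    intro n
    refine ⟨hH't.subset fun x hx => ?_, fun y hy => ?_⟩
    · exact (mem_cut.1 hx).2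
    · exact hH'sub (mem_cut.1 hy).2
  have hlen : ∀ k, ∃ n, q.N ≤ n ∧ k ≤ (lab (q.E a ∪ cut H' n)).length := by
    intro k
    obtain ⟨n, hn⟩ := hg2 k
    refine ⟨max n q.N, le_max_right _ _, ?_⟩
    rw [← hcut _ (le_max_right _ _)]
    exact hn.trans (hl _ _ (endExt_cut _ (le_max_left _ _))).length_le
  refine ⟨g, fun D hD => ?_, fun k => ?_, hg3⟩
  · obtain ⟨n, hn1, hn2⟩ := hlen (lab (q.E a ∪ D)).length
    have h1 := hg1 n
    rw [hcut n hn1] at h1
    exact pref_of_compat h1 hn2 (hc.2.1 a D _ hD (hhom n))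
  · obtain ⟨n, -, hn2⟩ := hlen k
    exact ⟨_, hhom n, hn2⟩

/-- EMG-4b.  If the labels in the colour `a` have unbounded length then the colour class is infinite
(otherwise there are only finitely many `D` with `Hom T N c a D`). -/
theorem infinite_of_unbounded {q : Par} {c : ℕ → Fin q.K} {a : Fin q.K}
    (h : ∀ k, ∃ D, Hom T q.N c a D ∧ k ≤ (lab (q.E a ∪ D)).length) :
    {y | q.N ≤ y ∧ c y = a}.Infinite := by
  intro hfin
  obtain ⟨D, hD, hk⟩ := h
    ((hfin.toFinset.powerset.sup fun D => (lab (q.E a ∪ D)).length) + 1)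
  have hsub : D ∈ hfin.toFinset.powerset := by
    rw [Finset.mem_powerset]
    intro y hy
    rw [Set.Finite.mem_toFinset]
    exact hD.2 y hy
  have := Finset.le_sup (f := fun D => (lab (q.E a ∪ D)).length) hsub
  omega

/-- EMG-4c.  Some colour class is infinite (pigeonhole). -/
theorem exists_infinite_class {K : ℕ} (N : ℕ) (c : ℕ → Fin K) :
    ∃ a : Fin K, {y | N ≤ y ∧ c y = a}.Infinite := by
  by_contra hno
  push Not at hno
  have h1 : (⋃ a : Fin K, {y | N ≤ y ∧ c y = a}).Finite := Set.finite_iUnion fun a => by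
    exact hno a
  have h2 : Set.Ici N ⊆ ⋃ a : Fin K, {y | N ≤ y ∧ c y = a} := by
    intro y hy
    rw [Set.mem_iUnion]
    exact ⟨c y, hy, rfl⟩
  exact (Set.Ici_infinite N) (h1.subset h2)

private theorem exists_max_aux {q : Par} (n : ℕ) : ∀ (S : Finset (Fin q.K)) (b : Fin q.K → ℕ),
    q.K ≤ S.card + n → (Cls T lab { q with S := S, b := b }).Nonempty →
    ∃ (S : Finset (Fin q.K)) (b : Fin q.K → ℕ),
      (Cls T lab { q with S := S, b := b }).Nonempty ∧
      ∀ a, a ∉ S → ∀ c ∈ Cls T lab { q with S := S, b := b }, ∀ k, ∃ D, Hom T q.N c a D ∧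
        k ≤ (lab (q.E a ∪ D)).length := by
  induction n with
  | zero =>
    intro S b hS hne
    have h1 : S = Finset.univ := by
      rw [← Finset.card_eq_iff_eq_univ, Fintype.card_fin]
      refine le_antisymm ?_ (by omega)
      have := Finset.card_le_univ S
      rwa [Fintype.card_fin] at this
    exact ⟨S, b, hne, fun a ha => absurd (by rw [h1]; exact Finset.mem_univ a) ha⟩
  | succ n ih =>
    intro S b hS hne
    by_cases hgood : ∀ a, a ∉ S → ∀ c ∈ Cls T lab { q with S := S, b := b }, ∀ k, ∃ D,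
        Hom T q.N c a D ∧ k ≤ (lab (q.E a ∪ D)).length
    · exact ⟨S, b, hne, hgood⟩
    · push Not at hgood
      obtain ⟨a, haS, c, hc, k, hk⟩ := hgood
      refine ih (insert a S) (Function.update b a k) ?_ ⟨c, hc.1, hc.2.1, ?_⟩
      · rw [Finset.card_insert_of_notMem haS]
        omega
      · intro a' ha' D hD
        have ha'' : a' ∈ insert a S := ha'
        show (lab (q.E a' ∪ D)).length ≤ Function.update b a k a'
        by_cases h : a' = a
        · rw [h, Function.update_self]
          rw [h] at hD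
          exact (hk D hD).le
        · rw [Function.update_of_ne h]
          exact hc.2.2 a' ((Finset.mem_insert.1 ha'').resolve_left h) D hD

/-- EMG-4d.  Maximal set of bounded colours.  Proof.  Among all `(S, b)` for which the class is
nonempty (there is one: `q.S, q.b`) take one with `S.card` maximal (`S.card ≤ K`).  If `a ∉ S`, `c` in the
class, and all labels in colour `a` had length `< k`, then `c` would be in the class of
`(insert a S, Function.update b a k)`. -/
theorem exists_max {q : Par} (hne : (Cls T lab q).Nonempty) :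
    ∃ (S : Finset (Fin q.K)) (b : Fin q.K → ℕ),
      (Cls T lab { q with S := S, b := b }).Nonempty ∧
      ∀ a, a ∉ S → ∀ c ∈ Cls T lab { q with S := S, b := b }, ∀ k, ∃ D, Hom T q.N c a D ∧
        k ≤ (lab (q.E a ∪ D)).length :=
  exists_max_aux q.K q.S q.b (by omega) hne

private theorem isOpen_hom {K : ℕ} (N : ℕ) (a : Fin K) (D : Finset ℕ) :
    IsOpen {c : ℕ → Fin K | Hom T N c a D} := by
  have h1 : {c : ℕ → Fin K | Hom T N c a D} =
      {_c : ℕ → Fin K | Trn T (D : Set ℕ)} ∩
        ⋂ y ∈ D, {c : ℕ → Fin K | N ≤ y ∧ c y = a} := by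
    ext c
    simp only [Hom, Set.mem_inter_iff, Set.mem_ofPred_eq, Set.mem_iInter]
  rw [h1]
  refine isOpen_const.inter (isOpen_biInter_finset fun y _ => ?_)
  have h2 : Continuous fun c : ℕ → Fin K => c y := continuous_apply y
  exact (isOpen_discrete {b : Fin K | N ≤ y ∧ b = a}).preimage h2

/-- EMG-4e.  The class is closed (each clause is a closed condition on `c`: it only involves the
values of `c` at finitely many places; topology: product of the discrete ones). -/
theorem isClosed_cls (q : Par) : IsClosed (Cls T lab q) := by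
  have h1 : Cls T lab q =
      (⋂ y : ℕ, {c : ℕ → Fin q.K | q.N ≤ y → ∀ x ∈ q.E (c y), x < y ∧
        T x y = decide (x ∈ q.u (c y))}) ∩
      ((⋂ a, ⋂ D, ⋂ D', {c : ℕ → Fin q.K | Hom T q.N c a D → Hom T q.N c a D' →
        ¬ Incomp (lab (q.E a ∪ D)) (lab (q.E a ∪ D'))}) ∩
      ⋂ a, ⋂ (_ : a ∈ q.S), ⋂ D, {c : ℕ → Fin q.K | Hom T q.N c a D →
        (lab (q.E a ∪ D)).length ≤ q.b a}) := by
    ext c
    simp only [Cls, Set.mem_inter_iff, Set.mem_ofPred_eq, Set.mem_iInter]
  rw [h1]
  refine (isClosed_iInter fun y => ?_).inter ((isClosed_iInter fun a => isClosed_iInter fun D =>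
    isClosed_iInter fun D' => ?_).inter (isClosed_iInter fun a => isClosed_iInter fun _ =>
    isClosed_iInter fun D => ?_))
  · have h2 : Continuous fun c : ℕ → Fin q.K => c y := continuous_apply y
    exact (isClosed_discrete {b : Fin q.K | q.N ≤ y → ∀ x ∈ q.E b, x < y ∧
      T x y = decide (x ∈ q.u b)}).preimage h2
  · exact isClosed_imp (isOpen_hom _ _ _) (isClosed_imp (isOpen_hom _ _ _) isClosed_const)
  · exact isClosed_imp (isOpen_hom _ _ _) isClosed_const

/-- EMG-4f.  For a fixed string `τ` the set of colourings for which all labels in colour `a` are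
compatible with `τ` is closed. -/
theorem isClosed_compat (q : Par) (τ : List Bool) :
    IsClosed {c : ℕ → Fin q.K | ∀ D, Hom T q.N c q.a D → ¬ Incomp (lab (q.E q.a ∪ D)) τ} := by
  have h1 : {c : ℕ → Fin q.K | ∀ D, Hom T q.N c q.a D → ¬ Incomp (lab (q.E q.a ∪ D)) τ} =
      ⋂ D, {c : ℕ → Fin q.K | Hom T q.N c q.a D → ¬ Incomp (lab (q.E q.a ∪ D)) τ} := by
    ext c
    simp only [Set.mem_ofPred_eq, Set.mem_iInter]
  rw [h1]
  exact isClosed_iInter fun D => isClosed_imp (isOpen_hom _ _ _) isClosed_const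

end Pool.Agent.helper72.EMG
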