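import Pool.Agent.helper72.EMG.Ls

/-!
# EMG-5. Lemma S: finitely many failing sets do not cover a cofinite set
-/

set_option autoImplicit false

namespace Pool.Agent.helper72.EMG

variable {T : ℕ → ℕ → Bool} {lab : Finset ℕ → List Bool}

/-- EMG-5a.  The class of a good parameter is empty.
Proof.  Suppose not.  By `exists_max` we may assume (replacing `S, b`) that for all `a ∉ S` and all `c` in the
class the labels in colour `a` have unbounded length (*).  Take `c₀` in the class and (4c) a colour `a` with
infinite class; by `exists_label_real` the labels in colour `a` are unbounded, so `a ∉ S` (third clause of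
`Cls`).  Put `q' := {q with S, b, a := a}` (`Cls` does not depend on the field `a`).
By (*), 4b and `exists_label_real` every `c` in the class has a label real `g_c` in colour `a`, which
meets or avoids all `Wop T lab i`.
`g_c` does not meet `WCls T lab q'` : a `σ` in it is incompatible with some label of colour `a`, which is
an initial segment of `g_c`.  So `g_{c₀}` avoids it (`i = Idx.cls q'`): there is `n` such that no extension
of `σ₀ = g_{c₀}↾n` is in `WCls T lab q'`.  For `m : ℕ` let `τ_m = σ₀ ++ List.replicate m false`; so there is `c`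
in the class with all labels in colour `a` compatible with `τ_m`.  The sets
`𝒦_m = {c ∈ Cls | ∀ D, Hom .. → ¬ Incomp (lab (E a ∪ D)) τ_m}` are closed, nonempty and decreasing in
the compact space `ℕ → Fin K`, so there is a common element `c`
(`IsCompact.nonempty_iInter_of_sequence_nonempty_isCompact_isClosed`).  By `pref_of_all` every `τ_m` is
an initial segment of `g_c`.  So `g_c k = false` for `k ≥ n`.
Then `g_c` neither meets nor avoids `WZero n` (`i = Idx.zero n`): no initial segment has a `true` at a place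
`≥ n`; and every initial segment `ρ` has the extension `ρ ++ List.replicate n false ++ [true]` in `WZero n`.
Contradiction. -/
theorem cls_empty (hT : IsTour T) (hl : LabMono lab) (hA : HypA T lab) {q : Par}
    (hq : q.Ok T) : Cls T lab q = ∅ := by
  by_contra hne
  have hne' : (Cls T lab q).Nonempty := Set.nonempty_iff_ne_empty.2 hne
  obtain ⟨S, b, ⟨c₀, hc₀⟩, hmax⟩ := exists_max hne'
  obtain ⟨a, ha⟩ := exists_infinite_class q.N c₀
  have hqa : ∀ a : Fin q.K, Par.Ok T { q with S := S, b := b, a := a } := fun a => hq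
  -- the colour `a` is not in `S`
  have haS : a ∉ S := by
    intro haS
    obtain ⟨g, -, hg, -⟩ := exists_label_real hT hl hA (q := { q with S := S, b := b })
      (hqa q.a) hc₀ ha
    obtain ⟨D, hD, hD'⟩ := hg (b a + 1)
    have h1 : (lab (q.E a ∪ D)).length ≤ b a := hc₀.2.2 a haS D hD
    have h2 : b a + 1 ≤ (lab (q.E a ∪ D)).length := hD'
    omega
  -- the label reals
  have hreal : ∀ c ∈ Cls T lab { q with S := S, b := b, a := a }, ∃ g : ℕ → Bool,
      (∀ D, Hom T q.N c a D → Pref (lab (q.E a ∪ D)) g) ∧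
      (∀ k, ∃ D, Hom T q.N c a D ∧ k ≤ (lab (q.E a ∪ D)).length) ∧
      ∀ i : Idx, Meets g (Wop T lab i) ∨ Avoids g (Wop T lab i) := by
    intro c hc
    have h1 : ∀ k, ∃ D, Hom T q.N c a D ∧ k ≤ (lab (q.E a ∪ D)).length :=
      hmax a haS c hc
    have h2 : {y | q.N ≤ y ∧ c y = a}.Infinite :=
      infinite_of_unbounded (q := { q with S := S, b := b, a := a }) h1
    exact exists_label_real hT hl hA (q := { q with S := S, b := b, a := a }) (hqa a) hc h2
  obtain ⟨g₀, hg1, -, hg3⟩ := hreal c₀ hc₀
  have hav : Avoids g₀ (WCls T lab { q with S := S, b := b, a := a }) := by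
    rcases hg3 (Idx.cls { q with S := S, b := b, a := a }) with h | h
    · exfalso
      obtain ⟨σ, hσ, hp⟩ := meets_iff.1 h
      obtain ⟨D, hD, hi⟩ := hσ c₀ hc₀
      exact not_incomp_of_pref (hg1 D hD) hp hi
    · exact h
  obtain ⟨n, hn⟩ := hav
  set τ : ℕ → List Bool := fun m => (List.range n).map g₀ ++ List.replicate m false with hτ
  have hlen : ∀ m, (τ m).length = n + m := fun m => by simp [hτ]
  set 𝒦 : ℕ → Set (ℕ → Fin q.K) := fun m =>
    {c | c ∈ Cls T lab { q with S := S, b := b, a := a } ∧
      ∀ D, Hom T q.N c a D → ¬ Incomp (lab (q.E a ∪ D)) (τ m)} with h𝒦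
  have hclosed : ∀ m, IsClosed (𝒦 m) := fun m =>
    (isClosed_cls { q with S := S, b := b, a := a }).inter
      (isClosed_compat { q with S := S, b := b, a := a } (τ m))
  have hnonempty : ∀ m, (𝒦 m).Nonempty := by
    intro m
    have h1 := hn (τ m) (List.prefix_append _ _)
    by_contra hemp
    apply h1
    intro c hc
    by_contra hno
    push Not at hno
    exact hemp ⟨c, hc, fun D hD => hno D hD⟩
  have hanti : ∀ m, 𝒦 (m + 1) ⊆ 𝒦 m := by
    rintro m c ⟨hc, hc'⟩
    refine ⟨hc, fun D hD hi => hc' D hD (hi.mono (List.prefix_refl _) ?_)⟩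
    refine ⟨[false], ?_⟩
    simp [hτ, List.replicate_succ']
  obtain ⟨c, hc⟩ := IsCompact.nonempty_iInter_of_sequence_nonempty_isCompact_isClosed 𝒦 hanti
    hnonempty (hclosed 0).isCompact hclosed
  have hcm : ∀ m, c ∈ 𝒦 m := fun m => Set.mem_iInter.1 hc m
  obtain ⟨g, h1, h2, h3⟩ := hreal c (hcm 0).1
  have hpre : ∀ m, Pref (τ m) g := by
    intro m
    refine pref_of_all {σ | ∃ D, Hom T q.N c a D ∧ σ = lab (q.E a ∪ D)} ?_ ?_ ?_
    · rintro σ ⟨D, hD, rfl⟩
      exact h1 D hD
    · intro k
      obtain ⟨D, hD, hk⟩ := h2 k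
      exact ⟨_, ⟨D, hD, rfl⟩, hk⟩
    · rintro σ ⟨D, hD, rfl⟩
      exact (hcm m).2 D hD
  have hfalse : ∀ k, n ≤ k → g k = false := by
    intro k hk
    have h4 := pref_iff_get.1 (hpre (k + 1)) k (by rw [hlen]; omega)
    rw [← h4]
    have h5 : (τ (k + 1))[k]? = some false := by
      simp only [hτ]
      rw [List.getElem?_append_right (by simpa using hk)]
      simp only [List.length_map, List.length_range]
      rw [List.getElem?_replicate, if_pos (by omega)]
    have h6 := List.getElem?_eq_some_iff.1 h5
    exact h6.2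
  rcases h3 (Idx.zero n) with h | h
  · obtain ⟨σ, ⟨j, hj, hσ⟩, hp⟩ := meets_iff.1 h
    obtain ⟨hjl, hjv⟩ := List.getElem?_eq_some_iff.1 hσ
    have h4 := pref_iff_get.1 hp j hjl
    rw [hjv, hfalse j hj] at h4
    exact absurd h4 (by decide)
  · obtain ⟨N', hN'⟩ := h
    refine hN' ((List.range N').map g ++ (List.replicate n false ++ [true]))
      (List.prefix_append _ _) ⟨N' + n, by omega, ?_⟩
    rw [List.getElem?_append_right (by simp)]
    simp

/-- EMG-5b.  Lemma S.  Proof.  Otherwise let `N` be larger than all elements of the `E a` and of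
`{y | ∀ a, y ∉ U a}` and than... (finite set); if `K = 0` this is immediate.  Define `c y` = some `a` with
`y ∈ U a` for `y ≥ N` and arbitrary (`K > 0`) for `y < N`.  Then `c ∈ Cls T lab q` for
`q = ⟨K, N, E, u, ∅, 0, a⟩`, contradiction to `cls_empty`. -/
theorem lemS (hT : IsTour T) (hl : LabMono lab) (hA : HypA T lab) (K : ℕ)
    (E u : Fin K → Finset ℕ) (U : Fin K → Set ℕ) (hf : ∀ a, Failing T lab (E a) (u a) (U a)) :
    {y | ∀ a, y ∉ U a}.Infinite := by
  classical
  by_contra hfin
  rw [Set.not_infinite] at hfin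
  rcases Nat.eq_zero_or_pos K with hK | hK
  · subst hK
    have h1 : {y : ℕ | ∀ a : Fin 0, y ∉ U a} = Set.univ := by
      ext y
      simp
    rw [h1] at hfin
    exact Set.infinite_univ hfin
  · set N : ℕ := (Finset.univ.sup fun a => (E a).sup id) + hfin.toFinset.sup id + 1 with hN
    have hE : ∀ a, ∀ x ∈ E a, x < N := by
      intro a x hx
      have h1 : x ≤ (E a).sup id := Finset.le_sup (f := id) hx
      have h2 : (E a).sup id ≤ Finset.univ.sup fun a => (E a).sup id :=
        Finset.le_sup (f := fun a => (E a).sup id) (Finset.mem_univ a)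
      omega
    have hU : ∀ y, N ≤ y → ∃ a, y ∈ U a := by
      intro y hy
      by_contra hno
      push Not at hno
      have h1 : y ∈ hfin.toFinset := by
        rw [Set.Finite.mem_toFinset]
        exact hno
      have h2 : y ≤ hfin.toFinset.sup id := Finset.le_sup (f := id) h1
      omega
    set c : ℕ → Fin K := fun y => if h : ∃ a, y ∈ U a then h.choose else ⟨0, hK⟩ with hc
    have hcU : ∀ y, N ≤ y → y ∈ U (c y) := by
      intro y hy
      have h1 := hU y hy
      have h2 : c y = h1.choose := by
        simp only [hc]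
        rw [dif_pos h1]
      rw [h2]
      exact h1.choose_spec
    have hHom : ∀ a D, Hom T N c a D → (D : Set ℕ) ⊆ U a := by
      intro a D hD y hy
      obtain ⟨h1, h2⟩ := hD.2 y hy
      have h3 := hcU y h1
      rwa [h2] at h3
    have hmem : c ∈ Cls T lab ⟨K, N, E, u, ∅, fun _ => 0, ⟨0, hK⟩⟩ := by
      refine ⟨fun y hy x hx => (hf (c y)).2.1 y (hcU y hy) x hx, ?_, ?_⟩
      · intro a D D' hD hD'
        exact (hf a).2.2 D D' (hHom a D hD) (hHom a D' hD') hD.1 hD'.1
      · intro a ha
        exact absurd ha (Finset.notMem_empty a)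
    have hemp := cls_empty hT hl hA (q := ⟨K, N, E, u, ∅, fun _ => 0, ⟨0, hK⟩⟩)
      (fun a => ⟨(hf a).1, fun x hx => hE a x hx⟩)
    rw [hemp] at hmem
    exact hmem

end Pool.Agent.helper72.EMG
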