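import Pool.Agent.helper72.EMG.Defs

/-!
# EMG-14. Relative computability
-/

set_option autoImplicit false

namespace Pool.Agent.helper72.EMG

/-- the oracle `X` (a real) as a set of (total) functions -/
def orc (X : ℕ → Bool) : Set (ℕ →. ℕ) := {fun n => Part.some (cond (X n) 1 0)}

/-- a set of strings is `Σ⁰₁` relative to `X`: it is the domain of a partial function which is
recursive in `X` -/
def Sigma01 (X : ℕ → Bool) (S : Set (List Bool)) : Prop :=
  ∃ f : List Bool →. ℕ, RecursiveIn (orc X) f ∧ ∀ σ, σ ∈ S ↔ (f σ).Dom

/-- `G` is 1-generic relative to `X` -/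
def OneGeneric (X G : ℕ → Bool) : Prop := ∀ S, Sigma01 X S → Meets G S ∨ Avoids G S

private theorem comp_tot {O : Set (ℕ →. ℕ)} {f h : ℕ → ℕ}
    (hf : Nat.RecursiveIn O (fun n => Part.some (f n)))
    (hh : Nat.RecursiveIn O (fun n => Part.some (h n))) :
    Nat.RecursiveIn O (fun n => Part.some (f (h n))) := by
  refine (Nat.RecursiveIn.comp hf hh).of_eq fun n => ?_
  exact Part.bind_some _ _

private theorem pair_tot {O : Set (ℕ →. ℕ)} {f h : ℕ → ℕ}
    (hf : Nat.RecursiveIn O (fun n => Part.some (f n)))
    (hh : Nat.RecursiveIn O (fun n => Part.some (h n))) :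
    Nat.RecursiveIn O (fun n => Part.some (Nat.pair (f n) (h n))) := by
  refine (Nat.RecursiveIn.pair hf hh).of_eq fun n => ?_
  simp [Seq.seq]

private theorem prim_tot {O : Set (ℕ →. ℕ)} {f : ℕ → ℕ} (hf : Primrec f) :
    Nat.RecursiveIn O (fun n => Part.some (f n)) :=
  Nat.Primrec.recursiveIn (Primrec.nat_iff.1 hf)

/-- add one value to a coded list -/
private def app (p : ℕ) : ℕ :=
  Encodable.encode (((Encodable.decode (α := List ℕ) p.unpair.1).getD []) ++ [p.unpair.2])

private theorem app_primrec : Primrec app := by
  refine Primrec.encode.comp ?_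
  refine Primrec.list_append.comp ?_ ?_
  · exact Primrec.option_getD.comp (Primrec.decode.comp (Primrec.fst.comp Primrec.unpair))
      (Primrec.const [])
  · exact Primrec.list_cons.comp (Primrec.snd.comp Primrec.unpair) (Primrec.const [])

/-- EMG-14a.  Course of values: if `t` is recursive in `O` then so is `s ↦ code of [t 0, .., t (s-1)]`.
Proof.  `RecursiveIn.prec` with the step `(y, i) ↦ encode (decode i ++ [t y])`, where
`(i, m) ↦ encode (decode i ++ [m])` is a primitive recursive function of natural numbers
(`Primrec.list_append` or `Primrec.list_concat`, `Nat.Primrec.recursiveIn`). -/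
theorem recursiveIn_history {O : Set (ℕ →. ℕ)} {t : ℕ → ℕ}
    (ht : Nat.RecursiveIn O (fun n => Part.some (t n))) :
    Nat.RecursiveIn O (fun s => Part.some (Encodable.encode ((List.range s).map t))) := by
  have h0 : Nat.RecursiveIn O (fun _ => Part.some (Encodable.encode ([] : List ℕ))) :=
    prim_tot (Primrec.const _)
  have hr : Nat.RecursiveIn O (fun p => Part.some (p.unpair.2.unpair.2)) :=
    prim_tot (Primrec.snd.comp (Primrec.unpair.comp (Primrec.snd.comp Primrec.unpair)))
  have hl : Nat.RecursiveIn O (fun p => Part.some (p.unpair.2.unpair.1)) :=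
    prim_tot (Primrec.fst.comp (Primrec.unpair.comp (Primrec.snd.comp Primrec.unpair)))
  have hstep : Nat.RecursiveIn O
      (fun p => Part.some (app (Nat.pair p.unpair.2.unpair.2 (t p.unpair.2.unpair.1)))) :=
    comp_tot (prim_tot app_primrec) (pair_tot hr (comp_tot ht hl))
  have hp := Nat.RecursiveIn.prec h0 hstep
  have hz : Nat.RecursiveIn O (fun s => Part.some (Nat.pair 0 s)) :=
    prim_tot (Primrec₂.natPair.comp (Primrec.const 0) Primrec.id)
  refine (Nat.RecursiveIn.comp hp hz).of_eq fun s => ?_
  refine (Part.bind_some _ _).trans ?_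
  simp only [Nat.unpair_pair]
  induction s with
  | zero => rfl
  | succ s ih =>
    simp only at ih ⊢
    rw [ih]
    refine (Part.bind_some _ _).trans ?_
    simp only [Nat.unpair_pair, app, Encodable.encodek, Option.getD_some, List.range_succ,
      List.map_append, List.map_cons, List.map_nil]

/-- EMG-14b.  If `t` and the real `P` are recursive in `X` then the set of strings `σ` such that
`P (k, [t 0, .., t (s-1)], σ)` is true for some `s` is `Σ⁰₁` relative to `X`.
Proof.  `f σ` = the least `s` with `P (..) = true`: `Nat.RecursiveIn.rfind` applied to the function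
`(a, s) ↦ 1 - cond (P (Nat.pair k (Nat.pair (code of the history at s) a))) 1 0`, precomposed with
`decode`/`encode` of strings (`RecursiveIn` for `f : List Bool →. ℕ` is by definition
`Nat.RecursiveIn O fun n => Part.bind (decode n) fun a => (f a).map encode`; note that the domain of this
function consists of codes of strings, so one has to intersect with the primitive recursive set of
codes: e.g. bind with the partial recursive function `n ↦ decode (α := List Bool) n`,
`Partrec.recursiveIn` / `Computable.decode`, `Partrec`). -/
theorem sigma01_of_search {X : ℕ → Bool} {t : ℕ → ℕ} {P : ℕ → Bool}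
    (ht : Nat.RecursiveIn (orc X) (fun n => Part.some (t n)))
    (hP : Nat.RecursiveIn (orc X) (fun n => Part.some (cond (P n) 1 0))) (k : ℕ) :
    Sigma01 X {σ | ∃ s, P (Nat.pair k (Nat.pair (Encodable.encode ((List.range s).map t))
      (Encodable.encode σ))) = true} := by
  have hH := recursiveIn_history ht
  have hl : Nat.RecursiveIn (orc X) (fun p => Part.some (p.unpair.1)) :=
    prim_tot (Primrec.fst.comp Primrec.unpair)
  have hr : Nat.RecursiveIn (orc X) (fun p => Part.some (p.unpair.2)) :=
    prim_tot (Primrec.snd.comp Primrec.unpair)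
  have hk : Nat.RecursiveIn (orc X) (fun _ => Part.some k) := prim_tot (Primrec.const k)
  have harg := pair_tot hk (pair_tot (comp_tot hH hr) hl)
  have hneg : Nat.RecursiveIn (orc X) (fun n => Part.some (1 - n)) :=
    prim_tot (Primrec.nat_sub.comp (Primrec.const 1) Primrec.id)
  have hF := comp_tot hneg (comp_tot hP harg)
  have hR := Nat.RecursiveIn.rfind hF
  have hS : Nat.RecursiveIn (orc X) _ := RecursiveIn.some (α := List Bool) (O := orc X)
  have hC := Nat.RecursiveIn.comp hR hS
  let f : List Bool →. ℕ := fun σ => Nat.rfind fun s =>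
    Part.some (P (Nat.pair k (Nat.pair (Encodable.encode ((List.range s).map t))
      (Encodable.encode σ))))
  refine ⟨f, hC.of_eq fun n => ?_, fun σ => ?_⟩
  · simp only [Part.bind_eq_bind, Part.bind_assoc]
    congr 1
    funext a
    simp only [Part.map_some, Part.bind_some, Nat.unpair_pair]
    have h1 : (f a).map Encodable.encode = f a := Part.map_id' (fun x => rfl) _
    rw [h1]
    congr 1
    funext s
    rw [Part.map_eq_map, Part.map_some]
    congr 1
    cases P (Nat.pair k (Nat.pair (Encodable.encode ((List.range s).map t))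
      (Encodable.encode a))) <;> rfl
  · have h2 : (f σ).Dom ↔ ∃ s, true ∈ (Part.some (P (Nat.pair k (Nat.pair
        (Encodable.encode ((List.range s).map t)) (Encodable.encode σ)))) : Part Bool) ∧
        ∀ {m : ℕ}, m < s → (Part.some (P (Nat.pair k (Nat.pair
        (Encodable.encode ((List.range m).map t)) (Encodable.encode σ)))) : Part Bool).Dom :=
      Nat.rfind_dom
    rw [h2]
    constructor
    · rintro ⟨s, hs⟩
      exact ⟨s, Part.mem_some_iff.2 hs.symm, fun _ => trivial⟩
    · rintro ⟨s, hs, _⟩
      exact ⟨s, (Part.mem_some_iff.1 hs).symm⟩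

end Pool.Agent.helper72.EMG
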