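import Pool.Agent.helper72.EMG.Vu
import Pool.Agent.helper72.EMG.Bg

/-!
# EMG-8. Existence of structures above alive cohorts
-/

set_option autoImplicit false

namespace Pool.Agent.helper72.EMG

variable {T : ℕ → ℕ → Bool} {lab : Finset ℕ → List Bool}

private theorem Sx_pref_getD (σ : List Bool) : Pref σ (fun n => σ.getD n false) := by
  rw [pref_iff_get]
  intro n h
  simp [List.getD_eq_getElem?_getD, h]

private theorem Sx_color (κ : UCtx T lab) (c : ℕ → Fin 8) : ∃ i, {y | c y = i} ∈ κ.U := by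
  obtain ⟨i, hi⟩ := Ultrafilter.eq_pure_of_finite (Ultrafilter.map c κ.U)
  refine ⟨i, ?_⟩
  have h : ({i} : Set (Fin 8)) ∈ Ultrafilter.map c κ.U := by
    rw [hi]
    simp
  exact h

/-- EMG-8a.  One block.  Let `F` be a finite set of alive nodes, `S ∈ κ.U`, `n : ℕ`.  There is a finite
8-big family `J` of nonempty transitive sets `D ⊆ S`, whose elements are above all elements of the nodes in `F` and see
the true world on them, on which `w` is constantly `a`, with
`r E ↾ n` an initial segment of `lab (E ∪ D)` and `lab (E ∪ D)` not an initial segment of `r E'`, for all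
`E, E' ∈ F`.
Proof.  The set of all such `D` is in `V`: `κ.V.sub` for the set of all `y ∈ S` with `w y = a` which are
above ... and see ... (`UCtx.see`), `lim`, `off`; `D ≠ ∅` : if `F` is nonempty take `E ∈ F` and use
`off E (g extending lab E)`; in general use the alive node `∅`: `off ∅ g` with `g` a real extending `lab ∅`.
Apply `exists_big 8`: for a colouring `c : ℕ → Fin 8` one of the colour classes is in `κ.U`
(`Ultrafilter.eventually_exists..`, finite partition), so the set of `D` contained in it is in `V`, and meets the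
set. -/
theorem exists_block (κ : UCtx T lab) (ν : VCtx κ) {a : Bool} (ha : {y | κ.w y = a} ∈ κ.U)
    (F : Finset (Finset ℕ)) (hF : ∀ E ∈ F, Alive T κ.w E) {S : Set ℕ} (hS : S ∈ κ.U) (n : ℕ) :
    ∃ J : Finset (Finset ℕ), Big 8 J ∧ ∀ D ∈ J, D.Nonempty ∧ Trn T (D : Set ℕ) ∧
      (D : Set ℕ) ⊆ S ∧ (∀ y ∈ D, κ.w y = a) ∧
      (∀ E ∈ F, ∀ y ∈ D, ∀ x ∈ E, x < y ∧ T x y = κ.w x) ∧
      (∀ E ∈ F, (List.range n).map (ν.r E) <+: lab (E ∪ D)) ∧
      ∀ E ∈ F, ∀ E' ∈ F, ¬ Pref (lab (E ∪ D)) (ν.r E') := by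
  set Vs : Set (Finset ℕ) := {D | D.Nonempty ∧ Trn T (D : Set ℕ) ∧
      (D : Set ℕ) ⊆ S ∧ (∀ y ∈ D, κ.w y = a) ∧
      (∀ E ∈ F, ∀ y ∈ D, ∀ x ∈ E, x < y ∧ T x y = κ.w x) ∧
      (∀ E ∈ F, (List.range n).map (ν.r E) <+: lab (E ∪ D)) ∧
      ∀ E ∈ F, ∀ E' ∈ F, ¬ Pref (lab (E ∪ D)) (ν.r E')} with hVs
  have hV : Vs ∈ ν.V := by
    have h1 := ν.sub _ (κ.see (F.sup id) (Filter.inter_mem hS ha))
    have h2 : ∀ E ∈ F, {D | (List.range n).map (ν.r E) <+: lab (E ∪ D)} ∈ ν.V :=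
      fun E hE => ν.lim E (hF E hE) n
    have h3 : ∀ E ∈ F, ∀ E' ∈ F, {D | ¬ Pref (lab (E ∪ D)) (ν.r E')} ∈ ν.V :=
      fun E hE E' _ => ν.off E (hF E hE) _
    have h4 := ν.off ∅ (alive_empty _) (fun n => (lab ∅).getD n false)
    have h2' : (⋂ E ∈ F, {D | (List.range n).map (ν.r E) <+: lab (E ∪ D)}) ∈
        (ν.V : Filter (Finset ℕ)) := (Filter.biInter_finset_mem F).2 h2
    have h3' : (⋂ E ∈ F, ⋂ E' ∈ F, {D | ¬ Pref (lab (E ∪ D)) (ν.r E')}) ∈
        (ν.V : Filter (Finset ℕ)) :=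
      (Filter.biInter_finset_mem F).2 fun E hE => (Filter.biInter_finset_mem F).2 fun E' hE' =>
        h3 E hE E' hE'
    filter_upwards [h1, h2', h3', h4] with D hD1 hD2 hD3 hD4
    simp only [Set.mem_iInter, Set.mem_ofPred_eq] at hD2 hD3
    obtain ⟨hs, ht⟩ := hD1
    refine ⟨?_, ht, fun y hy => (hs hy).1.1, fun y hy => (hs hy).1.2, ?_, hD2, hD3⟩
    · rw [Finset.nonempty_iff_ne_empty]
      rintro rfl
      apply hD4
      rw [Finset.empty_union]
      exact Sx_pref_getD _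
    · intro E hE y hy x hx
      exact (hs hy).2 x (Finset.mem_sup.2 ⟨E, hE, hx⟩)
  obtain ⟨J, hJ, hb⟩ := exists_big 8 Vs (fun c => by
    obtain ⟨i, hi⟩ := Sx_color κ c
    have h1 := ν.sub _ hi
    obtain ⟨D, hD1, hD2⟩ := (ν.V).nonempty_of_mem (Filter.inter_mem hV h1)
    refine ⟨D, hD1, fun x hx y hy => ?_⟩
    have e1 : c x = i := hD2.1 hx
    have e2 : c y = i := hD2.1 hy
    rw [e1, e2])
  exact ⟨J, hb, fun D hD => hJ D hD⟩

/-- the properties of the first `j` blocks -/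
private structure SxPt (κ : UCtx T lab) (ν : VCtx κ) (a : Bool) (C : Finset (Finset ℕ)) (j : ℕ)
    (B : ℕ → Finset (Finset ℕ)) : Prop where
  big : ∀ p < j, Big 8 (B p)
  ne : ∀ p < j, ∀ D ∈ B p, D.Nonempty
  trn : ∀ p < j, ∀ D ∈ B p, Trn T (D : Set ℕ)
  sg : ∀ p < j, ∀ D ∈ B p, ∀ y ∈ D, κ.w y = a
  sees : ∀ p < j, ∀ D ∈ B p, ∀ y ∈ D, ∀ E ∈ C, ∀ x ∈ E, x < y ∧ T x y = κ.w x
  lt : ∀ p q, p < q → q < j → ∀ D ∈ B p, ∀ D' ∈ B q, ∀ x ∈ D, ∀ y ∈ D', x < y ∧ T x y = κ.w x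
  r1 : ∀ p < j, ∀ E ∈ C, ∀ E' ∈ C, ∀ D ∈ B p, ¬ Pref (lab (E ∪ D)) (ν.r E')
  r2 : ∀ p q, p < q → q < j → ∀ E ∈ C, ∀ E' ∈ C, ∀ D ∈ B p, ∀ D' ∈ B p, ∀ G ∈ B q,
    ¬ Pref (lab (E ∪ D ∪ G)) (ν.r (E' ∪ D'))
  lab1 : ∀ p q, p < q → q < j → ∀ E ∈ C, ∀ E' ∈ C, ∀ D ∈ B p, ∀ D' ∈ B q,
    Incomp (lab (E ∪ D)) (lab (E' ∪ D'))
  lab2 : ∀ p q q', p < q → q < q' → q' < j → ∀ E ∈ C, ∀ E' ∈ C, ∀ D ∈ B p, ∀ D' ∈ B p,
    ∀ G ∈ B q, ∀ G' ∈ B q', Incomp (lab (E ∪ D ∪ G)) (lab (E' ∪ D' ∪ G'))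

private theorem Sx_step (κ : UCtx T lab) (hT : IsTour T) (ν : VCtx κ) {a : Bool}
    (ha : {y | κ.w y = a} ∈ κ.U) {C : Finset (Finset ℕ)} (hC : ∀ E ∈ C, Alive T κ.w E) {j : ℕ}
    {B : ℕ → Finset (Finset ℕ)} (h : SxPt κ ν a C j B) : ∃ B', SxPt κ ν a C (j + 1) B' := by
  set F : Finset (Finset ℕ) := C ∪ (Finset.range j).biUnion
    (fun p => (C ×ˢ B p).image (fun b => b.1 ∪ b.2)) with hFdef
  have hCF : ∀ E ∈ C, E ∈ F := fun E hE => Finset.mem_union_left _ hE
  have hEDF : ∀ E ∈ C, ∀ p < j, ∀ D ∈ B p, E ∪ D ∈ F := by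
    intro E hE p hp D hD
    refine Finset.mem_union_right _ (Finset.mem_biUnion.2 ⟨p, Finset.mem_range.2 hp, ?_⟩)
    exact Finset.mem_image.2 ⟨(E, D), Finset.mem_product.2 ⟨hE, hD⟩, rfl⟩
  have hF : ∀ E ∈ F, Alive T κ.w E := by
    intro E hE
    rcases Finset.mem_union.1 hE with hE | hE
    · exact hC E hE
    · obtain ⟨p, hp, hE⟩ := Finset.mem_biUnion.1 hE
      obtain ⟨⟨E1, D⟩, h1, rfl⟩ := Finset.mem_image.1 hE
      obtain ⟨h2, h3⟩ := Finset.mem_product.1 h1
      have hp' := Finset.mem_range.1 hp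
      exact alive_union hT (hC E1 h2) (h.trn p hp' D h3)
        (fun y hy x hx => h.sees p hp' D h3 y hy E1 h2 x hx) (fun _ _ => rfl)
        (h.sg p hp' D h3)
  set Fs : Finset (Finset ℕ) := F ∪ (Finset.range j).biUnion
    (fun q => (F ×ˢ B q).image (fun b => b.1 ∪ b.2)) with hFsdef
  set n : ℕ := Fs.sup (fun E => (lab E).length) with hn
  have hn1 : ∀ E ∈ F, (lab E).length ≤ n := fun E hE =>
    Finset.le_sup (f := fun E => (lab E).length) (Finset.mem_union_left _ hE)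
  have hn2 : ∀ E ∈ F, ∀ q < j, ∀ G ∈ B q, (lab (E ∪ G)).length ≤ n := by
    intro E hE q hq G hG
    refine Finset.le_sup (f := fun E => (lab E).length)
      (Finset.mem_union_right _ (Finset.mem_biUnion.2 ⟨q, Finset.mem_range.2 hq, ?_⟩))
    exact Finset.mem_image.2 ⟨(E, G), Finset.mem_product.2 ⟨hE, hG⟩, rfl⟩
  set X : Finset ℕ := (Finset.range j).biUnion (fun p => (B p).sup id) with hX
  have hXm : ∀ p < j, ∀ D ∈ B p, ∀ x ∈ D, x ∈ X := by
    intro p hp D hD x hx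
    exact Finset.mem_biUnion.2 ⟨p, Finset.mem_range.2 hp, Finset.mem_sup.2 ⟨D, hD, hx⟩⟩
  obtain ⟨J, hJ8, hJ⟩ := exists_block κ ν ha F hF (κ.see X (Filter.univ_mem)) n
  refine ⟨Function.update B j J, ?_⟩
  have e1 : ∀ p, p < j → Function.update B j J p = B p := fun p hp =>
    Function.update_of_ne (by omega) _ _
  have e2 : Function.update B j J j = J := Function.update_self _ _ _
  have cases1 : ∀ p, p < j + 1 → p < j ∨ p = j := fun p hp => by omega
  constructor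
  · intro p hp
    rcases cases1 p hp with h1 | rfl
    · rw [e1 p h1]; exact h.big p h1
    · rw [e2]; exact hJ8
  · intro p hp
    rcases cases1 p hp with h1 | rfl
    · rw [e1 p h1]; exact h.ne p h1
    · rw [e2]; exact fun D hD => (hJ D hD).1
  · intro p hp
    rcases cases1 p hp with h1 | rfl
    · rw [e1 p h1]; exact h.trn p h1
    · rw [e2]; exact fun D hD => (hJ D hD).2.1
  · intro p hp
    rcases cases1 p hp with h1 | rfl
    · rw [e1 p h1]; exact h.sg p h1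
    · rw [e2]; exact fun D hD => (hJ D hD).2.2.2.1
  · intro p hp
    rcases cases1 p hp with h1 | rfl
    · rw [e1 p h1]; exact h.sees p h1
    · rw [e2]; exact fun D hD y hy E hE x hx => (hJ D hD).2.2.2.2.1 E (hCF E hE) y hy x hx
  · intro p q hpq hq
    rcases cases1 q hq with h1 | rfl
    · rw [e1 q h1, e1 p (hpq.trans h1)]; exact h.lt p q hpq h1
    · rw [e2, e1 p hpq]
      intro D hD D' hD' x hx y hy
      have hy' := (hJ D' hD').2.2.1 hy
      exact hy'.2 x (hXm p hpq D hD x hx)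
  · intro p hp
    rcases cases1 p hp with h1 | rfl
    · rw [e1 p h1]; exact h.r1 p h1
    · rw [e2]
      exact fun E hE E' hE' D hD => (hJ D hD).2.2.2.2.2.2 E (hCF E hE) E' (hCF E' hE')
  · intro p q hpq hq
    rcases cases1 q hq with h1 | rfl
    · rw [e1 q h1, e1 p (hpq.trans h1)]; exact h.r2 p q hpq h1
    · rw [e2, e1 p hpq]
      intro E hE E' hE' D hD D' hD' G hG
      exact (hJ G hG).2.2.2.2.2.2 _ (hEDF E hE p hpq D hD) _ (hEDF E' hE' p hpq D' hD')
  · intro p q hpq hq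
    rcases cases1 q hq with h1 | rfl
    · rw [e1 q h1, e1 p (hpq.trans h1)]; exact h.lab1 p q hpq h1
    · rw [e2, e1 p hpq]
      intro E hE E' hE' D hD D' hD'
      exact incomp_of_not_pref (h.r1 p hpq E hE E' hE' D hD)
        (hn1 _ (hEDF E hE p hpq D hD)) ((hJ D' hD').2.2.2.2.2.1 E' (hCF E' hE'))
  · intro p q q' hpq hqq hq'
    rcases cases1 q' hq' with h1 | rfl
    · rw [e1 q' h1, e1 q (hqq.trans h1), e1 p (hpq.trans (hqq.trans h1))]
      exact h.lab2 p q q' hpq hqq h1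
    · rw [e2, e1 q hqq, e1 p (hpq.trans hqq)]
      intro E hE E' hE' D hD D' hD' G hG G' hG'
      exact incomp_of_not_pref (h.r2 p q hpq hqq E hE E' hE' D hD D' hD' G hG)
        (hn2 _ (hEDF E hE p (hpq.trans hqq) D hD) q hqq G hG)
        ((hJ G' hG').2.2.2.2.2.1 _ (hEDF E' hE' p (hpq.trans hqq) D' hD'))

private theorem Sx_all (κ : UCtx T lab) (hT : IsTour T) (ν : VCtx κ) {a : Bool}
    (ha : {y | κ.w y = a} ∈ κ.U) {C : Finset (Finset ℕ)} (hC : ∀ E ∈ C, Alive T κ.w E) (j : ℕ) :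
    ∃ B, SxPt κ ν a C j B := by
  induction j with
  | zero =>
    refine ⟨fun _ => ∅, ?_⟩
    constructor <;> intros <;> omega
  | succ j ih =>
    obtain ⟨B, hB⟩ := ih
    exact Sx_step κ hT ν ha hC hB

/-- EMG-8b.  Structures exist.  Proof.  Choose `a` with `{y | w y = a} ∈ κ.U` (`exists_sign`).
We construct blocks `B 0, .., B M` one after the other.  Let
`F_j = C ∪ {E ∪ D | E ∈ C, p < j, D ∈ B p}` (finite, all alive by `alive_union`), let `n_j` be at least the lengths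
of all labels of `E ∪ D`, `E ∈ F_p`, `D ∈ B p`, `p < j`, let `S_j` be the set of all `y` which are above all
elements of the nodes in `F_j` and of the sets `D ∈ B p`, `p < j` (needed if `C = ∅`), and which see the true world on
them (`UCtx.see`), and let `B j` be the family of `exists_block` for `F_j, S_j, n_j`.
Then: `trn`, `ne`, `big`, `sees`, `lt` are clear; `pair`: for `p < q`, `D ∈ B p`, `D' ∈ B q`: the elements `x` of
`D` have `w x = a` and the elements of `D'` see the true world on `D`, so `D ∪ D'` is transitive by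
`trn_union` (`D` is alive: `w` is constant on it).
`lab1`: `p < q`, `E, E' ∈ C ⊆ F_p`: `lab (E ∪ D)` is not an initial segment of `r E'` and has length `≤ n_q`, and
`r E' ↾ n_q <+: lab (E' ∪ D')`; so they are incompatible (`incomp_of_not_pref`).
`lab2`: `p < q < q'`, `E ∪ D`, `E' ∪ D' ∈ F_q`, `G ∈ B q`, `G' ∈ B q'`: `lab (E ∪ D ∪ G)` is not an initial segment of
`r (E' ∪ D')` and has length `≤ n_{q'}`, and `r (E' ∪ D') ↾ n_{q'} <+: lab (E' ∪ D' ∪ G')`.
(Formally: prove by induction on `j` that there is `B` with all these properties for indices `< j`; or a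
recursion.  It is convenient to have one auxiliary structure listing the properties of
`B 0, .., B (j-1)`, including the two label properties with `r`, and to extend `B` by `Function.update`.) -/
theorem exists_str (κ : UCtx T lab) (hT : IsTour T) (hl : LabMono lab)
    (C : Finset (Finset ℕ)) (hC : ∀ E ∈ C, Alive T κ.w E) (M : ℕ) :
    ∃ B, IsStr T lab C κ.w M B := by
  obtain ⟨a, ha⟩ := κ.exists_sign
  obtain ⟨ν⟩ := exists_vctx κ hT hl
  obtain ⟨B, hB⟩ := Sx_all κ hT ν ha hC (M + 1)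
  refine ⟨B, ?_⟩
  constructor
  · exact fun p hp => hB.trn p (by omega)
  · exact fun p hp => hB.ne p (by omega)
  · exact fun p hp => hB.sees p (by omega)
  · exact fun p q hpq hq D hD D' hD' x hx y hy => (hB.lt p q hpq (by omega) D hD D' hD' x hx y hy).1
  · intro p q hpq hq D hD D' hD'
    rw [Finset.coe_union]
    refine trn_union hT (u := κ.w) (hB.trn p (by omega) D hD) ?_ (hB.trn q (by omega) D' hD') ?_
    · intro x hx y hy h1 h2
      rw [hB.sg p (by omega) D hD x hx] at h1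
      rw [hB.sg p (by omega) D hD y hy] at h2
      rw [h1] at h2
      exact absurd h2 (by decide)
    · exact fun y hy x hx => hB.lt p q hpq (by omega) D hD D' hD' x hx y hy
  · exact fun p hp => hB.big p (by omega)
  · exact fun p q hpq hq => hB.lab1 p q hpq (by omega)
  · exact fun p q q' hpq hqq hq => hB.lab2 p q q' hpq hqq (by omega)

end Pool.Agent.helper72.EMG
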