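import Pool.Agent.helper72.EMG.Iw
import Pool.Agent.helper72.EMG.Sx

/-!
# EMG-11. One step of the true path
-/

set_option autoImplicit false

namespace Pool.Agent.helper72.EMG

open Classical

variable {T : ℕ → ℕ → Bool} {lab : Finset ℕ → List Bool}

/-! ### auxiliary lemmas -/

private theorem choose_congr {α : Type} {p q : α → Prop} (h : p = q) (hp : ∃ a, p a)
    (hq : ∃ a, q a) : hp.choose = hq.choose := by
  subst h
  rfl

private theorem pick_congr {σ σ' : ℕ → Bool} (h : ∀ i < 11, σ i = σ' i) :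
    pickb σ = pickb σ' ∧ picke σ = picke σ' := by
  have hP : (fun b : Bool => ∃ e : ℕ → ℕ, (∀ i j, i < j → j < 6 → e i < e j) ∧
      ∀ i < 6, e i < 11 ∧ σ (e i) = b) = (fun b : Bool => ∃ e : ℕ → ℕ,
      (∀ i j, i < j → j < 6 → e i < e j) ∧ ∀ i < 6, e i < 11 ∧ σ' (e i) = b) := by
    funext b
    apply propext
    constructor
    · rintro ⟨e, h1, h2⟩
      exact ⟨e, h1, fun i hi => ⟨(h2 i hi).1, by rw [← h _ (h2 i hi).1]; exact (h2 i hi).2⟩⟩
    · rintro ⟨e, h1, h2⟩
      exact ⟨e, h1, fun i hi => ⟨(h2 i hi).1, by rw [h _ (h2 i hi).1]; exact (h2 i hi).2⟩⟩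
  have hb : (exists_pick σ).choose = (exists_pick σ').choose := choose_congr hP _ _
  refine ⟨hb, ?_⟩
  refine choose_congr ?_ _ _
  funext e
  apply propext
  constructor
  · rintro ⟨h1, h2⟩
    exact ⟨h1, fun i hi => ⟨(h2 i hi).1, by rw [← h _ (h2 i hi).1, ← hb]; exact (h2 i hi).2⟩⟩
  · rintro ⟨h1, h2⟩
    exact ⟨h1, fun i hi => ⟨(h2 i hi).1, by rw [h _ (h2 i hi).1, hb]; exact (h2 i hi).2⟩⟩

private theorem pos_le_bnd (F : Finset ℕ) (v : ℕ → Bool) {i : ℕ} (hi : i < 11) :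
    pos (code F v) i ≤ bnd F := by
  have h1 : pos (code F v) 10 ≤ bnd F :=
    Finset.le_sup (f := fun z => pos z 10)
      (Finset.mem_powerset.mpr (Finset.filter_subset _ _))
  have h2 : pos (code F v) i ≤ pos (code F v) 10 := by
    unfold pos
    omega
  exact h2.trans h1

private theorem sub_congr {J : Finset (Finset ℕ)} {v v' : ℕ → Bool} (b : Bool)
    (h : ∀ D ∈ J, ∀ x ∈ D, v x = v' x) : sub J v b = sub J v' b := by
  ext D
  rw [mem_sub, mem_sub]
  constructor
  · rintro ⟨h1, h2⟩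
    exact ⟨h1, fun x hx => by rw [← h D h1 x hx]; exact h2 x hx⟩
  · rintro ⟨h1, h2⟩
    exact ⟨h1, fun x hx => by rw [h D h1 x hx]; exact h2 x hx⟩

private theorem sgn_congr {C : Finset (Finset ℕ)} {v v' : ℕ → Bool} {B : ℕ → Finset (Finset ℕ)}
    (h : ∀ x ∈ supp C, v x = v' x)
    (hB : ∀ p ≤ bnd (supp C), ∀ D ∈ B p, ∀ x ∈ D, v x = v' x) :
    ∀ i < 11, sgn C B v i = sgn C B v' i := by
  intro i hi
  have hc : code (supp C) v = code (supp C) v' := code_eq.mpr h
  have h1 : sub (B (pos (code (supp C) v) i)) v true =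
      sub (B (pos (code (supp C) v') i)) v' true := by
    rw [← hc]
    exact sub_congr true (hB _ (pos_le_bnd _ _ hi))
  unfold sgn
  simp only [h1]

private theorem blk_congr {C : Finset (Finset ℕ)} {v v' : ℕ → Bool} {B : ℕ → Finset (Finset ℕ)}
    (h : ∀ x ∈ supp C, v x = v' x)
    (hB : ∀ p ≤ bnd (supp C), ∀ D ∈ B p, ∀ x ∈ D, v x = v' x) :
    bit C B v = bit C B v' ∧ ∀ l, blk C B v l = blk C B v' l := by
  have hp := pick_congr (sgn_congr h hB)
  refine ⟨hp.1, fun l => ?_⟩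
  unfold blk
  rw [hp.2, code_eq.mpr h]

private theorem child1_sub {C : Finset (Finset ℕ)} {u v v' : ℕ → Bool}
    {B : ℕ → Finset (Finset ℕ)} (h : ∀ x ∈ supp C, v x = v' x)
    (hB : ∀ p ≤ bnd (supp C), ∀ D ∈ B p, ∀ x ∈ D, v x = v' x) :
    child1 C u B v ⊆ child1 C u B v' := by
  obtain ⟨hb, hk⟩ := blk_congr h hB
  intro E' hE'
  obtain ⟨E, hE, hv, l, m, hlm, D, hD, D', hD', hvD, hvD', rfl⟩ := mem_child1.mp hE'
  have hl := inner_lt _ hlm
  have hl1 : l < 6 := lt_trans hl.1 hl.2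
  refine mem_child1.mpr ⟨E, hE, fun x hx => ?_, l, m, hlm, D, ?_, D', ?_, fun x hx => ?_,
    fun x hx => ?_, rfl⟩
  · rw [← h x (mem_supp.mpr ⟨E, hE, hx⟩)]
    exact hv x hx
  · rw [← hk]
    exact hD
  · rw [← hk]
    exact hD'
  · rw [← hb, ← hB _ (blk_bounds C B v hl1).2 D hD x hx]
    exact hvD x hx
  · rw [← hb, ← hB _ (blk_bounds C B v hl.2).2 D' hD' x hx]
    exact hvD' x hx

private theorem child2_sub {C : Finset (Finset ℕ)} {u v v' v'' : ℕ → Bool}
    {B : ℕ → Finset (Finset ℕ)}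
    (hB : ∀ p ≤ bnd (supp C), ∀ D ∈ B p, ∀ x ∈ D, v' x = v'' x) :
    child2 C u B v v' ⊆ child2 C u B v v'' := by
  intro E' hE'
  obtain ⟨E, hE, hv, l, m, hlm, D, hD, D', hD', hvD, hvD', hwD, hwD', rfl⟩ := mem_child2.mp hE'
  have hl := cross_lt _ hlm
  have hl1 : l < 6 := lt_trans hl.1 hl.2
  refine mem_child2.mpr ⟨E, hE, hv, l, m, hlm, D, hD, D', hD', hvD, hvD', fun x hx => ?_,
    fun x hx => ?_, rfl⟩
  · rw [← hB _ (blk_bounds C B v hl1).2 D hD x hx]
    exact hwD x hx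
  · rw [← hB _ (blk_bounds C B v hl.2).2 D' hD' x hx]
    exact hwD' x hx

private theorem isStr_congrB {C : Finset (Finset ℕ)} {u : ℕ → Bool} {M : ℕ}
    {B B' : ℕ → Finset (Finset ℕ)} (h : ∀ p ≤ M, B' p = B p)
    (hs : IsStr T lab C u M B) : IsStr T lab C u M B' where
  trn p hp D hD := hs.trn p hp D (h p hp ▸ hD)
  ne p hp D hD := hs.ne p hp D (h p hp ▸ hD)
  sees p hp D hD := hs.sees p hp D (h p hp ▸ hD)
  lt p q hpq hq D hD D' hD' := hs.lt p q hpq hq D (h p (hpq.le.trans hq) ▸ hD) D'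
    (h q hq ▸ hD')
  pair p q hpq hq D hD D' hD' := hs.pair p q hpq hq D (h p (hpq.le.trans hq) ▸ hD) D'
    (h q hq ▸ hD')
  big p hp := by
    rw [h p hp]
    exact hs.big p hp
  lab1 p q hpq hq E hE E' hE' D hD D' hD' := hs.lab1 p q hpq hq E hE E' hE' D
    (h p (hpq.le.trans hq) ▸ hD) D' (h q hq ▸ hD')
  lab2 p q q' hpq hqq hq E hE E' hE' D hD D' hD' G hG G' hG' :=
    hs.lab2 p q q' hpq hqq hq E hE E' hE' D (h p (hpq.le.trans (hqq.le.trans hq)) ▸ hD) D'
      (h p (hpq.le.trans (hqq.le.trans hq)) ▸ hD') G (h q (hqq.le.trans hq) ▸ hG) G'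
      (h q' hq ▸ hG')

/-- EMG-11a.  Round 1 uses 4-big families: the eleven blocks are 8-big; if `bit = true` the chosen ones have
`sgn = true`, i.e. `Big 4 (sub .. true)`; if `bit = false` they have `sgn = false` and `Big.split` gives
`Big 4 (sub .. false)`. -/
theorem big_K1 {C : Finset (Finset ℕ)} {B : ℕ → Finset (Finset ℕ)} {v : ℕ → Bool}
    (hB : ∀ p ≤ bnd (supp C), Big 8 (B p)) {l : ℕ} (hl : l < 6) : Big 4 (K1 C B v l) := by
  have h8 := hB _ (blk_bounds C B v hl).2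
  have hs : sgn C B v (picke (sgn C B v) l) = bit C B v := (picke_spec (sgn C B v) l hl).2
  have hsplit := Big.split (K := 4) h8 v
  unfold K1
  cases hb : bit C B v with
  | true =>
    rw [hb] at hs
    exact of_decide_eq_true hs
  | false =>
    rw [hb] at hs
    rcases hsplit with h | h
    · exact absurd h (of_decide_eq_false hs)
    · exact h

/-- EMG-11b.  The combinatorics of the two rounds.
Proof.  For `l < 6` let `P l` be `Big 2 (sub (K l) v2 (!b))`.  If `P l` fails then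
`Big 2 (sub (K l) v2 b)` (`Big.split`), in particular there is `D ∈ K l` with `v2 = b` on `D`.  By `h2` in
each of the groups `{0,1,2}`, `{3,4,5}` at most one `l` fails `P`.  Let `Q l` be: there is
`D ∈ sub (K l) v2 (!b)` with `w = !b` on `D`.  If `P l` and not `Q l` then (`Big.two`) there is `D ∈ K l` with `w = b` on `D`.
By `hw` in each group at most one `l` satisfies `P l ∧ ¬ Q l`.  So in each group some `l` satisfies
`Q l` (three elements, at least two with `P`, at least one of them with `Q`).  This gives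
`(l,m) ∈ cross`. -/
theorem two_rounds (K : ℕ → Finset (Finset ℕ)) (b : Bool) (v2 w : ℕ → Bool)
    (hK : ∀ l < 6, Big 4 (K l))
    (h2 : ∀ l m, (l, m) ∈ inner → ∀ D ∈ K l, ∀ D' ∈ K m,
      ¬ ((∀ x ∈ D, v2 x = b) ∧ ∀ x ∈ D', v2 x = b))
    (hw : ∀ l m, (l, m) ∈ inner → ∀ D ∈ K l, ∀ D' ∈ K m,
      ¬ ((∀ x ∈ D, w x = b) ∧ ∀ x ∈ D', w x = b)) :
    ∃ l m, (l, m) ∈ cross ∧ ∃ D ∈ K l, ∃ D' ∈ K m, (∀ x ∈ D, v2 x = !b) ∧
      (∀ x ∈ D', v2 x = !b) ∧ (∀ x ∈ D, w x = !b) ∧ ∀ x ∈ D', w x = !b := by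
  have key : ∀ l < 6, (∃ D ∈ K l, ∀ x ∈ D, v2 x = b) ∨ (∃ D ∈ K l, ∀ x ∈ D, w x = b) ∨
      ∃ D ∈ K l, (∀ x ∈ D, v2 x = !b) ∧ ∀ x ∈ D, w x = !b := by
    intro l hl
    have h4 := Big.split (K := 2) (hK l hl) v2
    have h5 : Big 2 (sub (K l) v2 b) ∨ Big 2 (sub (K l) v2 (!b)) := by
      cases b
      · exact h4.symm
      · exact h4
    rcases h5 with h5 | h5
    · obtain ⟨D, hD⟩ := h5.nonempty (by norm_num)
      rw [mem_sub] at hD
      exact Or.inl ⟨D, hD.1, hD.2⟩
    · obtain ⟨D, hD, b', hb'⟩ := h5.two w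
      rw [mem_sub] at hD
      by_cases hbb : b' = b
      · subst hbb
        exact Or.inr (Or.inl ⟨D, hD.1, hb'⟩)
      · have hb2 : b' = !b := by
          revert hbb
          cases b <;> cases b' <;> simp
        subst hb2
        exact Or.inr (Or.inr ⟨D, hD.1, hD.2, hb'⟩)
  have grp : ∀ i j k, i < 6 → j < 6 → k < 6 → (i, j) ∈ inner → (i, k) ∈ inner →
      (j, k) ∈ inner → ∃ l, (l = i ∨ l = j ∨ l = k) ∧
        ∃ D ∈ K l, (∀ x ∈ D, v2 x = !b) ∧ ∀ x ∈ D, w x = !b := by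
    intro i j k hi hj hk hij hik hjk
    have nA : ∀ l m, (l, m) ∈ inner → ¬ ((∃ D ∈ K l, ∀ x ∈ D, v2 x = b) ∧
        ∃ D ∈ K m, ∀ x ∈ D, v2 x = b) := by
      rintro l m hlm ⟨⟨D, hD, h⟩, D', hD', h'⟩
      exact h2 l m hlm D hD D' hD' ⟨h, h'⟩
    have nW : ∀ l m, (l, m) ∈ inner → ¬ ((∃ D ∈ K l, ∀ x ∈ D, w x = b) ∧
        ∃ D ∈ K m, ∀ x ∈ D, w x = b) := by
      rintro l m hlm ⟨⟨D, hD, h⟩, D', hD', h'⟩
      exact hw l m hlm D hD D' hD' ⟨h, h'⟩
    by_contra hc
    have ci : ¬ ∃ D ∈ K i, (∀ x ∈ D, v2 x = !b) ∧ ∀ x ∈ D, w x = !b :=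
      fun h => hc ⟨i, Or.inl rfl, h⟩
    have cj : ¬ ∃ D ∈ K j, (∀ x ∈ D, v2 x = !b) ∧ ∀ x ∈ D, w x = !b :=
      fun h => hc ⟨j, Or.inr (Or.inl rfl), h⟩
    have ck : ¬ ∃ D ∈ K k, (∀ x ∈ D, v2 x = !b) ∧ ∀ x ∈ D, w x = !b :=
      fun h => hc ⟨k, Or.inr (Or.inr rfl), h⟩
    have ki := key i hi
    have kj := key j hj
    have kk := key k hk
    have a1 := nA i j hij
    have a2 := nA i k hik
    have a3 := nA j k hjk
    have w1 := nW i j hij
    have w2 := nW i k hik
    have w3 := nW j k hjk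
    clear hc key nA nW
    rcases ki with ki | ki | ki
    · rcases kj with kj | kj | kj
      · exact a1 ⟨ki, kj⟩
      · rcases kk with kk | kk | kk
        · exact a2 ⟨ki, kk⟩
        · exact w3 ⟨kj, kk⟩
        · exact ck kk
      · exact cj kj
    · rcases kj with kj | kj | kj
      · rcases kk with kk | kk | kk
        · exact a3 ⟨kj, kk⟩
        · exact w2 ⟨ki, kk⟩
        · exact ck kk
      · exact w1 ⟨ki, kj⟩
      · exact cj kj
    · exact ci ki
  obtain ⟨l, hl, D, hD, hD1, hD2⟩ := grp 0 1 2 (by norm_num) (by norm_num) (by norm_num)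
    (by decide) (by decide) (by decide)
  obtain ⟨m, hm, D', hD', hD1', hD2'⟩ := grp 3 4 5 (by norm_num) (by norm_num) (by norm_num)
    (by decide) (by decide) (by decide)
  refine ⟨l, m, ?_, D, hD, D', hD', hD1, hD1', hD2, hD2'⟩
  rcases hl with rfl | rfl | rfl <;> rcases hm with rfl | rfl | rfl <;> decide

/-- EMG-11c.  `child1` only depends on the world on the cohort and on the blocks. -/
theorem child1_congr {C : Finset (Finset ℕ)} {u v v' : ℕ → Bool} {B : ℕ → Finset (Finset ℕ)}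
    (h : ∀ x ∈ supp C, v x = v' x)
    (hB : ∀ p ≤ bnd (supp C), ∀ D ∈ B p, ∀ x ∈ D, v x = v' x) :
    child1 C u B v = child1 C u B v' := by
  apply Finset.Subset.antisymm
  · exact child1_sub h hB
  · exact child1_sub (fun x hx => (h x hx).symm) fun p hp D hD x hx => (hB p hp D hD x hx).symm

/-- `child2` depends on the second world only through the blocks -/
theorem child2_congr {C : Finset (Finset ℕ)} {u v v' v'' : ℕ → Bool}
    {B : ℕ → Finset (Finset ℕ)}
    (hB : ∀ p ≤ bnd (supp C), ∀ D ∈ B p, ∀ x ∈ D, v' x = v'' x) :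
    child2 C u B v v' = child2 C u B v v'' := by
  apply Finset.Subset.antisymm
  · exact child2_sub hB
  · exact child2_sub fun p hp D hD x hx => (hB p hp D hD x hx).symm

/-- EMG-11d.  General existence of a successful search: if from some finite set `F` on the function
`Q (tr s T) s` has the value `C` at every stage `s > m` which sees the true world on `F`, and `C` is a cohort of
alive nodes, then the search succeeds.
Proof.  `exists_str` for `C`, `M = bnd (supp C)`; put `B' p = B p` for `p ≤ M`, `∅` otherwise.  Let `m'` be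
larger than `m, s0` and all elements of the `D ∈ B' p`, `E ∈ C`; by `UCtx.exists_see` (for
`F ∪ supp C`) there is `s > m'` which sees the true world on `F ∪ supp C`.  Then `Q (tr s T) s = some C`,
`IsStr T lab C κ.w M B'`, hence `IsStr T lab C (wld T s) M B'` (`isStr_congr`, `wld_eq`), hence
`IsStr (tr s T) (trl s lab) C (wld T s) M B'` (`isStr_tr`).  `search_exists`. -/
theorem search_of_true (κ : UCtx T lab) (hT : IsTour T) (hl : LabMono lab)
    {Q : (ℕ → ℕ → Bool) → ℕ → Option (Finset (Finset ℕ))} {s0 : ℕ} {C : Finset (Finset ℕ)}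
    (hC : ∀ E ∈ C, Alive T κ.w E) (F : Finset ℕ) (m : ℕ)
    (hQ : ∀ s, m < s → (∀ x ∈ F, x < s ∧ T x s = κ.w x) → Q (tr s T) s = some C) :
    ∃ d, search Q s0 T lab = some d := by
  obtain ⟨B, hB⟩ := exists_str κ hT hl C hC (bnd (supp C))
  set M := bnd (supp C) with hM
  set B' : ℕ → Finset (Finset ℕ) := fun p => if p ≤ M then B p else ∅ with hB'
  have e1 : ∀ p ≤ M, B' p = B p := fun p hp => by
    simp only [hB', if_pos hp]
  have e2 : ∀ p, M < p → B' p = ∅ := fun p hp => by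
    simp only [hB', if_neg (not_le.mpr hp)]
  set F' : Finset ℕ := (Finset.range (M + 1)).biUnion fun p => supp (B p) with hF'
  have hF'2 : ∀ p, ∀ D ∈ B' p, ∀ x ∈ D, x ∈ F' := by
    intro p D hD x hx
    by_cases hp : p ≤ M
    · rw [e1 p hp] at hD
      exact Finset.mem_biUnion.mpr ⟨p, Finset.mem_range.mpr (Nat.lt_succ_of_le hp),
        mem_supp.mpr ⟨D, hD, hx⟩⟩
    · rw [e2 p (not_le.mp hp)] at hD
      exact absurd hD (Finset.notMem_empty D)
  obtain ⟨s, hs, hsee⟩ := κ.exists_see (F ∪ supp C) (m + s0 + F'.sup id)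
  have hlt : ∀ p, ∀ D ∈ B' p, ∀ x ∈ D, x < s := by
    intro p D hD x hx
    have h1 : x ≤ F'.sup id := Finset.le_sup (f := id) (hF'2 p D hD x hx)
    omega
  have hw : ∀ x ∈ supp C, κ.w x = wld T s x := by
    intro x hx
    have h1 := hsee x (Finset.mem_union_right _ hx)
    rw [wld_eq T h1.1.le, h1.2]
  have hS : IsStr T lab C (wld T s) M B' := isStr_congr hw (isStr_congrB e1 hB)
  have hS' : IsStr (tr s T) (trl s lab) C (wld T s) M B' := by
    refine (isStr_tr ?_ ?_).mpr hS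
    · intro E hE x hx
      exact (hsee x (Finset.mem_union_right _ (mem_supp.mpr ⟨E, hE, hx⟩))).1.le
    · intro p _ D hD x hx
      exact (hlt p D hD x hx).le
  refine search_exists (s := s) (by omega) (hQ s (by omega) fun x hx =>
    hsee x (Finset.mem_union_left _ hx)) (B := B') ⟨hS', e2, hlt⟩

/-- EMG-11e.  The root cohort is closed at some stage (`search_of_true`). -/
theorem exists_root (κ : UCtx T lab) (hT : IsTour T) (hl : LabMono lab) :
    ∃ d, entry T lab [] = some d := by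
  refine search_of_true κ hT hl (C := {∅}) ?_ ∅ 0 fun s _ _ => rfl
  intro E hE
  rw [Finset.mem_singleton] at hE
  subst hE
  exact alive_empty κ.w

/-- EMG-11f.  The first child for the true world exists.  Proof.  `search_of_true` with
`C = child1 d.C d.u d.B κ.w` (alive by `mem_child1`, `alive_node`), and `F` the union of `supp d.C` and all `D ∈ d.B p`,
`p ≤ bnd (supp d.C)`.  For `s` seeing the true world on `F`: `code (supp d.C) (wld (tr s T) s)` is the code of
`κ.w` (`wld_tr`, `wld_eq`, `code_eq`) and `child1_congr`. -/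
theorem exists_kid1 (κ : UCtx T lab) (hT : IsTour T) (hl : LabMono lab) {d : Dat}
    (hd : Inv T lab d) : ∃ d1, kid1 T lab d (code (supp d.C) κ.w) = some d1 := by
  have hal : ∀ E ∈ child1 d.C d.u d.B κ.w, Alive T κ.w E := by
    intro E' hE'
    obtain ⟨E, hE, hv, l, m, hlm, D, hD, D', hD', hvD, hvD', rfl⟩ := mem_child1.mp hE'
    have hl := inner_lt _ hlm
    exact alive_node hT hd hE (blk_lt _ _ _ hl.1 hl.2) (blk_bounds _ _ _ hl.2).2 hD hD' hv
      hvD hvD'
  refine search_of_true κ hT hl hal (supp d.C ∪ (Finset.range (bnd (supp d.C) + 1)).biUnion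
    fun p => supp (d.B p)) 0 ?_
  intro s _ hsee
  have hw : ∀ x ∈ supp d.C ∪ (Finset.range (bnd (supp d.C) + 1)).biUnion
      fun p => supp (d.B p), wld (tr s T) s x = κ.w x := by
    intro x hx
    rw [wld_tr, wld_eq T (hsee x hx).1.le, (hsee x hx).2]
  have hc : code (supp d.C) (wld (tr s T) s) = code (supp d.C) κ.w :=
    code_eq.mpr fun x hx => hw x (Finset.mem_union_left _ hx)
  show (if code (supp d.C) (wld (tr s T) s) = code (supp d.C) κ.w then _ else none) = _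
  rw [if_pos hc]
  congr 1
  refine child1_congr (fun x hx => hw x (Finset.mem_union_left _ hx)) fun p hp D hD x hx =>
    hw x (Finset.mem_union_right _ (Finset.mem_biUnion.mpr ⟨p, Finset.mem_range.mpr
      (Nat.lt_succ_of_le hp), mem_supp.mpr ⟨D, hD, hx⟩⟩))

/-- EMG-11g.  The second child for the true world exists if the true world is not on pattern for any
node of the first child.  Proof.  `search_of_true` with `C = child2 d.C d.u d.B d1.u κ.w`; its nodes
`E ∪ D ∪ D'` are alive in the world `κ.w`: `d1.u = d.u` on `E` and `κ.w = d1.u` on `supp d.C` (equal codes), and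
`κ.w` is constant on `D ∪ D'` (`alive_node`).  `F` = the union of `supp d.C`, `supp d1.C` and all `D ∈ d.B p`,
`p ≤ bnd (supp d.C)`. -/
theorem exists_kid2 (κ : UCtx T lab) (hT : IsTour T) (hl : LabMono lab) {d d1 : Dat}
    (hd : Inv T lab d) (h1 : kid1 T lab d (code (supp d.C) κ.w) = some d1)
    (hn : ¬ ∃ E ∈ d1.C, ∀ x ∈ E, κ.w x = d1.u x) :
    ∃ d2, kid2 T lab d d1 (code (supp d.C) κ.w) = some d2 := by
  obtain ⟨hI1, hs1, hc1, hC1⟩ := kid1_inv hT hd h1
  have hwu : ∀ x ∈ supp d.C, d1.u x = κ.w x := code_eq.mp hc1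
  have hal : ∀ E ∈ child2 d.C d.u d.B d1.u κ.w, Alive T κ.w E := by
    intro E' hE'
    obtain ⟨E, hE, hv, l, m, hlm, D, hD, D', hD', hvD, hvD', hwD, hwD', rfl⟩ :=
      mem_child2.mp hE'
    have hl := cross_lt _ hlm
    refine alive_node hT hd hE (blk_lt _ _ _ hl.1 hl.2) (blk_bounds _ _ _ hl.2).2 hD hD'
      (fun x hx => ?_) hwD hwD'
    rw [← hwu x (mem_supp.mpr ⟨E, hE, hx⟩)]
    exact hv x hx
  refine search_of_true κ hT hl hal ((supp d.C ∪ supp d1.C) ∪
    (Finset.range (bnd (supp d.C) + 1)).biUnion fun p => supp (d.B p)) 0 ?_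
  intro s _ hsee
  have hw : ∀ x ∈ (supp d.C ∪ supp d1.C) ∪ (Finset.range (bnd (supp d.C) + 1)).biUnion
      fun p => supp (d.B p), wld (tr s T) s x = κ.w x := by
    intro x hx
    rw [wld_tr, wld_eq T (hsee x hx).1.le, (hsee x hx).2]
  have hc : code (supp d.C) (wld (tr s T) s) = code (supp d.C) κ.w :=
    code_eq.mpr fun x hx => hw x (Finset.mem_union_left _ (Finset.mem_union_left _ hx))
  have hn' : ¬ ∃ E ∈ d1.C, ∀ x ∈ E, wld (tr s T) s x = d1.u x := by
    rintro ⟨E, hE, h⟩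
    refine hn ⟨E, hE, fun x hx => ?_⟩
    rw [← hw x (Finset.mem_union_left _ (Finset.mem_union_right _
      (mem_supp.mpr ⟨E, hE, hx⟩)))]
    exact h x hx
  show (if code (supp d.C) (wld (tr s T) s) = code (supp d.C) κ.w ∧
    ¬ (∃ E ∈ d1.C, ∀ x ∈ E, wld (tr s T) s x = d1.u x) then _ else none) = _
  rw [if_pos ⟨hc, hn'⟩]
  congr 1
  refine child2_congr fun p hp D hD x hx =>
    hw x (Finset.mem_union_right _ (Finset.mem_biUnion.mpr ⟨p, Finset.mem_range.mpr
      (Nat.lt_succ_of_le hp), mem_supp.mpr ⟨D, hD, hx⟩⟩))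

/-- EMG-11h.  One step of the true path.
Proof.  Let `z = code (supp d.C) κ.w` and `d1` the first child (11f).  `κ.w = d1.u` on `supp d.C`.
Case 1: some `E₁ ∈ d1.C` is on pattern (`κ.w = d1.u` on `E₁`), `E₁ = E₀ ∪ D ∪ D'` as in `mem_child1`.  Then
`E' = E ∪ D ∪ D' ∈ d1.C` also (`d1.u = κ.w = d.u` on `E`) and it is on pattern; take `ρ = false`.
Case 2: none is.  Let `d2` be the second child (11g), `ρ = true`.  Apply `two_rounds` to
`K l = K1 d.C d.B d1.u l`, `b = bit d.C d.B d1.u`, `v2 = d2.u`, `w = κ.w` (`big_K1`; `h2`: otherwise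
`E ∪ D ∪ D' ∈ d1.C` would be on pattern for `d2.u`, using `d2.u = d1.u` on `supp d.C`, against `kid2_inv`; `hw`: otherwise
`E ∪ D ∪ D' ∈ d1.C` would be on pattern for `κ.w`).  The resulting `E' = E ∪ D ∪ D'` is in
`d2.C = child2 ..` and on pattern (`κ.w = d2.u`). -/
theorem step (κ : UCtx T lab) (hT : IsTour T) (hl : LabMono lab)
    {α : List (Finset ℕ × Bool)} {d : Dat} (hd : entry T lab α = some d) {E : Finset ℕ}
    (hE : E ∈ d.C) (hw : ∀ x ∈ E, κ.w x = d.u x) :
    ∃ a d' E', entry T lab (a :: α) = some d' ∧ E' ∈ d'.C ∧ (∀ x ∈ E', κ.w x = d'.u x) ∧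
      EndExt E E' ∧ E ≠ E' := by
  have hI := entry_inv hT hd
  obtain ⟨d1, h1⟩ := exists_kid1 κ hT hl hI
  obtain ⟨hI1, hs1, hc1, hC1⟩ := kid1_inv hT hI h1
  have hwu : ∀ x ∈ supp d.C, d1.u x = κ.w x := code_eq.mp hc1
  have hEs : ∀ x ∈ E, x ∈ supp d.C := fun x hx => mem_supp.mpr ⟨E, hE, hx⟩
  have hE1 : ∀ x ∈ E, d1.u x = d.u x := fun x hx => by
    rw [hwu x (hEs x hx)]
    exact hw x hx
  have hext : ∀ {p q : ℕ}, p ≤ bnd (supp d.C) → q ≤ bnd (supp d.C) → ∀ {D D' : Finset ℕ},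
      D ∈ d.B p → D' ∈ d.B q → EndExt E (E ∪ D ∪ D') ∧ E ≠ E ∪ D ∪ D' := by
    intro p q hp hq D D' hD hD'
    constructor
    · rw [Finset.union_assoc]
      refine endExt_union fun y hy x hx => ?_
      rcases Finset.mem_union.mp hy with hy | hy
      · exact (hI.str.sees p hp D hD y hy E hE x hx).1
      · exact (hI.str.sees q hq D' hD' y hy E hE x hx).1
    · intro he
      obtain ⟨y, hy⟩ := hI.str.ne p hp D hD
      have hyE : y ∈ E := by
        rw [he]
        exact Finset.mem_union_left _ (Finset.mem_union_right _ hy)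
      exact lt_irrefl y (hI.str.sees p hp D hD y hy E hE y hyE).1
  by_cases hn : ∃ E ∈ d1.C, ∀ x ∈ E, κ.w x = d1.u x
  · obtain ⟨E1, hE1C, hE1w⟩ := hn
    rw [hC1] at hE1C
    obtain ⟨E0, hE0, hv, l, m, hlm, D, hD, D', hD', hvD, hvD', rfl⟩ := mem_child1.mp hE1C
    have hl' := inner_lt _ hlm
    have hp := (blk_bounds d.C d.B d1.u (lt_trans hl'.1 hl'.2)).2
    have hq := (blk_bounds d.C d.B d1.u hl'.2).2
    refine ⟨(code (supp d.C) κ.w, false), d1, E ∪ D ∪ D', ?_, ?_, ?_, hext hp hq hD hD'⟩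
    · simp only [entry, hd, Option.bind_some]
      exact h1
    · rw [hC1]
      exact mem_child1.mpr ⟨E, hE, hE1, l, m, hlm, D, hD, D', hD', hvD, hvD', rfl⟩
    · intro x hx
      rcases Finset.mem_union.mp hx with hx | hx
      · rcases Finset.mem_union.mp hx with hx | hx
        · exact (hwu x (hEs x hx)).symm
        · exact hE1w x (Finset.mem_union_left _ (Finset.mem_union_right _ hx))
      · exact hE1w x (Finset.mem_union_right _ hx)
  · obtain ⟨d2, h2⟩ := exists_kid2 κ hT hl hI h1 hn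
    obtain ⟨hI2, hs2, hc2, hn2, hC2⟩ := kid2_inv hT hI h1 h2
    have hwu2 : ∀ x ∈ supp d.C, d2.u x = κ.w x := code_eq.mp hc2
    have hK1 : ∀ {l : ℕ} {D : Finset ℕ}, D ∈ K1 d.C d.B d1.u l →
        D ∈ d.B (blk d.C d.B d1.u l) ∧ ∀ x ∈ D, d1.u x = bit d.C d.B d1.u := by
      intro l D hD
      exact mem_sub.mp hD
    have hin : ∀ l m, (l, m) ∈ inner → ∀ D ∈ K1 d.C d.B d1.u l, ∀ D' ∈ K1 d.C d.B d1.u m,
        E ∪ D ∪ D' ∈ d1.C := by
      intro l m hlm D hD D' hD'
      rw [hC1]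
      exact mem_child1.mpr ⟨E, hE, hE1, l, m, hlm, D, (hK1 hD).1, D', (hK1 hD').1,
        (hK1 hD).2, (hK1 hD').2, rfl⟩
    obtain ⟨l, m, hlm, D, hD, D', hD', a1, a2, b1, b2⟩ :=
      two_rounds (K1 d.C d.B d1.u) (bit d.C d.B d1.u) d2.u κ.w
        (fun l hl => big_K1 hI.str.big hl)
        (by
          rintro l m hlm D hD D' hD' ⟨e1, e2⟩
          refine hn2 ⟨_, hin l m hlm D hD D' hD', fun x hx => ?_⟩
          rcases Finset.mem_union.mp hx with hx | hx
          · rcases Finset.mem_union.mp hx with hx | hx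
            · rw [hwu2 x (hEs x hx), hwu x (hEs x hx)]
            · rw [e1 x hx, (hK1 hD).2 x hx]
          · rw [e2 x hx, (hK1 hD').2 x hx])
        (by
          rintro l m hlm D hD D' hD' ⟨e1, e2⟩
          refine hn ⟨_, hin l m hlm D hD D' hD', fun x hx => ?_⟩
          rcases Finset.mem_union.mp hx with hx | hx
          · rcases Finset.mem_union.mp hx with hx | hx
            · rw [hwu x (hEs x hx)]
            · rw [e1 x hx, (hK1 hD).2 x hx]
          · rw [e2 x hx, (hK1 hD').2 x hx])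
    have hl' := cross_lt _ hlm
    have hp := (blk_bounds d.C d.B d1.u (lt_trans hl'.1 hl'.2)).2
    have hq := (blk_bounds d.C d.B d1.u hl'.2).2
    refine ⟨(code (supp d.C) κ.w, true), d2, E ∪ D ∪ D', ?_, ?_, ?_,
      hext hp hq (hK1 hD).1 (hK1 hD').1⟩
    · simp only [entry, hd, Option.bind_some, h1]
      exact h2
    · rw [hC2]
      exact mem_child2.mpr ⟨E, hE, hE1, l, m, hlm, D, (hK1 hD).1, D', (hK1 hD').1,
        (hK1 hD).2, (hK1 hD').2, a1, a2, rfl⟩
    · intro x hx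
      rcases Finset.mem_union.mp hx with hx | hx
      · rcases Finset.mem_union.mp hx with hx | hx
        · rw [hwu2 x (hEs x hx)]
        · rw [a1 x hx, b1 x hx]
      · rw [a2 x hx, b2 x hx]

end Pool.Agent.helper72.EMG
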