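import Pool.Agent.helper72.EMG.Lt

/-!
# EMG-6. The ultrafilter `𝒰` and the true world
-/

set_option autoImplicit false

namespace Pool.Agent.helper72.EMG

/-- a nonprincipal ultrafilter which contains no failing set -/
structure UCtx (T : ℕ → ℕ → Bool) (lab : Finset ℕ → List Bool) where
  U : Ultrafilter ℕ
  free : ∀ n, {y | n < y} ∈ U
  nf : ∀ E u : Finset ℕ, ∀ S : Set ℕ, S ∈ U → ¬ Failing T lab E u S

variable {T : ℕ → ℕ → Bool} {lab : Finset ℕ → List Bool}

/-- `lemS` for a finite family of failing sets -/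
private theorem Ul_lemS (hT : IsTour T) (hl : LabMono lab) (hA : HypA T lab)
    (V : Finset (Set ℕ)) (hV : ∀ A ∈ V, ∃ E u, Failing T lab E u A) :
    {y | ∀ A ∈ V, y ∉ A}.Infinite := by
  classical
  have h1 : ∀ a : Fin V.card, ∃ E u, Failing T lab E u (V.equivFin.symm a).1 := fun a =>
    hV _ (V.equivFin.symm a).2
  choose E u h using h1
  refine (lemS hT hl hA V.card E u (fun a => (V.equivFin.symm a).1) h).mono ?_
  intro y hy A hA' hyA
  refine hy (V.equivFin ⟨A, hA'⟩) ?_
  rw [Equiv.symm_apply_apply]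
  exact hyA

/-- EMG-6a.  Existence.  Proof.  The sets `A` such that for some `K`, `E u : Fin K → Finset ℕ`,
`V : Fin K → Set ℕ` with all `V a` failing, the set `{y | y ∉ A ∧ ∀ a, y ∉ V a}` is finite, form a filter
(intersections: concatenate the families, `Fin.append` or use lists / `Fin (K + K')`), which does not contain
`∅` by `lemS`; it contains the cofinite sets and the complements of failing sets.  Take
`Ultrafilter.of`.  (Alternatively: `Filter.generate` / `FiniteInter` and
`Ultrafilter.of` with `Filter.generate_neBot_iff`.) -/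
theorem exists_uctx (hT : IsTour T) (hl : LabMono lab) (hA : HypA T lab) :
    Nonempty (UCtx T lab) := by
  classical
  obtain ⟨U, hU⟩ := Ultrafilter.exists_ultrafilter_of_finite_inter_nonempty
    ({A : Set ℕ | Aᶜ.Finite} ∪ {A : Set ℕ | ∃ E u, Failing T lab E u Aᶜ}) (by
      intro 𝒯 h𝒯
      have h1 := Ul_lemS hT hl hA
        ((𝒯.filter fun A => ∃ E u, Failing T lab E u Aᶜ).image fun A => Aᶜ) (by
          intro A hA'
          obtain ⟨B, hB, rfl⟩ := Finset.mem_image.1 hA'
          exact (Finset.mem_filter.1 hB).2)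
      have h2 : (⋃ A ∈ 𝒯.filter fun A => Aᶜ.Finite, Aᶜ : Set ℕ).Finite :=
        Set.Finite.biUnion (Finset.finite_toSet _) fun A hA' => (Finset.mem_filter.1 hA').2
      obtain ⟨y, hy1, hy2⟩ := h1.exists_notMem_finite h2
      refine ⟨y, ?_⟩
      intro A hA'
      rcases h𝒯 hA' with hc | hc
      · by_contra hyA
        refine hy2 ?_
        rw [Set.mem_iUnion₂]
        exact ⟨A, Finset.mem_filter.2 ⟨hA', hc⟩, hyA⟩
      · by_contra hyA
        exact hy1 Aᶜ (Finset.mem_image.2 ⟨A, Finset.mem_filter.2 ⟨hA', hc⟩, rfl⟩) hyA)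
  refine ⟨⟨U, fun n => hU (Or.inl ?_), fun E u S hS hf => ?_⟩⟩
  · refine (Set.finite_Iic n).subset ?_
    intro y hy
    simpa using hy
  · have h3 : Sᶜ ∈ U := hU (Or.inr ⟨E, u, by rwa [compl_compl]⟩)
    have h4 := Filter.inter_mem (f := (U : Filter ℕ)) hS h3
    rw [Set.inter_compl_self] at h4
    exact U.neBot.ne (Filter.empty_mem_iff_bot.1 h4)

namespace UCtx

open Classical in
/-- the true world -/
noncomputable def w (κ : UCtx T lab) : ℕ → Bool := fun x => decide ({y | T x y = true} ∈ κ.U)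

private theorem Ul_bool (κ : UCtx T lab) (g : ℕ → Bool) (h : {y | g y = true} ∉ κ.U) :
    {y | g y = false} ∈ κ.U := by
  have h1 := Ultrafilter.compl_mem_iff_notMem.2 h
  refine Filter.mem_of_superset h1 ?_
  intro y hy
  simpa using hy

theorem w_spec (κ : UCtx T lab) (x : ℕ) : {y | T x y = κ.w x} ∈ κ.U := by
  classical
  by_cases h : {y | T x y = true} ∈ κ.U
  · have : κ.w x = true := by simp [w, h]
    rw [this]; exact h
  · have : κ.w x = false := by simp [w, h]
    rw [this]; exact Ul_bool κ _ h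

/-- almost all `y` are above all elements of `F` and see the true world on `F` -/
theorem see (κ : UCtx T lab) (F : Finset ℕ) {S : Set ℕ} (hS : S ∈ κ.U) :
    {y | y ∈ S ∧ ∀ x ∈ F, x < y ∧ T x y = κ.w x} ∈ κ.U := by
  have h1 : ∀ᶠ y in (κ.U : Filter ℕ), ∀ x ∈ F, x < y ∧ T x y = κ.w x := by
    rw [Filter.eventually_all_finset]
    intro x _
    exact Filter.inter_mem (κ.free x) (κ.w_spec x)
  exact Filter.inter_mem hS h1

theorem exists_see (κ : UCtx T lab) (F : Finset ℕ) (m : ℕ) :
    ∃ s, m < s ∧ ∀ x ∈ F, x < s ∧ T x s = κ.w x := by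
  obtain ⟨s, hs⟩ := κ.U.neBot.nonempty_of_mem (κ.see F (κ.free m))
  exact ⟨s, hs.1, hs.2⟩

theorem exists_sign (κ : UCtx T lab) : ∃ a : Bool, {y | κ.w y = a} ∈ κ.U := by
  by_cases h : {y | κ.w y = true} ∈ κ.U
  · exact ⟨true, h⟩
  · exact ⟨false, Ul_bool κ _ h⟩

/-- EMG-6b.  Labels split above every alive node inside every set of `𝒰`.
Proof: the set of `κ.see E hS` is in `𝒰`, so it is not failing for `E` and `u = E.filter (w · = true)`. -/
theorem split (κ : UCtx T lab) {E : Finset ℕ} (hE : Alive T κ.w E) {S : Set ℕ} (hS : S ∈ κ.U) :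
    ∃ D D' : Finset ℕ, (D : Set ℕ) ⊆ S ∧ (D' : Set ℕ) ⊆ S ∧
      (∀ y ∈ D, ∀ x ∈ E, x < y ∧ T x y = κ.w x) ∧ (∀ y ∈ D', ∀ x ∈ E, x < y ∧ T x y = κ.w x) ∧
      Trn T (D : Set ℕ) ∧ Trn T (D' : Set ℕ) ∧ Incomp (lab (E ∪ D)) (lab (E ∪ D')) := by
  have h1 := κ.nf E (E.filter fun x => κ.w x = true) _ (κ.see E hS)
  have h2 : ∀ x ∈ E, decide (x ∈ E.filter fun x => κ.w x = true) = κ.w x := by
    intro x hx
    cases h : κ.w x
    · rw [decide_eq_false_iff_not, Finset.mem_filter, h]
      simp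
    · rw [decide_eq_true_iff, Finset.mem_filter]
      exact ⟨hx, h⟩
  by_contra hno
  refine h1 ⟨hE.congr h2, ?_, ?_⟩
  · intro y hy x hx
    rw [h2 x hx]
    exact hy.2 x hx
  · intro D D' hD hD' htD htD' hinc
    exact hno ⟨D, D', fun y hy => (hD hy).1, fun y hy => (hD' hy).1, fun y hy => (hD hy).2,
      fun y hy => (hD' hy).2, htD, htD', hinc⟩

/-- EMG-6c.  Avoiding finitely many reals above finitely many alive nodes.
Proof.  Induction on the list `L`.  Let `a` be as in `exists_sign`, and replace `S` by the set of all `y ∈ S`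
with `κ.w y = a` which are above all elements of the nodes `p.1`, `p ∈ L`, and see the true world on them.
Suppose `D` works for `L` (inside this `S`), and let `p = (E, r)` be a further pair.
The node `E ∪ D` is alive (`alive_union`, `w` is constant on `D`).  By `split` (with the set of all `y ∈ S` that are
above `D` and see the true world on `D`) there are `G, G'` transitive with `lab (E ∪ D ∪ G)`, `lab (E ∪ D ∪ G')`
incompatible; so one of them, say with `G`, is not an initial segment of `r`.  Take `D ∪ G`: it is transitive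
(`trn_union`: `D` is alive and `G` sees `w` on `D`), contained in `S`; for `p' ∈ L` the label of
`p'.1 ∪ (D ∪ G)` extends the label of `p'.1 ∪ D` (`LabMono`), so it is not an initial segment of `p'.2`. -/
theorem avoid (κ : UCtx T lab) (hT : IsTour T) (hl : LabMono lab)
    (L : List (Finset ℕ × (ℕ → Bool))) (hL : ∀ p ∈ L, Alive T κ.w p.1) {S : Set ℕ}
    (hS : S ∈ κ.U) :
    ∃ D : Finset ℕ, (D : Set ℕ) ⊆ S ∧ Trn T (D : Set ℕ) ∧
      ∀ p ∈ L, ¬ Pref (lab (p.1 ∪ D)) p.2 := by
  classical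
  induction L generalizing S with
  | nil => exact ⟨∅, by simp, fun x hx => by simp at hx, by simp⟩
  | cons p L ih =>
    obtain ⟨a, ha⟩ := κ.exists_sign
    set F : Finset ℕ := (p :: L).toFinset.biUnion fun q => q.1 with hF
    have hFm : ∀ q ∈ p :: L, ∀ x ∈ q.1, x ∈ F := fun q hq x hx =>
      Finset.mem_biUnion.2 ⟨q, List.mem_toFinset.2 hq, hx⟩
    have hS1 := κ.see F (Filter.inter_mem hS ha)
    obtain ⟨D, hDS, hDt, hDp⟩ := ih (fun q hq => hL q (List.mem_cons_of_mem _ hq)) hS1
    have hEalive : Alive T κ.w p.1 := hL p List.mem_cons_self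
    have hpD : ∀ q ∈ p :: L, ∀ y ∈ D, ∀ x ∈ q.1, x < y ∧ T x y = κ.w x := fun q hq y hy x hx =>
      (hDS hy).2 x (hFm q hq x hx)
    have hal : Alive T κ.w (p.1 ∪ D) :=
      alive_union hT hEalive hDt (hpD p List.mem_cons_self) (fun _ _ => rfl) (b := a)
        (fun y hy => (hDS hy).1.2)
    have key : ∃ G : Finset ℕ, (G : Set ℕ) ⊆ {y | y ∈ S ∩ {y | κ.w y = a} ∧
        ∀ x ∈ F, x < y ∧ T x y = κ.w x} ∧ (∀ y ∈ G, ∀ x ∈ p.1 ∪ D, x < y ∧ T x y = κ.w x) ∧
        Trn T (G : Set ℕ) ∧ ¬ Pref (lab (p.1 ∪ D ∪ G)) p.2 := by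
      obtain ⟨G, G', g1, g2, g3, g4, g5, g6, g7⟩ := κ.split hal hS1
      by_cases h : Pref (lab (p.1 ∪ D ∪ G)) p.2
      · refine ⟨G', g2, g4, g6, fun h' => not_incomp_of_pref h h' g7⟩
      · exact ⟨G, g1, g3, g5, h⟩
    obtain ⟨G, hG1, hG2, hG3, hG4⟩ := key
    refine ⟨D ∪ G, ?_, ?_, ?_⟩
    · rw [Finset.coe_union]
      exact Set.union_subset (fun y hy => (hDS hy).1.1) (fun y hy => (hG1 hy).1.1)
    · rw [Finset.coe_union]
      refine trn_union hT hDt (u := κ.w) ?_ hG3 ?_
      · intro x hx y hy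
        exact hal.2 x (by rw [Finset.coe_union]; exact Or.inr hx) y
          (by rw [Finset.coe_union]; exact Or.inr hy)
      · intro y hy x hx
        exact hG2 y hy x (Finset.mem_union_right _ hx)
    · intro q hq
      rw [← Finset.union_assoc]
      rcases List.mem_cons.1 hq with rfl | hq'
      · exact hG4
      · intro hP
        refine hDp q hq' (pref_of_prefix hP (hl _ _ (endExt_union ?_)))
        intro y hy x hx
        rcases Finset.mem_union.1 hx with hx | hx
        · exact ((hG1 hy).2 x (hFm q hq x hx)).1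
        · exact (hG2 y hy x (Finset.mem_union_right _ hx)).1

end UCtx

end Pool.Agent.helper72.EMG
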