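import Pool.Agent.helper72.EMG.Ul

/-!
# EMG-7. The ultrafilter `𝒱` on finite sets and the limit reals  (author: helper58)
-/

set_option autoImplicit false

namespace Pool.Agent.helper72.EMG

variable {T : ℕ → ℕ → Bool} {lab : Finset ℕ → List Bool}

/-- an ultrafilter on finite sets, with the limit reals `r E` of the labels above alive nodes -/
structure VCtx (κ : UCtx T lab) where
  V : Ultrafilter (Finset ℕ)
  sub : ∀ S ∈ κ.U, {D : Finset ℕ | (D : Set ℕ) ⊆ S ∧ Trn T (D : Set ℕ)} ∈ V
  off : ∀ E, Alive T κ.w E → ∀ g : ℕ → Bool, {D | ¬ Pref (lab (E ∪ D)) g} ∈ V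
  r : Finset ℕ → ℕ → Bool
  lim : ∀ E, Alive T κ.w E → ∀ n, {D | (List.range n).map (r E) <+: lab (E ∪ D)} ∈ V

/-- every string is an initial segment of a real -/
private theorem exists_pref (σ : List Bool) : ∃ g : ℕ → Bool, Pref σ g := by
  refine ⟨fun i => σ.getD i false, ?_⟩
  unfold Pref
  refine List.ext_getElem (by simp) fun i h1 h2 => ?_
  simp [List.getD_eq_getElem?_getD, h2]

private theorem prefix_step {σ l : List Bool} (h : σ <+: l) (hne : l ≠ σ) :
    (σ ++ [true]) <+: l ∨ (σ ++ [false]) <+: l := by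
  obtain ⟨t, rfl⟩ := h
  cases t with
  | nil => exact absurd (by simp) hne
  | cons b t =>
    cases b
    · exact Or.inr ⟨t, by simp⟩
    · exact Or.inl ⟨t, by simp⟩

private theorem prefix_get {σ l : List Bool} {b : Bool} (h : (σ ++ [b]) <+: l) :
    l[σ.length]? = some b := by
  obtain ⟨t, rfl⟩ := h
  simp

/-- the filter on finite sets -/
private def flt (κ : UCtx T lab) : Filter (Finset ℕ) where
  sets := {A | ∃ S ∈ κ.U, ∃ L : List (Finset ℕ × (ℕ → Bool)), (∀ p ∈ L, Alive T κ.w p.1) ∧
    ∀ D : Finset ℕ, (D : Set ℕ) ⊆ S → Trn T (D : Set ℕ) → (∀ p ∈ L, ¬ Pref (lab (p.1 ∪ D)) p.2) →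
      D ∈ A}
  univ_sets := ⟨Set.univ, Filter.univ_mem, [], by simp, fun _ _ _ _ => trivial⟩
  sets_of_superset := by
    rintro A B ⟨S, hS, L, hL, h⟩ hAB
    exact ⟨S, hS, L, hL, fun D h1 h2 h3 => hAB (h D h1 h2 h3)⟩
  inter_sets := by
    rintro A B ⟨S, hS, L, hL, h⟩ ⟨S', hS', L', hL', h'⟩
    refine ⟨S ∩ S', Filter.inter_mem hS hS', L ++ L', ?_, ?_⟩
    · intro p hp
      rcases List.mem_append.1 hp with hp | hp
      · exact hL p hp
      · exact hL' p hp
    · intro D h1 h2 h3
      exact ⟨h D (h1.trans Set.inter_subset_left) h2 fun p hp => h3 p (List.mem_append.2 (Or.inl hp)),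
        h' D (h1.trans Set.inter_subset_right) h2 fun p hp => h3 p (List.mem_append.2 (Or.inr hp))⟩

private theorem flt_neBot (κ : UCtx T lab) (hT : IsTour T) (hl : LabMono lab) : (flt κ).NeBot := by
  refine ⟨fun h => ?_⟩
  have h1 : (∅ : Set (Finset ℕ)) ∈ flt κ := by rw [h]; exact Filter.mem_bot
  obtain ⟨S, hS, L, hL, h2⟩ := h1
  obtain ⟨D, hD1, hD2, hD3⟩ := κ.avoid hT hl L hL hS
  exact h2 D hD1 hD2 hD3

/-- EMG-7.  Existence.  Proof.  Consider the filter generated by the sets
`{D | ↑D ⊆ S ∧ Trn T ↑D}` (`S ∈ κ.U`) and `{D | ¬ Pref (lab (E ∪ D)) g}` (`E` alive, `g` a real).  It is proper: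
a finite intersection contains the set of all transitive `D ⊆ S` (`S` the intersection of the finitely many
`S`'s) with `¬ Pref (lab (p.1 ∪ D)) p.2` for all `p` in a finite list `L`, which is nonempty by
`UCtx.avoid`.  Let `V` be an ultrafilter containing it.
Limit reals: let `E` be alive.  (i) For every `n` the set `{D | n ≤ (lab (E ∪ D)).length}` is in `V`: otherwise
`(lab (E ∪ D)).length < n` on a set of `V`; there are only finitely many strings of length `< n`, so
`lab (E ∪ D)` is a constant string `σ` on a set of `V` (finite partition), and then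
`Pref σ g` for a real `g` extending `σ`, contradiction to `off`.
(ii) For `n : ℕ` exactly one bit `b` has `{D | (lab (E ∪ D))[n]? = some b} ∈ V`; let `r E n` be this bit.  Then
the set of `D` with `n ≤ length` and `(lab (E ∪ D))[i]? = some (r E i)` for all `i < n` is in `V`, and for such `D`:
`(List.range n).map (r E) <+: lab (E ∪ D)`. -/
theorem exists_vctx (κ : UCtx T lab) (hT : IsTour T) (hl : LabMono lab) :
    Nonempty (VCtx κ) := by
  classical
  have := flt_neBot κ hT hl
  set V : Ultrafilter (Finset ℕ) := Ultrafilter.of (flt κ) with hV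
  have hle : ∀ A ∈ flt κ, A ∈ V := fun A hA => Ultrafilter.of_le (flt κ) hA
  have hsub : ∀ S ∈ κ.U, {D : Finset ℕ | (D : Set ℕ) ⊆ S ∧ Trn T (D : Set ℕ)} ∈ V :=
    fun S hS => hle _ ⟨S, hS, [], by simp, fun D h1 h2 _ => ⟨h1, h2⟩⟩
  have hoff : ∀ E, Alive T κ.w E → ∀ g : ℕ → Bool, {D | ¬ Pref (lab (E ∪ D)) g} ∈ V :=
    fun E hE g => hle _ ⟨Set.univ, Filter.univ_mem, [(E, g)], by
      intro p hp
      rw [List.mem_singleton] at hp
      rw [hp]
      exact hE, fun D _ _ h3 => h3 (E, g) (List.mem_singleton.2 rfl)⟩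
  let r : Finset ℕ → ℕ → Bool := fun E n => decide ({D | (lab (E ∪ D))[n]? = some true} ∈ V)
  have hlim : ∀ E, Alive T κ.w E → ∀ n,
      {D | (List.range n).map (r E) <+: lab (E ∪ D)} ∈ V := by
    intro E hE n
    induction n with
    | zero => exact Filter.mem_of_superset Filter.univ_mem fun D _ => by simp
    | succ n ih =>
      set σ : List Bool := (List.range n).map (r E) with hσ
      have hlen : σ.length = n := by simp [hσ]
      have hnext : (List.range (n + 1)).map (r E) = σ ++ [r E n] := by
        rw [List.range_succ, List.map_append, hσ]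
        rfl
      obtain ⟨g, hg⟩ := exists_pref σ
      have h1 : {D | (σ ++ [true]) <+: lab (E ∪ D)} ∪ {D | (σ ++ [false]) <+: lab (E ∪ D)} ∈ V := by
        filter_upwards [ih, hoff E hE g] with D hD hD'
        refine prefix_step hD fun h => hD' ?_
        rw [h]
        exact hg
      rw [hnext]
      rcases Ultrafilter.union_mem_iff.1 h1 with h2 | h2
      · have h3 : {D | (lab (E ∪ D))[n]? = some true} ∈ V := by
          filter_upwards [h2] with D hD
          rw [← hlen]
          exact prefix_get hD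
        have h4 : r E n = true := decide_eq_true h3
        rw [h4]
        exact h2
      · have h3 : {D | (lab (E ∪ D))[n]? = some true} ∉ V := by
          intro h4
          have h5 : (∅ : Set (Finset ℕ)) ∈ V := by
            filter_upwards [h2, h4] with D hD hD'
            have h6 := prefix_get hD
            rw [hlen] at h6
            have h7 : (lab (E ∪ D))[n]? = some true := hD'
            rw [h6] at h7
            simp at h7
          exact Ultrafilter.empty_notMem h5
        have h4 : r E n = false := decide_eq_false h3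
        rw [h4]
        exact h2
  exact ⟨⟨V, hsub, hoff, r, hlim⟩⟩

end Pool.Agent.helper72.EMG
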